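import Pool.Agent.AA.Defs

/-! AA (one of D, 2D, .., ND), module DSET. -/

set_option autoImplicit false

namespace Pool.Agent.AA

open Finset Filter Topology Pool.Agent.StrA

/-- common multiple of the elements of `A` and of their differences -/
private noncomputable def dsetL (A : Finset ℕ) : ℕ :=
  (∏ a ∈ A, a) * ∏ p ∈ A ×ˢ A, (if p.1 = p.2 then 1 else ((p.1 : ℤ) - p.2).natAbs)

private theorem dsetL_pos (A : Finset ℕ) (h : ∀ a ∈ A, 0 < a) : 0 < dsetL A := by
  unfold dsetL
  refine Nat.mul_pos (Finset.prod_pos h) (Finset.prod_pos fun p _ => ?_)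
  split_ifs with hp
  · exact one_pos
  · rw [Int.natAbs_pos, sub_ne_zero]
    exact_mod_cast hp

private theorem dvd_dsetL (A : Finset ℕ) {a : ℕ} (ha : a ∈ A) : a ∣ dsetL A :=
  Dvd.dvd.mul_right (Finset.dvd_prod_of_mem (fun a => a) ha) _

private theorem sub_dvd_dsetL (A : Finset ℕ) {a b : ℕ} (ha : a ∈ A) (hb : b ∈ A) (hab : a ≠ b) :
    ((a : ℤ) - b) ∣ (dsetL A : ℤ) := by
  have h : ((a : ℤ) - b).natAbs ∣ dsetL A := by
    have := Finset.dvd_prod_of_mem (fun p : ℕ × ℕ => if p.1 = p.2 then 1 else ((p.1 : ℤ) - p.2).natAbs)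
      (Finset.mk_mem_product ha hb)
    simp only [hab, if_false] at this
    exact Dvd.dvd.mul_left this _
  exact Int.natAbs_dvd.1 (Int.natCast_dvd_natCast.2 h)

/-- FOL5.  PROOF: induction on `K`: `A' = {L} ∪ {L + a : a ∈ A}`, `L` a positive common multiple of the elements of `A` and of all
differences `|a - a'|`, `a ≠ a'` in `A`. -/
theorem exists_divset (K : ℕ) : ∃ A : Finset ℕ, K ≤ A.card ∧ DivSet A := by
  induction K with
  | zero => exact ⟨∅, Nat.zero_le _, by simp [DivSet]⟩
  | succ K ih =>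
    obtain ⟨A, hK, hpos, hdiv⟩ := ih
    have hL := dsetL_pos A hpos
    have hinj : Function.Injective (fun a : ℕ => dsetL A + a) := fun a b h => by simpa using h
    have hnot : dsetL A ∉ A.image (fun a : ℕ => dsetL A + a) := by
      rw [Finset.mem_image]
      rintro ⟨a, ha, h⟩
      have := hpos a ha
      omega
    refine ⟨insert (dsetL A) (A.image (fun a => dsetL A + a)), ?_, ?_, ?_⟩
    · rw [Finset.card_insert_of_notMem hnot, Finset.card_image_of_injective _ hinj]
      omega
    · intro a ha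
      rcases Finset.mem_insert.1 ha with rfl | ha
      · exact hL
      · obtain ⟨b, _, rfl⟩ := Finset.mem_image.1 ha
        omega
    · intro a ha b hb hab
      rcases Finset.mem_insert.1 ha with rfl | ha
      · rcases Finset.mem_insert.1 hb with rfl | hb
        · exact absurd rfl hab
        · obtain ⟨c, hc, rfl⟩ := Finset.mem_image.1 hb
          have e : ((dsetL A : ℕ) : ℤ) - ((dsetL A + c : ℕ) : ℤ) = -(c : ℤ) := by push_cast; ring
          rw [e, neg_dvd]
          exact Int.natCast_dvd_natCast.2 (dvd_dsetL A hc)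
      · obtain ⟨c, hc, rfl⟩ := Finset.mem_image.1 ha
        rcases Finset.mem_insert.1 hb with rfl | hb
        · have e : ((dsetL A + c : ℕ) : ℤ) - ((dsetL A : ℕ) : ℤ) = (c : ℤ) := by push_cast; ring
          rw [e]
          exact Int.natCast_dvd_natCast.2 (Nat.dvd_add (dvd_dsetL A hc) dvd_rfl)
        · obtain ⟨d, hd, rfl⟩ := Finset.mem_image.1 hb
          have hcd : c ≠ d := fun h => hab (by rw [h])
          have e : ((dsetL A + c : ℕ) : ℤ) - ((dsetL A + d : ℕ) : ℤ) = (c : ℤ) - d := by push_cast; ring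
          rw [e]
          push_cast
          exact dvd_add (sub_dvd_dsetL A hc hd hcd) (hdiv c hc d hd hcd)

end Pool.Agent.AA
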