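import Pool.Agent.AA.Lvl

/-! AA (one of D, 2D, .., ND), module DVS: quotients of slopes. -/

set_option autoImplicit false

namespace Pool.Agent.AA

open Finset Filter Topology Pool.Agent.StrA

/-- DVS.  The quotient of two slopes is `D_j` times a number at most `N_j`. -/
theorem sl_div {B : ℕ → Set ℤ} {ε : ℝ} {R : ℕ} {A : Finset ℕ} (hA : DivSet A) {κ : ℝ} {x y : Lv} (hx : x.Ok B ε R A)
    (hy : y.Ok B ε R A) (hlt : x.Lt κ A y) {p q : ℕ × ℕ} (hp : p ∈ x.E ×ˢ A) (hq : q ∈ y.E ×ˢ A) :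
    x.sl p ∣ y.sl q ∧ ∃ t : ℕ, 0 < t ∧ t ≤ y.N ∧ y.sl q / x.sl p = y.D * t ∧ (y.D * t).primeFactors = y.D.primeFactors ∧
      (y.sl q).primeFactors = y.D.primeFactors := by
  rw [Finset.mem_product] at hp hq
  have hpos1 : 0 < p.1 := hx.posE _ hp.1
  have hpos2 : 0 < p.2 := hA.1 _ hp.2
  have hqos1 : 0 < q.1 := hy.posE _ hq.1
  have hqos2 : 0 < q.2 := hA.1 _ hq.2
  have hxs : 0 < x.sl p := by
    unfold Lv.sl
    exact Nat.mul_pos (Nat.mul_pos hx.posD hx.posL) (Nat.mul_pos hpos1 hpos2)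
  have hd : x.sl p ∣ y.L := hlt.dvd _ hp.1 _ hp.2
  obtain ⟨m, hm⟩ := hd
  have hm0 : 0 < m := by
    rcases Nat.eq_zero_or_pos m with h0 | h0
    · rw [h0, mul_zero] at hm
      exact absurd hm hy.posL.ne'
    · exact h0
  have hsl : y.sl q = x.sl p * (y.D * (m * (q.1 * q.2))) := by
    change y.D * y.L * (q.1 * q.2) = _
    rw [hm]
    ring
  have hN : y.L * (q.1 * q.2) ≤ y.N := hy.leN _ hq.1 _ hq.2
  have htN : m * (q.1 * q.2) ≤ y.N := by
    refine le_trans ?_ hN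
    rw [hm]
    exact Nat.mul_le_mul_right _ (Nat.le_mul_of_pos_left m hxs)
  have hprime : ∀ t : ℕ, 0 < t → t ≤ y.N → (y.D * t).primeFactors = y.D.primeFactors := by
    intro t ht0 htN
    rw [Nat.primeFactors_mul hy.posD.ne' ht0.ne']
    apply Finset.union_eq_left.2
    intro l hl
    have h1 := Nat.prime_of_mem_primeFactors hl
    have h2 := Nat.dvd_of_mem_primeFactors hl
    refine Nat.mem_primeFactors.2 ⟨h1, ?_, hy.posD.ne'⟩
    refine dvd_trans ?_ hy.fac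
    exact (Nat.Prime.dvd_factorial h1).2
      (((Nat.le_of_dvd ht0 h2).trans htN).trans (le_max_left _ _))
  refine ⟨⟨_, hsl⟩, m * (q.1 * q.2), Nat.mul_pos hm0 (Nat.mul_pos hqos1 hqos2), htN, ?_,
    hprime _ (Nat.mul_pos hm0 (Nat.mul_pos hqos1 hqos2)) htN, ?_⟩
  · rw [hsl]
    exact Nat.mul_div_cancel_left _ hxs
  · have h3 : y.sl q = y.D * (y.L * (q.1 * q.2)) := by
      unfold Lv.sl
      ring
    rw [h3]
    exact hprime _ (Nat.mul_pos hy.posL (Nat.mul_pos hqos1 hqos2)) hN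

end Pool.Agent.AA
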