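import Pool.Agent.AA.Defs

/-! AA (one of D, 2D, .., ND), module LMB: linear means. -/

set_option autoImplicit false

namespace Pool.Agent.AA

open Finset Filter Topology Pool.Agent.StrA

/-- LMB1.  PROOF: linearity and `nonneg'` for `g - f`. -/
theorem LM.mono (M : LM) {f g : ℤ → ℝ} (hf : Bdd f) (hg : Bdd g) (h : ∀ x, f x ≤ g x) : M.m f ≤ M.m g := by
  obtain ⟨C, hC⟩ := hf
  obtain ⟨C', hC'⟩ := hg
  have h1 := M.nonneg' (g - f) ⟨C' + C, fun x => by
    rw [Pi.sub_apply]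
    exact (abs_sub _ _).trans (add_le_add (hC' x) (hC x))⟩ (fun x => by
    rw [Pi.sub_apply, sub_nonneg]
    exact h x)
  rw [map_sub, sub_nonneg] at h1
  exact h1

/-- LMB2 -/
theorem LM.const (M : LM) (c : ℝ) : M.m (fun _ => c) = c := by
  have h1 : (fun _ : ℤ => c) = c • (fun _ : ℤ => (1 : ℝ)) := by
    funext x
    rw [Pi.smul_apply, smul_eq_mul, mul_one]
  rw [h1, map_smul, M.one', smul_eq_mul, mul_one]

/-- LMB3 -/
theorem LM.abs_le (M : LM) {f : ℤ → ℝ} {C : ℝ} (hf : ∀ x, |f x| ≤ C) : |M.m f| ≤ C := by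
  have h1 := M.mono (f := f) (g := fun _ => C) ⟨C, hf⟩ (Bdd.const C) (fun x => (_root_.abs_le.1 (hf x)).2)
  have h2 := M.mono (f := fun _ => -C) (g := f) (Bdd.const _) ⟨C, hf⟩
    (fun x => (_root_.abs_le.1 (hf x)).1)
  rw [LM.const] at h1 h2
  exact _root_.abs_le.2 ⟨h2, h1⟩

/-- LMB4 -/
theorem LM.sum (M : LM) {ι : Type*} (s : Finset ι) (f : ι → ℤ → ℝ) :
    M.m (fun x => ∑ i ∈ s, f i x) = ∑ i ∈ s, M.m (f i) := by
  have h1 : (fun x => ∑ i ∈ s, f i x) = ∑ i ∈ s, f i := by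
    funext x
    rw [Finset.sum_apply]
  rw [h1, map_sum]

/-- LMB5 -/
theorem LM.smul (M : LM) (c : ℝ) (f : ℤ → ℝ) : M.m (fun x => c * f x) = c * M.m f := by
  exact map_smul M.m c f

/-- LMB6 -/
theorem LM.add (M : LM) (f g : ℤ → ℝ) : M.m (fun x => f x + g x) = M.m f + M.m g := by
  exact map_add M.m f g

/-- LMB7 -/
theorem LM.sub (M : LM) (f g : ℤ → ℝ) : M.m (fun x => f x - g x) = M.m f - M.m g := by
  exact map_sub M.m f g

/-- LMB8 (Cauchy-Schwarz with a constant).  PROOF: `0 ≤ M ((f - t)²) = M (f²) - 2 t M f + t²` with `t = M f`. -/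
theorem LM.sq_le (M : LM) {f : ℤ → ℝ} (hf : Bdd f) : (M.m f) ^ 2 ≤ M.m fun x => f x ^ 2 := by
  obtain ⟨C, hC⟩ := hf
  obtain ⟨t, ht⟩ : ∃ t, t = M.m f := ⟨_, rfl⟩
  have hC0 : 0 ≤ C := (abs_nonneg _).trans (hC 0)
  have h1 := M.nonneg' (fun x => (f x - t) ^ 2) ⟨(C + |t|) ^ 2, fun x => by
    rw [abs_pow]
    exact pow_le_pow_left₀ (abs_nonneg _) ((abs_sub _ _).trans (add_le_add (hC x) le_rfl)) 2⟩
    (fun x => sq_nonneg _)
  have h2 : (fun x => (f x - t) ^ 2) = fun x => (f x ^ 2 + (-(2 * t)) * f x) + t ^ 2 := by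
    funext x
    ring
  rw [h2, M.add (fun x => f x ^ 2 + (-(2 * t)) * f x) (fun _ => t ^ 2),
    M.add (fun x => f x ^ 2) (fun x => (-(2 * t)) * f x), M.smul, LM.const] at h1
  rw [← ht]
  rw [← ht] at h1
  linarith [h1, sq t]

/-- LMB9.  A mean extends to a linear functional on all functions.
PROOF: the bounded functions form a subspace `V` of `ℤ → ℝ`; `M` restricted to `V` is a linear map `V →ₗ[ℝ] ℝ`;
`LinearMap.exists_extend`. -/
theorem exists_lm (M : Mean) : ∃ M' : LM, ∀ f, Bdd f → M'.m f = M.m f := by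
  let V : Submodule ℝ (ℤ → ℝ) :=
    { carrier := {f | Bdd f}
      add_mem' := fun {f g} hf hg => Bdd.add hf hg
      zero_mem' := Bdd.const 0
      smul_mem' := fun c f hf => Bdd.smul c hf }
  let φ : V →ₗ[ℝ] ℝ :=
    { toFun := fun f => M.m f.1
      map_add' := fun f g => M.add' f.1 g.1 f.2 g.2
      map_smul' := fun c f => M.smul' c f.1 f.2 }
  obtain ⟨g, hg⟩ := LinearMap.exists_extend φ
  have hg' : ∀ f, Bdd f → g f = M.m f := fun f hf => by
    have := LinearMap.congr_fun hg ⟨f, hf⟩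
    exact this
  exact ⟨⟨g, fun f hf h0 => by
    rw [hg' f hf]
    exact M.nonneg' f hf h0, by
    rw [hg' _ (Bdd.const 1)]
    exact M.one'⟩, hg'⟩

/-- LMB10: invariant under all multiples (`Mean.Inv.mul`) -/
theorem LM.Inv.mul {M : LM} {q : ℤ} (h : M.Inv q) (n : ℤ) : M.Inv (n * q) := by
  exact Mean.Inv.mul M.mean (LM.mean_inv h) n

end Pool.Agent.AA
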