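import Pool.Agent.AA.Prj
import Pool.Agent.AA.LMb

/-! AA (one of D, 2D, .., ND), module FB: the averages fbar. -/

set_option autoImplicit false

namespace Pool.Agent.AA

open Finset Filter Topology Pool.Agent.StrA

private theorem FB_ind (E : Set ℤ) (x : ℤ) : 0 ≤ ind E x ∧ ind E x ≤ 1 := by
  unfold ind
  by_cases h : x ∈ E
  · rw [Set.indicator_of_mem h]
    exact ⟨zero_le_one, le_rfl⟩
  · rw [Set.indicator_of_notMem h]
    exact ⟨le_rfl, zero_le_one⟩

/-- FB1 -/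
theorem fbar_mem (B : ℕ → Set ℤ) (n g : ℕ) (x : ℤ) : 0 ≤ fbar B n g x ∧ fbar B n g x ≤ 1 := by
  unfold fbar
  refine ⟨div_nonneg (Finset.sum_nonneg fun l _ => (FB_ind _ _).1) (Nat.cast_nonneg n), ?_⟩
  apply div_le_one_of_le₀ _ (Nat.cast_nonneg n)
  calc ∑ l ∈ range n, ind (B g) (x - (g : ℤ) * l) ≤ ∑ l ∈ range n, (1 : ℝ) :=
        Finset.sum_le_sum fun l _ => (FB_ind _ _).2
    _ = n := by rw [Finset.sum_const, Finset.card_range, nsmul_eq_mul, mul_one]

/-- FB2 -/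
theorem fbar_mean (M : LM) (B : ℕ → Set ℤ) (n g : ℕ) (hn : 0 < n) (hM : M.Inv g) :
    M.m (fbar B n g) = M.m (ind (B g)) := by
  have hn0 : (n : ℝ) ≠ 0 := by exact_mod_cast hn.ne'
  have h1 : fbar B n g = fun x => (n : ℝ)⁻¹ * ∑ l ∈ range n, ind (B g) (x - (g : ℤ) * l) := by
    funext x
    unfold fbar
    rw [div_eq_inv_mul]
  rw [h1, LM.smul, LM.sum M (range n) fun l x => ind (B g) (x - (g : ℤ) * l)]
  have h2 : ∀ l ∈ range n, M.m (fun x => ind (B g) (x - (g : ℤ) * (l : ℤ))) =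
      M.m (ind (B g)) := by
    intro l _
    have h3 := LM.Inv.mul hM (l : ℤ) (ind (B g)) (bdd_ind _)
    rw [mul_comm (l : ℤ)] at h3
    exact h3
  rw [Finset.sum_congr rfl h2, Finset.sum_const, Finset.card_range, nsmul_eq_mul, ← mul_assoc,
    inv_mul_cancel₀ hn0, one_mul]

/-- FB3.  PROOF: with `V = T^k`, `g = D k`: `ι (fbar B n g) = (1/n) ∑_{l<n} V^l (ι f_g)` (`Rep.shift_zpow`, `Rep.sum`, `Rep.smul`);
mean ergodic theorem (`ContinuousLinearMap.tendsto_birkhoffAverage_orthogonalProjection` for `V`, see also `ev_av_le`). -/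
theorem fbar_near {M : Mean} {D : ℕ} (Q : RB M D) (B : ℕ → Set ℤ) (k : ℕ) (δ : ℝ) (hδ : 0 < δ) :
    ∃ n0 : ℕ, ∀ n ≥ n0, ‖Q.v (fbar B n (D * k)) - PV (Q.R.T ^ k) 1 (Q.v (ind (B (D * k))))‖ ≤ δ := by
  set V := Q.R.T ^ k with hV
  set f : Q.H := Q.v (ind (B (D * k))) with hf
  set w : Q.H := f - PV V 1 f with hw
  have hP : V (PV V 1 f) = PV V 1 f := by
    rw [PV_mem, one_smul]
  have hPn : ∀ n : ℕ, (V ^ n) (PV V 1 f) = PV V 1 f := by
    intro n
    induction n with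
    | zero => rfl
    | succ n ih =>
      rw [pow_succ']
      change V ((V ^ n) (PV V 1 f)) = _
      rw [ih, hP]
  have h1 := ev_av_le V w 1 norm_one 0 le_rfl (fun v hv => by
    rw [hw, inner_sub_right, PV_inner V 1 f v hv, sub_self, norm_zero, zero_mul]) δ hδ
  rw [zero_add, eventually_atTop] at h1
  obtain ⟨n0, hn0⟩ := h1
  refine ⟨n0 + 1, fun n hn => ?_⟩
  have hnpos : (n : ℂ) ≠ 0 := by
    have : n ≠ 0 := by omega
    exact_mod_cast this
  have h2 : Q.v (fbar B n (D * k)) - PV V 1 f = av V 1 n w := by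
    have hbd : ∀ l : ℕ, BddC fun x : ℤ =>
        ((ind (B (D * k)) (x - ((D * k : ℕ) : ℤ) * l) : ℝ) : ℂ) := fun l => ⟨1, fun x => by
      rw [Complex.norm_real, Real.norm_eq_abs, abs_of_nonneg (FB_ind _ _).1]
      exact (FB_ind _ _).2⟩
    have hbd0 : BddC fun x : ℤ => ((ind (B (D * k)) x : ℝ) : ℂ) := ⟨1, fun x => by
      rw [Complex.norm_real, Real.norm_eq_abs, abs_of_nonneg (FB_ind _ _).1]
      exact (FB_ind _ _).2⟩
    have h3 : Q.v (fbar B n (D * k)) = (n : ℂ)⁻¹ • ∑ l ∈ range n, (V ^ l) f := by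
      have h4 : (fun x : ℤ => ((fbar B n (D * k) x : ℝ) : ℂ)) = fun x : ℤ => (n : ℂ)⁻¹ *
          (∑ l ∈ range n, ((ind (B (D * k)) (x - ((D * k : ℕ) : ℤ) * l) : ℝ) : ℂ)) := by
        funext x
        unfold fbar
        rw [Complex.ofReal_div, Complex.ofReal_sum, div_eq_inv_mul]
        rfl
      have h5 : BddC fun x : ℤ =>
          (∑ l ∈ range n, ((ind (B (D * k)) (x - ((D * k : ℕ) : ℤ) * l) : ℝ) : ℂ)) :=
        ⟨n, fun x => by
          refine (norm_sum_le _ _).trans ?_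
          calc ∑ l ∈ range n, ‖((ind (B (D * k)) (x - ((D * k : ℕ) : ℤ) * l) : ℝ) : ℂ)‖
              ≤ ∑ l ∈ range n, (1 : ℝ) := Finset.sum_le_sum fun l _ => by
                rw [Complex.norm_real, Real.norm_eq_abs, abs_of_nonneg (FB_ind _ _).1]
                exact (FB_ind _ _).2
            _ = n := by rw [Finset.sum_const, Finset.card_range, nsmul_eq_mul, mul_one]⟩
      change Q.R.ι (fun x : ℤ => ((fbar B n (D * k) x : ℝ) : ℂ)) = _
      rw [h4, Q.R.smul _ _ h5, Rep.sum Q.R (range n) _ fun l _ => hbd l]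
      congr 1
      refine Finset.sum_congr rfl fun l _ => ?_
      have h6 := Rep.shift_zpow Q.R (fun x : ℤ => ((ind (B (D * k)) x : ℝ) : ℂ)) hbd0
        ((k * l : ℕ) : ℤ)
      rw [zpow_natCast, pow_mul] at h6
      rw [← hV] at h6
      change (V ^ l) f = _ at h6
      rw [h6]
      congr 1
      funext x
      congr 3
      push_cast
      ring
    rw [h3]
    unfold av
    simp only [one_pow, inv_one, one_smul]
    have h7 : ∑ l ∈ range n, (V ^ l) w = ∑ l ∈ range n, (V ^ l) f - (n : ℂ) • PV V 1 f := by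
      rw [hw]
      simp only [map_sub, hPn, Finset.sum_sub_distrib, Finset.sum_const, Finset.card_range]
      rw [Nat.cast_smul_eq_nsmul]
    rw [h7, smul_sub, smul_smul, inv_mul_cancel₀ hnpos, one_smul]
  rw [h2]
  exact hn0 n (by omega)

/-- FB4.  PROOF: `fb g = fbar B (n g) g` with `n (D k) > 0` from FB3. -/
theorem exists_fb (M : LM) (D : ℕ) (hD : 0 < D) (hM : M.Inv D) (Q : RB M.mean D) (B : ℕ → Set ℤ) (δ : ℝ) (hδ : 0 < δ) :
    ∃ fb : ℕ → ℤ → ℝ, (∀ g x, 0 ≤ fb g x ∧ fb g x ≤ 1) ∧ (∀ k, 0 < k → M.m (fb (D * k)) = M.m (ind (B (D * k)))) ∧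
      Near Q B δ fb := by
  classical
  choose n0 hn0 using fun k : ℕ => fbar_near Q B k δ hδ
  refine ⟨fun g => fbar B (n0 (g / D) + 1) g, fun g x => fbar_mem B _ g x, fun k hk => ?_,
    fun k hk => ?_⟩
  · apply fbar_mean M B _ _ (Nat.succ_pos _)
    have h1 := LM.Inv.mul hM (k : ℤ)
    rw [mul_comm] at h1
    rw [Nat.cast_mul]
    exact h1
  · have h2 : D * k / D = k := Nat.mul_div_cancel_left k hD
    have h3 := hn0 k (n0 k + 1) (Nat.le_succ _)
    simp only [h2]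
    exact h3

end Pool.Agent.AA
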