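import Pool.Agent.AA.TelB

/-! AA (one of D, 2D, .., ND), module IND: lower bound for the clique function. -/

set_option autoImplicit false

namespace Pool.Agent.AA

open Finset Filter Topology Pool.Agent.StrA

variable {ι : Type} [LinearOrder ι] (B : ℕ → Set ℤ) (lam : ι → ℕ) (Ms : ι → LM) (fb : ι → ℕ → ℤ → ℝ)

/-- IND.  PROOF: induction on the maximum of `S`.  `II ∅ = 1`.  For `insert j S`: `(insert j S).filter (· < j) = S`, for `a ∈ S`:
`(insert j S).filter (· < a) = S.filter (· < a)`.  `II (insert j S) ≥ cc j S * II S - E_j ≥ c * II S - E_j` (`II S ≥ 0`, `Nst_nonneg`)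
`≥ c (c^|S| - E_S) - E_j ≥ c^(|S|+1) - E_S - E_j`. -/
theorem II_ge (hfb : ∀ j g x, 0 ≤ fb j g x ∧ fb j g x ≤ 1) (c : ℝ) (hc : 0 ≤ c) (hc1 : c ≤ 1) (S : Finset ι)
    (hS : ∀ j ∈ S, c ≤ cc lam Ms fb j (S.filter (· < j))) :
    c ^ S.card - ∑ j ∈ S, ∑ i ∈ S.filter (· < j), err B lam Ms fb j (S.filter (· < j)) i ≤ II B lam Ms S := by
  revert hS
  induction S using Finset.induction_on_max with
  | empty =>
    intro _
    simp [II, Nst, WW]
  | insert j S hj ih =>
    intro hS
    have hjS : j ∉ S := fun h => lt_irrefl _ (hj j h)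
    have e1 : (insert j S).filter (· < j) = S := by
      ext a
      rw [Finset.mem_filter, Finset.mem_insert]
      constructor
      · rintro ⟨rfl | h, h2⟩
        · exact absurd h2 (lt_irrefl _)
        · exact h
      · intro h
        exact ⟨Or.inr h, hj a h⟩
    have e3 : ∀ i ∈ S, (insert j S).filter (· < i) = S.filter (· < i) := by
      intro i hi
      rw [Finset.filter_insert, if_neg (not_lt_of_gt (hj i hi))]
    have h1 := ih fun i hi => by
      have := hS i (Finset.mem_insert_of_mem hi)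
      rwa [e3 i hi] at this
    have h2 := hS j (Finset.mem_insert_self j S)
    rw [e1] at h2
    have h3 := (abs_le.1 (telescope B lam Ms fb hfb S j hj)).1
    have h4 : 0 ≤ II B lam Ms S := by
      unfold II
      refine Nst_nonneg Ms _ (C := 1) (fun F => ?_) (fun F => (WW_mem B lam S F).1) _
      rw [abs_of_nonneg (WW_mem B lam S F).1]
      exact (WW_mem B lam S F).2
    obtain ⟨E, hE⟩ : ∃ E, E = ∑ j ∈ S, ∑ i ∈ S.filter (· < j), err B lam Ms fb j (S.filter (· < j)) i :=
      ⟨_, rfl⟩
    have h5 : 0 ≤ E := by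
      rw [hE]
      exact Finset.sum_nonneg fun j _ => Finset.sum_nonneg fun i _ => abs_nonneg _
    have h6 : ∑ j' ∈ insert j S, ∑ i ∈ (insert j S).filter (· < j'),
        err B lam Ms fb j' ((insert j S).filter (· < j')) i = ∑ i ∈ S, err B lam Ms fb j S i + E := by
      rw [Finset.sum_insert hjS, e1, hE]
      congr 1
      refine Finset.sum_congr rfl fun i hi => ?_
      rw [e3 i hi]
    rw [← hE] at h1
    rw [h6, Finset.card_insert_of_notMem hjS, pow_succ]
    have h7 : c * II B lam Ms S ≤ cc lam Ms fb j S * II B lam Ms S :=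
      mul_le_mul_of_nonneg_right h2 h4
    have h8 : c * (c ^ S.card - E) ≤ c * II B lam Ms S := mul_le_mul_of_nonneg_left h1 hc
    have h9 : c * E ≤ E := mul_le_of_le_one_left h5 hc1
    nlinarith

end Pool.Agent.AA
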