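import Pool.Agent.AA.LMb

/-! AA (one of D, 2D, .., ND), module INT: intersectivity. -/

set_option autoImplicit false

namespace Pool.Agent.AA

open Finset Filter Topology Pool.Agent.StrA

/-- INT.  PROOF: `T_x = {i ∈ S : ε / 2 ≤ K i x}`.  `K i x ≤ ε / 2 + 1_(i ∈ T_x)`, so `M (|T_x|) ≥ (ε / 2) |S|`; and
`|T_x| ≤ (ε / 4) |S| + |S| 1_(|T_x| ≥ (ε/4) |S|)`, so `M (1_(|T_x| ≥ (ε/4) |S|)) ≥ ε / 4` if `S` is not empty (if `S = ∅` take
`T = ∅`, `cst ε n ≤ 1`).  There are at most `2^|S|` possible sets `T_x`, so one `T` with `|T| ≥ (ε/4) |S|` has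
`M (1_(T_x = T)) ≥ (ε / 4) / 2^|S|`, and for `U ⊆ T`: `∏_{i ∈ U} K i x ≥ (ε/2)^|S| 1_(T_x = T)`. -/
theorem inter {ι : Type*} [DecidableEq ι] (M : LM) (K : ι → ℤ → ℝ) (hK : ∀ i x, 0 ≤ K i x ∧ K i x ≤ 1) (ε : ℝ) (hε : 0 < ε)
    (hε1 : ε ≤ 1) (S : Finset ι) (n : ℕ) (hn : S.card ≤ n) (h : ∀ i ∈ S, ε ≤ M.m (K i)) :
    ∃ T ⊆ S, ε / 4 * S.card ≤ T.card ∧ ∀ U ⊆ T, cst ε n ≤ M.m fun x => ∏ i ∈ U, K i x := by
  classical
  by_cases hS0 : S = ∅
  · refine ⟨∅, empty_subset _, by rw [hS0]; simp, ?_⟩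
    intro U hU
    rw [subset_empty.mp hU]
    simp only [prod_empty]
    rw [M.one']
    unfold cst
    have h1 : (ε / 2) ^ n ≤ 1 := pow_le_one₀ (by positivity) (by linarith)
    have h2 : (1 : ℝ) ≤ 2 ^ n := one_le_pow₀ (by norm_num)
    rw [div_le_one (by positivity)]
    calc (ε / 2) ^ n * (ε / 4) ≤ 1 * 1 := by
          apply mul_le_mul h1 (by linarith) (by positivity) zero_le_one
      _ ≤ 2 ^ n := by linarith
  have hSne : S.Nonempty := nonempty_iff_ne_empty.mpr hS0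
  have hSc : (0 : ℝ) < S.card := by exact_mod_cast hSne.card_pos
  obtain ⟨Tx, hTx⟩ : ∃ Tx : ℤ → Finset ι, ∀ x, Tx x = S.filter fun i => ε / 2 ≤ K i x := ⟨_, fun _ => rfl⟩
  obtain ⟨e, he⟩ : ∃ e : Finset ι → ℤ → ℝ, ∀ T x, e T x = if Tx x = T then 1 else 0 := ⟨_, fun _ _ => rfl⟩
  have heb : ∀ T, Bdd (e T) := fun T => ⟨1, fun x => by rw [he]; split_ifs <;> simp⟩
  have he0 : ∀ T x, 0 ≤ e T x := fun T x => by rw [he]; split_ifs <;> norm_num
  obtain ⟨F, hF⟩ : ∃ F : Finset (Finset ι), F = S.powerset.filter fun T => ε / 4 * S.card ≤ T.card := ⟨_, rfl⟩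
  have hTS : ∀ x, Tx x ⊆ S := fun x => by rw [hTx]; exact filter_subset _ _
  have hpt : ∀ x, ∑ i ∈ S, K i x ≤ 3 * ε / 4 * S.card + S.card * ∑ T ∈ F, e T x := by
    intro x
    have h1 : ∑ i ∈ S, K i x ≤ ε / 2 * S.card + (Tx x).card := by
      calc ∑ i ∈ S, K i x ≤ ∑ i ∈ S, (ε / 2 + if ε / 2 ≤ K i x then 1 else 0) := by
            apply sum_le_sum
            intro i _
            split_ifs with hi
            · linarith [(hK i x).2]
            · linarith
        _ = ε / 2 * S.card + (Tx x).card := by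
            rw [sum_add_distrib, sum_const, nsmul_eq_mul, sum_boole, hTx]
            ring
    by_cases hb : ε / 4 * S.card ≤ (Tx x).card
    · have h2 : ∑ T ∈ F, e T x = 1 := by
        rw [sum_eq_single (Tx x)]
        · rw [he, if_pos rfl]
        · intro T _ hT
          rw [he, if_neg (Ne.symm hT)]
        · intro h3
          rw [hF] at h3
          exact absurd (mem_filter.mpr ⟨mem_powerset.mpr (hTS x), hb⟩) h3
      have h3 : ((Tx x).card : ℝ) ≤ S.card := by exact_mod_cast card_le_card (hTS x)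
      rw [h2]
      nlinarith
    · push Not at hb
      have h2 : 0 ≤ (S.card : ℝ) * ∑ T ∈ F, e T x := mul_nonneg hSc.le (sum_nonneg fun T _ => he0 T x)
      linarith
  have hKb : ∀ i, Bdd (K i) := fun i => ⟨1, fun x => by
    rw [abs_of_nonneg (hK i x).1]
    exact (hK i x).2⟩
  have hsb : Bdd fun x => ∑ i ∈ S, K i x := ⟨S.card, fun x => by
    rw [abs_of_nonneg (sum_nonneg fun i _ => (hK i x).1)]
    calc ∑ i ∈ S, K i x ≤ ∑ i ∈ S, (1 : ℝ) := sum_le_sum fun i _ => (hK i x).2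
      _ = S.card := by simp⟩
  have heb' : Bdd fun x => ∑ T ∈ F, e T x := ⟨F.card, fun x => by
    rw [abs_of_nonneg (sum_nonneg fun T _ => he0 T x)]
    calc ∑ T ∈ F, e T x ≤ ∑ T ∈ F, (1 : ℝ) := sum_le_sum fun T _ => by rw [he]; split_ifs <;> norm_num
      _ = F.card := by simp⟩
  have hM : ε / 4 ≤ ∑ T ∈ F, M.m (e T) := by
    have h1 := M.mono (f := fun x => ∑ i ∈ S, K i x)
      (g := fun x => 3 * ε / 4 * S.card + S.card * ∑ T ∈ F, e T x) hsb
      ((Bdd.const _).add (heb'.smul _)) hpt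
    rw [M.sum, M.add (fun _ => 3 * ε / 4 * S.card) (fun x => S.card * ∑ T ∈ F, e T x), M.const,
      M.smul (S.card : ℝ) (fun x => ∑ T ∈ F, e T x), M.sum] at h1
    have h2 : ε * S.card ≤ ∑ i ∈ S, M.m (K i) := by
      calc ε * S.card = ∑ i ∈ S, ε := by rw [sum_const, nsmul_eq_mul, mul_comm]
        _ ≤ ∑ i ∈ S, M.m (K i) := sum_le_sum h
    have h3 : S.card * (ε / 4) ≤ S.card * ∑ T ∈ F, M.m (e T) := by linarith
    exact le_of_mul_le_mul_left h3 hSc
  have hFne : F.Nonempty := ⟨S, by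
    rw [hF]
    refine mem_filter.mpr ⟨mem_powerset.mpr (Subset.refl _), ?_⟩
    nlinarith⟩
  have hFc : (F.card : ℝ) ≤ 2 ^ n := by
    have h1 : F.card ≤ 2 ^ S.card := by
      rw [hF, ← card_powerset]
      exact card_le_card (filter_subset _ _)
    have h2 : F.card ≤ 2 ^ n := h1.trans (Nat.pow_le_pow_right (by norm_num) hn)
    exact_mod_cast h2
  obtain ⟨T, hT, hTM⟩ : ∃ T ∈ F, ε / 4 / 2 ^ n ≤ M.m (e T) := by
    refine exists_le_of_sum_le hFne (f := fun _ => ε / 4 / 2 ^ n) (g := fun T => M.m (e T)) ?_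
    refine le_trans ?_ hM
    rw [sum_const, nsmul_eq_mul]
    calc (F.card : ℝ) * (ε / 4 / 2 ^ n) ≤ 2 ^ n * (ε / 4 / 2 ^ n) := by
          apply mul_le_mul_of_nonneg_right hFc
          positivity
      _ = ε / 4 := by field_simp
  rw [hF, mem_filter, mem_powerset] at hT
  refine ⟨T, hT.1, hT.2, ?_⟩
  intro U hU
  have hUn : U.card ≤ n := (card_le_card (hU.trans hT.1)).trans hn
  have h1 : ∀ x, (ε / 2) ^ n * e T x ≤ ∏ i ∈ U, K i x := by
    intro x
    rw [he]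
    split_ifs with hx
    · rw [mul_one]
      calc (ε / 2) ^ n ≤ (ε / 2) ^ U.card := pow_le_pow_of_le_one (by positivity) (by linarith) hUn
        _ = ∏ i ∈ U, (ε / 2) := by rw [prod_const]
        _ ≤ ∏ i ∈ U, K i x := by
            refine prod_le_prod (fun _ _ => by positivity) fun i hi => ?_
            have h2 : i ∈ Tx x := by rw [hx]; exact hU hi
            rw [hTx] at h2
            exact (mem_filter.mp h2).2
    · rw [mul_zero]
      exact prod_nonneg fun i _ => (hK i x).1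
  have h2 := M.mono (f := fun x => (ε / 2) ^ n * e T x) (g := fun x => ∏ i ∈ U, K i x) ((heb T).smul _)
    ⟨1, fun x => by
      rw [abs_of_nonneg (prod_nonneg fun i _ => (hK i x).1)]
      exact prod_le_one (fun i _ => (hK i x).1) fun i _ => (hK i x).2⟩ h1
  rw [M.smul] at h2
  refine le_trans ?_ h2
  unfold cst
  rw [mul_div_assoc]
  exact mul_le_mul_of_nonneg_left hTM (by positivity)

end Pool.Agent.AA
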