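import Pool.Agent.AA.Defs

/-! AA (one of D, 2D, .., ND), module PAR: choice of the parameters. -/

set_option autoImplicit false

namespace Pool.Agent.AA

open Finset Filter Topology Pool.Agent.StrA

/-- PAR.  Choice of the parameters. -/
theorem exists_params (K δ0 : ℝ) (hδ0 : 0 < δ0) (hK : 0 < K) :
    ∃ (w : ℕ) (η δ : ℝ), 1 ≤ w ∧ 0 < η ∧ η ≤ 1 ∧ 0 < δ ∧ (√(2 * √w * (8 * √(√η) + 1 / w)) + δ + η ^ 4) * K < δ0 := by
  obtain ⟨c, hc⟩ : ∃ c : ℝ, c = δ0 / K := ⟨_, rfl⟩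
  have hc0 : 0 < c := by rw [hc]; positivity
  obtain ⟨s, hs⟩ : ∃ s : ℝ, s = (c / 3) ^ 2 := ⟨_, rfl⟩
  have hs0 : 0 < s := by rw [hs]; positivity
  obtain ⟨w, hw⟩ := exists_nat_ge (max 1 ((4 / s) ^ 2))
  have hw1 : (1 : ℝ) ≤ w := (le_max_left _ _).trans hw
  have hw1' : 1 ≤ w := by exact_mod_cast hw1
  have hw0 : (0 : ℝ) < w := by linarith
  have hq : 4 / s ≤ √w := Real.le_sqrt_of_sq_le ((le_max_right _ _).trans hw)
  have hq0 : 0 < √(w : ℝ) := Real.sqrt_pos.2 hw0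
  obtain ⟨z, hz⟩ : ∃ z : ℝ, z = s / (64 * √w) := ⟨_, rfl⟩
  have hz0 : 0 < z := by rw [hz]; positivity
  obtain ⟨η, hη⟩ : ∃ η : ℝ, η = min 1 (min (c / 6) (z ^ 4)) := ⟨_, rfl⟩
  have hη0 : 0 < η := by rw [hη]; positivity
  have hη1 : η ≤ 1 := by rw [hη]; exact min_le_left _ _
  have hηc : η ≤ c / 6 := by rw [hη]; exact (min_le_right _ _).trans (min_le_left _ _)
  have hηz : η ≤ z ^ 4 := by rw [hη]; exact (min_le_right _ _).trans (min_le_right _ _)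
  refine ⟨w, η, c / 6, hw1', hη0, hη1, by positivity, ?_⟩
  have h1 : √(√η) ≤ z := by
    apply Real.sqrt_le_iff.2
    refine ⟨hz0.le, ?_⟩
    apply Real.sqrt_le_iff.2
    refine ⟨by positivity, ?_⟩
    calc η ≤ z ^ 4 := hηz
      _ = (z ^ 2) ^ 2 := by ring
  have h2 : 2 * √(w : ℝ) * (8 * √(√η)) ≤ s / 4 := by
    calc 2 * √(w : ℝ) * (8 * √(√η)) ≤ 2 * √(w : ℝ) * (8 * z) := by gcongr
      _ = s / 4 := by rw [hz]; field_simp; ring
  have h3 : 2 * √(w : ℝ) * (1 / w) ≤ s / 2 := by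
    have h4 : 2 * √(w : ℝ) * (1 / w) = 2 / √w := by
      have h5 : √(w : ℝ) * √w = w := Real.mul_self_sqrt hw0.le
      rw [mul_one_div, div_eq_div_iff hw0.ne' hq0.ne']
      calc 2 * √(w : ℝ) * √w = 2 * (√(w : ℝ) * √w) := by ring
        _ = 2 * w := by rw [h5]
    rw [h4, div_le_div_iff₀ hq0 (by norm_num)]
    have h6 : 4 ≤ √(w : ℝ) * s := (div_le_iff₀ hs0).1 hq
    linarith
  have h7 : 2 * √(w : ℝ) * (8 * √(√η) + 1 / w) < s := by
    have h8 : 2 * √(w : ℝ) * (8 * √(√η) + 1 / w) = 2 * √(w : ℝ) * (8 * √(√η)) + 2 * √(w : ℝ) * (1 / w) := by ring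
    rw [h8]
    linarith
  have h9 : √(2 * √(w : ℝ) * (8 * √(√η) + 1 / w)) < c / 3 := by
    rw [Real.sqrt_lt' (by positivity), ← hs]
    exact h7
  have h10 : η ^ 4 ≤ η := by
    calc η ^ 4 = η * η ^ 3 := by ring
      _ ≤ η * 1 := by
        apply mul_le_mul_of_nonneg_left _ hη0.le
        exact pow_le_one₀ hη0.le hη1
      _ = η := mul_one η
  have h11 : √(2 * √(w : ℝ) * (8 * √(√η) + 1 / w)) + c / 6 + η ^ 4 < c := by linarith
  calc (√(2 * √(w : ℝ) * (8 * √(√η) + 1 / w)) + c / 6 + η ^ 4) * K < c * K :=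
        mul_lt_mul_of_pos_right h11 hK
    _ = δ0 := by rw [hc]; field_simp

end Pool.Agent.AA
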