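import Pool.Agent.AA.Defs

/-! AA (one of D, 2D, .., ND), module SEL: choice of the vertices. -/

set_option autoImplicit false

namespace Pool.Agent.AA

open Finset Filter Topology Pool.Agent.StrA

/-- SEL.  PROOF: induction on `R`.  `j` = maximum of `S`; apply `h` to `j` and `S \ {j}`: `T` has at least
`(ε / 4) (|S| - 1) ≥ rr ε R` elements; by induction `J' ⊆ T`, `J = insert j J'`. -/
theorem select {ι : Type*} [LinearOrder ι] (P : ι → Finset ι → Prop) (ε : ℝ) (hε : 0 < ε)
    (h : ∀ (j : ι) (S : Finset ι), (∀ i ∈ S, i < j) → ∃ T ⊆ S, ε / 4 * S.card ≤ T.card ∧ ∀ U ⊆ T, P j U)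
    (R : ℕ) (S : Finset ι) (hS : rr ε R ≤ S.card) :
    ∃ J ⊆ S, J.card = R ∧ ∀ j ∈ J, P j (J.filter (· < j)) := by
  induction R generalizing S with
  | zero => exact ⟨∅, Finset.empty_subset _, rfl, by simp⟩
  | succ R ih =>
    have hr : rr ε (R + 1) = ⌈(4 / ε) * rr ε R⌉₊ + 1 := rfl
    have hne : S.Nonempty := Finset.card_pos.1 (by omega)
    set j := S.max' hne with hj
    have hjS : j ∈ S := S.max'_mem hne
    have hlt : ∀ i ∈ S.erase j, i < j := fun i hi =>
      lt_of_le_of_ne (S.le_max' i (Finset.mem_of_mem_erase hi)) (Finset.ne_of_mem_erase hi)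
    obtain ⟨T, hTS, hT, hP⟩ := h j (S.erase j) hlt
    have hc : (S.erase j).card + 1 = S.card := Finset.card_erase_add_one hjS
    have h1 : ((4 / ε) * rr ε R : ℝ) ≤ (S.erase j).card := by
      refine le_trans (Nat.le_ceil _) ?_
      exact_mod_cast (by omega : ⌈(4 / ε) * rr ε R⌉₊ ≤ (S.erase j).card)
    have h2 : ((rr ε R : ℕ) : ℝ) ≤ T.card := by
      refine le_trans ?_ hT
      have h3 := mul_le_mul_of_nonneg_left h1 (show (0 : ℝ) ≤ ε / 4 by positivity)
      have h4 : ε / 4 * (4 / ε * (rr ε R : ℝ)) = rr ε R := by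
        field_simp
      linarith
    obtain ⟨J, hJT, hJc, hJP⟩ := ih T (by exact_mod_cast h2)
    have hjJ : j ∉ J := fun hh => absurd (Finset.mem_of_subset hTS (hJT hh)) (Finset.notMem_erase j S)
    refine ⟨insert j J, ?_, ?_, ?_⟩
    · intro x hx
      rcases Finset.mem_insert.1 hx with rfl | hx
      · exact hjS
      · exact Finset.mem_of_mem_erase (hTS (hJT hx))
    · rw [Finset.card_insert_of_notMem hjJ, hJc]
    · intro x hx
      rcases Finset.mem_insert.1 hx with rfl | hx
      · refine hP _ fun y hy => ?_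
        obtain ⟨hy1, hy2⟩ := Finset.mem_filter.1 hy
        rcases Finset.mem_insert.1 hy1 with rfl | hy1
        · exact absurd hy2 (lt_irrefl _)
        · exact hJT hy1
      · have e : (insert j J).filter (· < x) = J.filter (· < x) := by
          rw [Finset.filter_insert, if_neg (not_lt.2 (hlt x (hTS (hJT hx))).le)]
        rw [e]
        exact hJP x hx

end Pool.Agent.AA
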