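import Pool.Agent.AA.Uni
import Pool.Agent.AA.Par
import Pool.Agent.AA.Dvs
import Pool.Agent.AA.IntA
import Pool.Agent.AA.Sel
import Pool.Agent.AA.Fb
import Pool.Agent.AA.IndL
import Pool.Agent.AA.Dset

/-! AA (one of D, 2D, .., ND), module ABS: the combinatorial theorem. -/

set_option autoImplicit false

namespace Pool.Agent.AA

open Finset Filter Topology Pool.Agent.StrA

private theorem ABS_cst {ε : ℝ} (hε : 0 < ε) (hε1 : ε ≤ 1) (n : ℕ) : 0 < cst ε n ∧ cst ε n ≤ 1 := by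
  unfold cst
  refine ⟨by positivity, ?_⟩
  have h1 : (ε / 2) ^ n ≤ 1 := pow_le_one₀ (by positivity) (by linarith)
  have h2 : (1 : ℝ) ≤ 2 ^ n := one_le_pow₀ (by norm_num)
  rw [div_le_one (by positivity)]
  calc (ε / 2) ^ n * (ε / 4) ≤ 1 * 1 := mul_le_mul h1 (by linarith) (by positivity) zero_le_one
    _ ≤ 2 ^ n := by linarith

private theorem ABS_prime {B : ℕ → Set ℤ} {ε : ℝ} {R : ℕ} {A : Finset ℕ} {y : Lv} (hy : y.Ok B ε R A)
    {q : ℕ × ℕ} (hq : q ∈ y.E ×ˢ A) {p : ℕ} (hp : p.Prime) (hd : p ∣ y.sl q) (hA : DivSet A) : p ∣ y.D := by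
  rw [Finset.mem_product] at hq
  unfold Lv.sl at hd
  rw [mul_assoc] at hd
  rcases (hp.dvd_mul).mp hd with h | h
  · exact h
  · have h1 : p ≤ y.N := (Nat.le_of_dvd (Nat.mul_pos hy.posL (Nat.mul_pos (hy.posE _ hq.1) (hA.1 _ hq.2))) h).trans
      (hy.leN _ hq.1 _ hq.2)
    exact dvd_trans (Nat.dvd_factorial hp.pos (h1.trans (le_max_left _ _))) hy.fac

/-- ABS.  The combinatorial theorem. -/
theorem abs_main {B : ℕ → Set ℤ} {ε : ℝ} (hε : 0 < ε) (hε1 : ε ≤ 1) (hB : Hyp B ε) (hsub : ∀ g, B g ⊆ cop g) (R : ℕ)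
    (hR : 2 ≤ R) :
    ∃ (lam : Fin R → ℕ) (F : Fin R → ℤ), (∀ a, 0 < lam a) ∧ (∀ a b, a < b → lam a ∣ lam b) ∧
      (∀ a b, a < b → 2 ∣ lam b / lam a) ∧
      (∀ p : ℕ, p.Prime → p ≤ R → ∀ a, p ∣ lam a) ∧ (∀ a, F a ∈ cop (lam a)) ∧
      ∀ a b, a < b → F b - ((lam b / lam a : ℕ) : ℤ) * F a ∈ B (lam b / lam a) := by
  classical
  obtain ⟨r, hr⟩ : ∃ r, r = rr ε R := ⟨_, rfl⟩
  have hr1 : 1 ≤ r := by
    rw [hr]
    obtain ⟨k, rfl⟩ : ∃ k, R = k + 1 := ⟨R - 1, by omega⟩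
    simp only [rr]
    omega
  have hc := ABS_cst hε hε1 r
  have hK : (0 : ℝ) < (r : ℝ) ^ 2 * 2 ^ r := by
    have : (0 : ℝ) < r := by exact_mod_cast hr1
    positivity
  obtain ⟨w, η, δ, hw, hη, hη1, hδ, hpar⟩ := exists_params ((r : ℝ) ^ 2 * 2 ^ r) (cst ε r ^ R) (pow_pos hc.1 R) hK
  obtain ⟨A, hAc, hA⟩ := exists_divset ⌈(1 / η) ^ 4⌉₊
  have hcard : (1 / η) ^ 4 ≤ (A.card : ℝ) := (Nat.le_ceil _).trans (by exact_mod_cast hAc)
  obtain ⟨y, hy, hlt⟩ := exists_levels hB R A hA (η ^ 4) (by positivity)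
  obtain ⟨yr, hyr⟩ : ∃ yr : Fin r → Lv, yr = fun i : Fin r => y i.1 := ⟨_, rfl⟩
  have hyo : ∀ i, (yr i).Ok B ε R A := fun i => by rw [hyr]; exact hy _
  have hyl : ∀ i j, i < j → (yr i).Lt (η ^ 4) A (yr j) := fun i j hij => by rw [hyr]; exact hlt _ _ hij
  choose Ms hrel using fun i : Fin r => exists_rel (yr i).M (hyo i).inv (yr i).D (hyo i).posD
  have hQex : ∀ j : Fin r, Nonempty (RB (Ms j).mean (yr j).D) := by
    intro j
    obtain ⟨H, i1, i2, i3, ⟨Rp⟩⟩ := exists_rep (Ms j).mean (yr j).D (hrel j).1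
    exact ⟨@RB.mk _ _ H i1 i2 i3 Rp⟩
  obtain ⟨Q⟩ : Nonempty (∀ j : Fin r, RB (Ms j).mean (yr j).D) := ⟨fun j => (hQex j).some⟩
  choose fb hfb hfbm hnear using fun j : Fin r => exists_fb (Ms j) (yr j).D (hyo j).posD (hrel j).1 (Q j) B δ hδ
  obtain ⟨p, hp, hsum⟩ := exists_slopes B ε R A hA η hη hη1 hcard w hw δ hδ.le yr Ms fb hfb hyo hyl hrel Q hnear
  obtain ⟨lam, hlam⟩ : ∃ lam : Fin r → ℕ, lam = fun k => (yr k).sl (p k) := ⟨_, rfl⟩
  rw [← hlam] at hsum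
  have hlamp : ∀ k, 0 < lam k := by
    intro k
    rw [hlam]
    have h := Finset.mem_product.mp (hp k)
    exact Nat.mul_pos (Nat.mul_pos (hyo k).posD (hyo k).posL) (Nat.mul_pos ((hyo k).posE _ h.1) (hA.1 _ h.2))
  have hdv : ∀ i j, i < j → lam i ∣ lam j ∧ ∃ t : ℕ, 0 < t ∧ t ≤ (yr j).N ∧ lam j / lam i = (yr j).D * t ∧
      ((yr j).D * t).primeFactors = (yr j).D.primeFactors := by
    intro i j hij
    obtain ⟨h1, t, h2, h3, h4, h5, _⟩ := sl_div hA (hyo i) (hyo j) (hyl i j hij) (hp i) (hp j)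
    rw [hlam]
    exact ⟨h1, t, h2, h3, h4, h5⟩
  -- selection
  obtain ⟨J, -, hJc, hJ⟩ := select (fun (j : Fin r) (U : Finset (Fin r)) => cst ε r ≤ cc lam Ms fb j U) ε hε
    (fun j S hS => by
      obtain ⟨T, hTS, hTc, hT⟩ := inter (Ms j) (fun i => fb j (lam j / lam i)) (fun i x => hfb j _ x) ε hε hε1 S r
        (by
          have h3 := Finset.card_le_univ S
          rw [Fintype.card_fin] at h3
          exact h3)
        (fun i hi => by
          obtain ⟨-, t, ht0, htN, hte, htp⟩ := hdv i j (hS i hi)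
          have h1 := rel_big (hrel j) (hyo j).posD (Nat.mul_pos (hyo j).posD ht0) htp (hsub _) ε
            ((hyo j).big t ht0 htN)
          show ε ≤ (Ms j).m (fb j (lam j / lam i))
          rw [hte, hfbm j t ht0]
          exact h1)
      exact ⟨T, hTS, hTc, fun U hU => hT U hU⟩) R (univ : Finset (Fin r)) (by
        rw [Finset.card_univ, Fintype.card_fin, hr])
  -- positivity
  have hII := II_ge B lam Ms fb hfb (cst ε r) hc.1.le hc.2 J hJ
  have herr0 : ∀ j S i, 0 ≤ err B lam Ms fb j S i := fun j S i => abs_nonneg _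
  have hle : ∑ j ∈ J, ∑ i ∈ J.filter (· < j), err B lam Ms fb j (J.filter (· < j)) i ≤
      ∑ j, ∑ S ∈ (univ.filter fun a : Fin r => a < j).powerset, ∑ i ∈ S, err B lam Ms fb j S i := by
    refine (Finset.sum_le_sum (g := fun j => ∑ S ∈ (univ.filter fun a : Fin r => a < j).powerset, ∑ i ∈ S,
      err B lam Ms fb j S i) fun j _ => ?_).trans
      (Finset.sum_le_univ_sum_of_nonneg fun j => Finset.sum_nonneg fun S _ => Finset.sum_nonneg fun i _ => herr0 j S i)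
    exact Finset.single_le_sum (f := fun S => ∑ i ∈ S, err B lam Ms fb j S i)
      (fun S _ => Finset.sum_nonneg fun i _ => herr0 j S i)
      (Finset.mem_powerset.mpr fun a ha => Finset.mem_filter.mpr ⟨Finset.mem_univ _, (Finset.mem_filter.mp ha).2⟩)
  have hpos : 0 < II B lam Ms J := by
    rw [hJc] at hII
    have h1 := hle.trans hsum
    linarith
  unfold II at hpos
  obtain ⟨F, hF, hFc⟩ := Nst_point Ms (fun j => cop (yr j).D) (J.sort (· ≥ ·)) (Finset.sort_nodup _ _)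
    (fun j _ f hf hf0 => rel_supp (hrel j) hf hf0) (W := WW B lam J) (K := 1) (fun F => by
      have h := WW_mem B lam J F
      rw [abs_of_nonneg h.1]
      exact h.2) (fun _ => 0) hpos
  have hmem : ∀ b ∈ J, ∀ a ∈ J, a < b → F b - ((lam b / lam a : ℕ) : ℤ) * F a ∈ B (lam b / lam a) := by
    intro b hb a ha hab
    by_contra hcon
    have h1 : WW B lam J F = 0 := by
      unfold WW
      refine Finset.prod_eq_zero hb (Finset.prod_eq_zero (Finset.mem_filter.mpr ⟨ha, hab⟩) ?_)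
      unfold ind
      exact Set.indicator_of_notMem hcon _
    rw [h1] at hF
    exact lt_irrefl _ hF
  obtain ⟨e, he⟩ : ∃ e : Fin R ↪o Fin r, e = J.orderEmbOfFin hJc := ⟨_, rfl⟩
  have heJ : ∀ a, e a ∈ J := fun a => by rw [he]; exact J.orderEmbOfFin_mem hJc a
  refine ⟨fun a => lam (e a), fun a => F (e a), fun a => hlamp _, fun a b hab => (hdv _ _ (e.lt_iff_lt.mpr hab)).1,
    fun a b hab => ?_, fun q hq hqR a => ?_, fun a => ?_, fun a b hab => hmem _ (heJ b) _ (heJ a) (e.lt_iff_lt.mpr hab)⟩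
  · obtain ⟨-, t, -, -, ht, -⟩ := hdv _ _ (e.lt_iff_lt.mpr hab)
    simp only [ht]
    refine Dvd.dvd.mul_right (dvd_trans ?_ (hyo (e b)).fac) _
    exact Nat.dvd_factorial (by norm_num) (hR.trans (le_max_right _ _))
  · have hle : lam (e a) = (yr (e a)).D * ((yr (e a)).L * ((p (e a)).1 * (p (e a)).2)) := by
      rw [hlam]
      exact mul_assoc _ _ _
    show q ∣ lam (e a)
    rw [hle]
    exact dvd_trans (dvd_trans (Nat.dvd_factorial hq.pos (hqR.trans (le_max_right _ _))) (hyo (e a)).fac)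
      (dvd_mul_right _ _)
  · have h1 : F (e a) ∈ cop (yr (e a)).D := hFc (e a) ((Finset.mem_sort _).mpr (heJ a))
    show Int.gcd (F (e a)) (lam (e a)) = 1
    have h2 : Int.gcd (F (e a)) (yr (e a)).D = 1 := h1
    by_contra h3
    obtain ⟨q, hq, hqd⟩ := Nat.exists_prime_and_dvd h3
    have h4 : (q : ℤ) ∣ F (e a) := (Int.natCast_dvd_natCast.mpr hqd).trans (Int.gcd_dvd_left _ _)
    have h5 : q ∣ lam (e a) := by
      have := (Int.natCast_dvd_natCast.mpr hqd).trans (Int.gcd_dvd_right (F (e a)) (lam (e a)))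
      exact_mod_cast this
    have h6 : q ∣ (yr (e a)).D := by
      rw [hlam] at h5
      exact ABS_prime (hyo (e a)) (hp (e a)) hq h5 hA
    have h7 : (q : ℤ) ∣ (Int.gcd (F (e a)) (yr (e a)).D : ℤ) := Int.dvd_coe_gcd h4 (by exact_mod_cast h6)
    rw [h2] at h7
    have h8 : q ∣ 1 := by exact_mod_cast h7
    exact hq.one_lt.ne' (Nat.dvd_one.mp h8)

end Pool.Agent.AA
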