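import Pool.Agent.AA.Defs

/-! AA (one of D, 2D, .., ND), module AVG: averages over product sets. -/

set_option autoImplicit false

namespace Pool.Agent.AA

open Finset Filter Topology Pool.Agent.StrA

/-- AVG.  Resampling one coordinate. -/
theorem avg_one {r : ℕ} (S : Fin r → Finset (ℕ × ℕ)) (h : (Fin r → ℕ × ℕ) → ℝ) (i : Fin r) :
    (∑ p ∈ Fintype.piFinset S, ∑ q ∈ S i, h (Function.update p i q)) = (S i).card * ∑ p ∈ Fintype.piFinset S, h p := by
  have hmem : ∀ x : (Fin r → ℕ × ℕ) × (ℕ × ℕ), x ∈ (Fintype.piFinset S) ×ˢ (S i) →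
      (Function.update x.1 i x.2, x.1 i) ∈ (Fintype.piFinset S) ×ˢ (S i) := by
    intro x hx
    rw [Finset.mem_product, Fintype.mem_piFinset] at hx
    rw [Finset.mem_product, Fintype.mem_piFinset]
    refine ⟨fun k => ?_, hx.1 i⟩
    by_cases hk : k = i
    · subst hk
      simpa using hx.2
    · simpa [Function.update_of_ne hk] using hx.1 k
  have hinv : ∀ x : (Fin r → ℕ × ℕ) × (ℕ × ℕ),
      (Function.update (Function.update x.1 i x.2) i (x.1 i), (Function.update x.1 i x.2) i) = x := by
    intro x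
    refine Prod.ext ?_ ?_
    · simp
    · simp
  have e1 : (∑ p ∈ Fintype.piFinset S, ∑ q ∈ S i, h (Function.update p i q)) =
      ∑ x ∈ (Fintype.piFinset S) ×ˢ (S i), h (Function.update x.1 i x.2) := by
    rw [Finset.sum_product]
  have e2 : ∑ x ∈ (Fintype.piFinset S) ×ˢ (S i), h (Function.update x.1 i x.2) =
      ∑ x ∈ (Fintype.piFinset S) ×ˢ (S i), h x.1 :=
    Finset.sum_nbij' (fun x => (Function.update x.1 i x.2, x.1 i))
      (fun x => (Function.update x.1 i x.2, x.1 i)) hmem hmem (fun x _ => hinv x)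
      (fun x _ => hinv x) (fun x _ => rfl)
  rw [e1, e2, Finset.sum_product, Finset.mul_sum]
  refine Finset.sum_congr rfl fun p _ => ?_
  change (∑ _q ∈ S i, h p) = _
  rw [Finset.sum_const, nsmul_eq_mul]

/-- AVG2.  Resampling two coordinates: if for every `p` in the product set the double sum over the coordinates `i`, `j` is at most
`K |S i| |S j|` then the whole sum is at most `K |∏ S|`. -/
theorem avg_two {r : ℕ} (S : Fin r → Finset (ℕ × ℕ)) (hS : ∀ i, (S i).Nonempty) (h : (Fin r → ℕ × ℕ) → ℝ) (i j : Fin r)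
    (hij : i ≠ j) (K : ℝ)
    (hK : ∀ p ∈ Fintype.piFinset S, ∑ t ∈ S i, ∑ q ∈ S j, h (Function.update (Function.update p i t) j q) ≤
      K * ((S i).card * (S j).card)) :
    ∑ p ∈ Fintype.piFinset S, h p ≤ K * (Fintype.piFinset S).card := by
  have hi : (0 : ℝ) < (S i).card := by exact_mod_cast Finset.card_pos.2 (hS i)
  have hj : (0 : ℝ) < (S j).card := by exact_mod_cast Finset.card_pos.2 (hS j)
  have e1 := avg_one S h j
  have e2 := avg_one S (fun p => ∑ q ∈ S j, h (Function.update p j q)) i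
  rw [e1] at e2
  have e3 : (∑ p ∈ Fintype.piFinset S, ∑ t ∈ S i, ∑ q ∈ S j,
      h (Function.update (Function.update p i t) j q)) ≤
      ∑ _p ∈ Fintype.piFinset S, K * ((S i).card * (S j).card) := Finset.sum_le_sum hK
  rw [Finset.sum_const, nsmul_eq_mul] at e3
  have e4 : ((S i).card : ℝ) * ((S j).card * ∑ p ∈ Fintype.piFinset S, h p) ≤
      ((Fintype.piFinset S).card : ℝ) * (K * ((S i).card * (S j).card)) := e2 ▸ e3
  have e5 : ((S i).card * (S j).card : ℝ) * (∑ p ∈ Fintype.piFinset S, h p) ≤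
      ((S i).card * (S j).card : ℝ) * (K * (Fintype.piFinset S).card) := by
    calc ((S i).card * (S j).card : ℝ) * (∑ p ∈ Fintype.piFinset S, h p)
        = ((S i).card : ℝ) * ((S j).card * ∑ p ∈ Fintype.piFinset S, h p) := by ring
      _ ≤ ((Fintype.piFinset S).card : ℝ) * (K * ((S i).card * (S j).card)) := e4
      _ = ((S i).card * (S j).card : ℝ) * (K * (Fintype.piFinset S).card) := by ring
  exact le_of_mul_le_mul_left e5 (by positivity)

end Pool.Agent.AA
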