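import Pool.Agent.AA.Prj

/-! AA (one of D, 2D, .., ND), module BES: Bessel, large atoms. -/

set_option autoImplicit false

namespace Pool.Agent.AA

open Finset Filter Topology Pool.Agent.StrA

variable {H : Type*} [NormedAddCommGroup H] [InnerProductSpace ℂ H]

/-- BES1 (Bessel for an orthogonal family of vectors of norm at most 1). -/
theorem bessel_le {ι : Type*} [DecidableEq ι] (s : Finset ι) (v : ι → H) (hv : ∀ i ∈ s, ‖v i‖ ≤ 1)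
    (ho : ∀ i ∈ s, ∀ j ∈ s, i ≠ j → (inner ℂ (v i) (v j) : ℂ) = 0) (b : H) :
    ∑ i ∈ s, ‖(inner ℂ b (v i) : ℂ)‖ ^ 2 ≤ ‖b‖ ^ 2 := by
  set w : H := ∑ i ∈ s, (inner ℂ (v i) b : ℂ) • v i with hw
  have h1 : (inner ℂ b w : ℂ) = ((∑ i ∈ s, ‖(inner ℂ b (v i) : ℂ)‖ ^ 2 : ℝ) : ℂ) := by
    rw [hw, inner_sum, Complex.ofReal_sum]
    refine Finset.sum_congr rfl fun i _ => ?_
    rw [inner_smul_right, ← inner_conj_symm (v i) b, mul_comm, Complex.mul_conj,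
      Complex.normSq_eq_norm_sq]
  have h2 : (inner ℂ w w : ℂ) = ((∑ i ∈ s, ‖(inner ℂ b (v i) : ℂ)‖ ^ 2 * ‖v i‖ ^ 2 : ℝ) : ℂ) := by
    conv_lhs => rw [hw]
    rw [sum_inner, Complex.ofReal_sum]
    refine Finset.sum_congr rfl fun i hi => ?_
    rw [inner_smul_left, inner_sum, Finset.sum_eq_single i]
    · rw [inner_smul_right, inner_self_eq_norm_sq_to_K, inner_conj_symm, ← mul_assoc,
        ← inner_conj_symm (v i) b, Complex.mul_conj, Complex.normSq_eq_norm_sq]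
      push_cast
      rfl
    · intro j hj hji
      rw [inner_smul_right, ho i hi j hj hji.symm, mul_zero]
    · intro h
      exact absurd hi h
  have h3 : ‖w‖ ^ 2 ≤ ∑ i ∈ s, ‖(inner ℂ b (v i) : ℂ)‖ ^ 2 := by
    have h4 : ‖w‖ ^ 2 = ∑ i ∈ s, ‖(inner ℂ b (v i) : ℂ)‖ ^ 2 * ‖v i‖ ^ 2 := by
      have h5 := inner_self_eq_norm_sq (𝕜 := ℂ) w
      rw [h2] at h5
      rw [← h5]
      exact Complex.ofReal_re _
    rw [h4]
    refine Finset.sum_le_sum fun i hi => ?_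
    have h6 : ‖v i‖ ^ 2 ≤ 1 := pow_le_one₀ (norm_nonneg _) (hv i hi)
    exact mul_le_of_le_one_right (sq_nonneg _) h6
  have h7 := norm_sub_sq (𝕜 := ℂ) b w
  rw [h1] at h7
  have h8 : (RCLike.re (((∑ i ∈ s, ‖(inner ℂ b (v i) : ℂ)‖ ^ 2 : ℝ) : ℂ)) : ℝ) =
      ∑ i ∈ s, ‖(inner ℂ b (v i) : ℂ)‖ ^ 2 := Complex.ofReal_re _
  rw [h8] at h7
  have h9 := sq_nonneg ‖b - w‖
  linarith

/-- the distance to the sum of eigenspaces -/
private theorem BES_sum [CompleteSpace H] (V : H ≃ₗᵢ[ℂ] H) (f : H) (S : Finset ℂ)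
    (hS : ∀ z ∈ S, ‖z‖ = 1) :
    ‖f - ∑ z ∈ S, PV V z f‖ ^ 2 = ‖f‖ ^ 2 - ∑ z ∈ S, ‖PV V z f‖ ^ 2 := by
  classical
  have hself : ∀ z, (inner ℂ (PV V z f) f : ℂ) = ((‖PV V z f‖ ^ 2 : ℝ) : ℂ) := by
    intro z
    rw [← PV_inner V z f _ (PV_mem V z f), inner_self_eq_norm_sq_to_K]
    push_cast
    rfl
  have h1 : (inner ℂ (∑ z ∈ S, PV V z f) f : ℂ) = ((∑ z ∈ S, ‖PV V z f‖ ^ 2 : ℝ) : ℂ) := by
    rw [sum_inner, Complex.ofReal_sum]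
    exact Finset.sum_congr rfl fun z _ => hself z
  have h2 : (inner ℂ (∑ z ∈ S, PV V z f) (∑ z ∈ S, PV V z f) : ℂ) =
      ((∑ z ∈ S, ‖PV V z f‖ ^ 2 : ℝ) : ℂ) := by
    rw [sum_inner, Complex.ofReal_sum]
    refine Finset.sum_congr rfl fun z hz => ?_
    rw [inner_sum, Finset.sum_eq_single z]
    · rw [inner_self_eq_norm_sq_to_K]
      push_cast
      rfl
    · intro z' _ hz'
      exact eig_orth V (hS z hz) hz'.symm (PV_mem V z f) (PV_mem V z' f)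
    · intro h
      exact absurd hz h
  have h3 : ‖∑ z ∈ S, PV V z f‖ ^ 2 = ∑ z ∈ S, ‖PV V z f‖ ^ 2 := by
    have h5 := inner_self_eq_norm_sq (𝕜 := ℂ) (∑ z ∈ S, PV V z f)
    rw [h2] at h5
    rw [← h5]
    exact Complex.ofReal_re _
  have h4 : (inner ℂ f (∑ z ∈ S, PV V z f) : ℂ) = ((∑ z ∈ S, ‖PV V z f‖ ^ 2 : ℝ) : ℂ) := by
    rw [← inner_conj_symm, h1, Complex.conj_ofReal]
  have h7 := norm_sub_sq (𝕜 := ℂ) f (∑ z ∈ S, PV V z f)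
  rw [h4, h3] at h7
  have h8 : (RCLike.re (((∑ z ∈ S, ‖PV V z f‖ ^ 2 : ℝ) : ℂ)) : ℝ) =
      ∑ z ∈ S, ‖PV V z f‖ ^ 2 := Complex.ofReal_re _
  rw [h8] at h7
  rw [h7]
  ring

/-- BES2.  The large atoms.
PROOF: the projections `PV V z f`, `|z| = 1`, are pairwise orthogonal (PRJ5) and `∑ ‖PV V z f‖² ≤ ‖f‖² ≤ 1` for every finite set
of `z` (`‖PV V z f‖² = ⟪PV V z f, f⟫`), so the set `Ψ` of all `z ≠ 1`, `|z| = 1`, with `‖PV V z f‖² ≥ η` is finite with at most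
`1 / η` elements.  `u' = f - PV V 1 f - ∑_{z ∈ Ψ} PV V z f`.  For an eigenvector `v` with eigenvalue `z`: `⟪v, u'⟫ = 0` if `z ∈ Ψ` or
`z = 1` (PRJ2, PRJ5), otherwise `⟪v, u'⟫ = ⟪v, f⟫ = ⟪v, PV V z f⟫`.  `‖u'‖ ≤ ‖f‖`: `u'` is `f` minus its projection on the sum of the
eigenspaces: `‖u'‖² = ‖f‖² - ‖PV V 1 f‖² - ∑ ‖PV V z f‖²`. -/
theorem exists_atoms [CompleteSpace H] (V : H ≃ₗᵢ[ℂ] H) (f : H) (hf : ‖f‖ ≤ 1) (η : ℝ) (hη : 0 < η) :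
    ∃ Ψ : Finset ℂ, (∀ z ∈ Ψ, ‖z‖ = 1 ∧ z ≠ 1) ∧ (Ψ.card : ℝ) ≤ 1 / η ∧
      ‖f - PV V 1 f - ∑ z ∈ Ψ, PV V z f‖ ≤ 1 ∧
      ∀ (z : ℂ) (v : H), V v = z • v → ‖(inner ℂ v (f - PV V 1 f - ∑ z ∈ Ψ, PV V z f) : ℂ)‖ ≤ √η * ‖v‖ := by
  classical
  have hf2 : ‖f‖ ^ 2 ≤ 1 := pow_le_one₀ (norm_nonneg _) hf
  have hcard : ∀ S : Finset ℂ, (∀ z ∈ S, ‖z‖ = 1 ∧ η ≤ ‖PV V z f‖ ^ 2) →
      (S.card : ℝ) ≤ 1 / η := by
    intro S hS
    have h1 := BES_sum V f S fun z hz => (hS z hz).1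
    have h2 : (S.card : ℝ) * η ≤ ∑ z ∈ S, ‖PV V z f‖ ^ 2 := by
      rw [← nsmul_eq_mul]
      exact Finset.card_nsmul_le_sum _ _ _ fun z hz => (hS z hz).2
    rw [le_div_iff₀ hη]
    have h3 := sq_nonneg ‖f - ∑ z ∈ S, PV V z f‖
    linarith
  have hfin : {z : ℂ | (‖z‖ = 1 ∧ z ≠ 1) ∧ η ≤ ‖PV V z f‖ ^ 2}.Finite := by
    by_contra hinf
    obtain ⟨n, hn⟩ := exists_nat_gt (1 / η)
    obtain ⟨S, hS, hSc⟩ := Set.Infinite.exists_subset_card_eq hinf n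
    have h1 := hcard S fun z hz => ⟨(hS hz).1.1, (hS hz).2⟩
    rw [hSc] at h1
    linarith
  have hmem : ∀ z, z ∈ hfin.toFinset ↔ (‖z‖ = 1 ∧ z ≠ 1) ∧ η ≤ ‖PV V z f‖ ^ 2 := fun z => by
    rw [Set.Finite.mem_toFinset]
    rfl
  have h1n : (1 : ℂ) ∉ hfin.toFinset := fun h => ((hmem 1).1 h).1.2 rfl
  have hu : f - PV V 1 f - ∑ z ∈ hfin.toFinset, PV V z f =
      f - ∑ z ∈ insert 1 hfin.toFinset, PV V z f := by
    rw [Finset.sum_insert h1n, sub_sub]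
  have hone : ∀ z ∈ insert (1 : ℂ) hfin.toFinset, ‖z‖ = 1 := by
    intro z hz
    rcases Finset.mem_insert.1 hz with h | h
    · rw [h, norm_one]
    · exact ((hmem z).1 h).1.1
  refine ⟨hfin.toFinset, fun z hz => ((hmem z).1 hz).1,
    hcard _ fun z hz => ⟨((hmem z).1 hz).1.1, ((hmem z).1 hz).2⟩, ?_, ?_⟩
  · rw [hu]
    have h2 := BES_sum V f _ hone
    have h3 : 0 ≤ ∑ z ∈ insert 1 hfin.toFinset, ‖PV V z f‖ ^ 2 :=
      Finset.sum_nonneg fun z _ => sq_nonneg _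
    have h4 : ‖f - ∑ z ∈ insert 1 hfin.toFinset, PV V z f‖ ^ 2 ≤ 1 ^ 2 := by
      rw [h2, one_pow]
      linarith
    exact le_of_sq_le_sq h4 zero_le_one
  · intro z v hv
    rw [hu]
    rcases eq_or_ne v 0 with hv0 | hv0
    · rw [hv0, inner_zero_left, norm_zero, norm_zero, mul_zero]
    have hz := eig_norm V hv hv0
    have h2 : ∀ z', (inner ℂ v (PV V z' f) : ℂ) = if z' = z then inner ℂ v f else 0 := by
      intro z'
      split_ifs with h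
      · rw [h]
        exact PV_inner V z f v hv
      · exact eig_orth V hz (Ne.symm h) hv (PV_mem V z' f)
    rw [inner_sub_right, inner_sum, Finset.sum_congr rfl fun z' _ => h2 z',
      Finset.sum_ite_eq' (insert 1 hfin.toFinset) z]
    split_ifs with h
    · rw [sub_self, norm_zero]
      positivity
    · rw [sub_zero, ← PV_inner V z f v hv]
      have h3 : ‖PV V z f‖ ≤ √η := by
        apply Real.le_sqrt_of_sq_le
        by_contra hlt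
        push Not at hlt
        apply h
        rw [Finset.mem_insert, hmem]
        by_cases hz1 : z = 1
        · exact Or.inl hz1
        · exact Or.inr ⟨⟨hz, hz1⟩, hlt.le⟩
      calc ‖(inner ℂ v (PV V z f) : ℂ)‖ ≤ ‖v‖ * ‖PV V z f‖ := norm_inner_le_norm _ _
        _ ≤ ‖v‖ * √η := mul_le_mul_of_nonneg_left h3 (norm_nonneg _)
        _ = √η * ‖v‖ := mul_comm _ _

end Pool.Agent.AA
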