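import Pool.Agent.AA.Defs

/-! AA (one of D, 2D, .., ND), module FOLS: sums over almost invariant sets. -/

set_option autoImplicit false

namespace Pool.Agent.AA

open Finset Filter Topology Pool.Agent.StrA

private theorem fols_eq {E : Finset ℕ} {s : ℕ} (hs : 0 < s) (h : ℕ → ℝ) :
    ∑ e ∈ E.filter (fun e => s * e ∈ E), h (s * e) = ∑ e ∈ E.filter (fun e => ∃ e' ∈ E, s * e' = e), h e := by
  apply Finset.sum_bij (fun e _ => s * e)
  · intro e he
    rw [Finset.mem_filter] at he ⊢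
    exact ⟨he.2, e, he.1, rfl⟩
  · intro a _ b _ hab
    exact Nat.eq_of_mul_eq_mul_left hs hab
  · intro e he
    rw [Finset.mem_filter] at he
    obtain ⟨he1, e', he', h1⟩ := he
    exact ⟨e', Finset.mem_filter.2 ⟨he', by rw [h1]; exact he1⟩, h1⟩
  · intro e _
    rfl

private theorem fols_card {E : Finset ℕ} {s : ℕ} (hs : 0 < s) :
    (E.filter (fun e => ¬ ∃ e' ∈ E, s * e' = e)).card = (E.filter (fun e => s * e ∉ E)).card := by
  have h1 : (E.filter (fun e => s * e ∈ E)).card = (E.filter (fun e => ∃ e' ∈ E, s * e' = e)).card := by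
    have := fols_eq (E := E) hs (fun _ => (1 : ℝ))
    simp only [Finset.sum_const, nsmul_eq_mul, mul_one] at this
    exact_mod_cast this
  have h2 := Finset.card_filter_add_card_filter_not (s := E) (fun e => s * e ∈ E)
  have h3 := Finset.card_filter_add_card_filter_not (s := E) (fun e => ∃ e' ∈ E, s * e' = e)
  omega

/-- FOL3.  PROOF: `e ↦ s e` is injective; the sums over `{e ∈ E : s e ∈ E}` of `h (s e)` and over `E ∩ s E` of `h` are equal; the rest
of the left sum has at most `κ |E|` terms, `|E \ s E| = |{e ∈ E : s e ∉ E}|`. -/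
theorem FolBy.sum_le {κ : ℝ} {E : Finset ℕ} {s : ℕ} (hs : 0 < s) (hE : FolBy κ E s) {h : ℕ → ℝ} {C : ℝ}
    (h0 : ∀ n, 0 ≤ h n) (hC : ∀ n, h n ≤ C) : ∑ e ∈ E, h e ≤ ∑ e ∈ E, h (s * e) + κ * C * E.card := by
  unfold FolBy at hE
  have hC0 : 0 ≤ C := (h0 0).trans (hC 0)
  rw [← Finset.sum_filter_add_sum_filter_not E (fun e => ∃ e' ∈ E, s * e' = e) h]
  rw [← Finset.sum_filter_add_sum_filter_not E (fun e => s * e ∈ E) (fun e => h (s * e))]
  rw [fols_eq hs h]
  have h1 : 0 ≤ ∑ e ∈ E.filter (fun e => ¬ s * e ∈ E), h (s * e) := Finset.sum_nonneg fun e _ => h0 _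
  have h2 : ∑ e ∈ E.filter (fun e => ¬ ∃ e' ∈ E, s * e' = e), h e ≤ κ * C * E.card := by
    calc ∑ e ∈ E.filter (fun e => ¬ ∃ e' ∈ E, s * e' = e), h e
        ≤ ∑ e ∈ E.filter (fun e => ¬ ∃ e' ∈ E, s * e' = e), C := Finset.sum_le_sum fun e _ => hC _
      _ = ((E.filter (fun e => s * e ∉ E)).card : ℝ) * C := by
        rw [Finset.sum_const, nsmul_eq_mul, fols_card hs]
      _ ≤ (κ * E.card) * C := mul_le_mul_of_nonneg_right hE hC0
      _ = κ * C * E.card := by ring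
  linarith

/-- FOL4.  The other direction. -/
theorem FolBy.sum_ge {κ : ℝ} {E : Finset ℕ} {s : ℕ} (hs : 0 < s) (hE : FolBy κ E s) {h : ℕ → ℝ} {C : ℝ}
    (h0 : ∀ n, 0 ≤ h n) (hC : ∀ n, h n ≤ C) : ∑ e ∈ E, h (s * e) ≤ ∑ e ∈ E, h e + κ * C * E.card := by
  unfold FolBy at hE
  have hC0 : 0 ≤ C := (h0 0).trans (hC 0)
  rw [← Finset.sum_filter_add_sum_filter_not E (fun e => ∃ e' ∈ E, s * e' = e) h]
  rw [← Finset.sum_filter_add_sum_filter_not E (fun e => s * e ∈ E) (fun e => h (s * e))]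
  rw [fols_eq hs h]
  have h1 : 0 ≤ ∑ e ∈ E.filter (fun e => ¬ ∃ e' ∈ E, s * e' = e), h e := Finset.sum_nonneg fun e _ => h0 _
  have h2 : ∑ e ∈ E.filter (fun e => ¬ s * e ∈ E), h (s * e) ≤ κ * C * E.card := by
    calc ∑ e ∈ E.filter (fun e => ¬ s * e ∈ E), h (s * e)
        ≤ ∑ e ∈ E.filter (fun e => ¬ s * e ∈ E), C := Finset.sum_le_sum fun e _ => hC _
      _ = ((E.filter (fun e => s * e ∉ E)).card : ℝ) * C := by
        rw [Finset.sum_const, nsmul_eq_mul]
      _ ≤ (κ * E.card) * C := mul_le_mul_of_nonneg_right hE hC0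
      _ = κ * C * E.card := by ring
  linarith

end Pool.Agent.AA
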