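import Pool.Agent.AA.Defs

/-! AA (one of D, 2D, .., ND), module OR5: orthogonality for different steps. -/

set_option autoImplicit false

namespace Pool.Agent.AA

open Finset Filter Topology Pool.Agent.StrA

variable {H : Type*} [NormedAddCommGroup H] [InnerProductSpace ℂ H]

/-- OR5.  Eigenvectors of `T^(k d)` and `T^((k-1) d)` for the same eigenvalue `z ≠ 1` are orthogonal.
PROOF: `R = T^d`, `c n = ⟪R^n v, v'⟫`.  `c (n + k) = conj z * c n` (as `R^k v = z v`), and `c n = ⟪R^(n+k-1) v, R^(k-1) v'⟫ =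
z c (n + k - 1)`, so `c (n + k - 1) = conj z * c n` (`|z| = 1`).  So `conj z * c n = c (n + k) = conj z * c (n + 1)`, `c` is constant,
`c 0 = conj z * c 0`, `c 0 = 0`. -/
theorem orth5 (T : H ≃ₗᵢ[ℂ] H) (k d : ℤ) {z : ℂ} (hz : ‖z‖ = 1) (h1 : z ≠ 1) {v v' : H}
    (hv : (T ^ (k * d)) v = z • v) (hv' : (T ^ ((k - 1) * d)) v' = z • v') : (inner ℂ v v' : ℂ) = 0 := by
  have hmul : ∀ (a b : ℤ) (w : H), (T ^ a) ((T ^ b) w) = (T ^ (a + b)) w := by
    intro a b w
    rw [zpow_add]
    rfl
  have hz0 : z ≠ 0 := by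
    intro h; rw [h, norm_zero] at hz; exact zero_ne_one hz
  have hzz : (starRingEnd ℂ) z * z = 1 := by
    rw [Complex.conj_mul', hz]; norm_num
  set c : ℤ → ℂ := fun n => inner ℂ ((T ^ (n * d)) v) v' with hc
  have e1 : ∀ n, c (n + k) = (starRingEnd ℂ) z * c n := by
    intro n
    simp only [hc]
    rw [show (n + k) * d = n * d + k * d by ring, ← hmul, hv, map_smul, inner_smul_left]
  have e2 : ∀ n, c n = z * c (n + k - 1) := by
    intro n
    simp only [hc]
    have h2 : inner ℂ ((T ^ (n * d)) v) v' =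
        inner ℂ ((T ^ ((k - 1) * d)) ((T ^ (n * d)) v)) ((T ^ ((k - 1) * d)) v') :=
      (LinearIsometryEquiv.inner_map_map _ _ _).symm
    rw [h2, hmul, hv', inner_smul_right]
    rw [show (k - 1) * d + n * d = (n + k - 1) * d by ring]
  have e3 : ∀ n, c (n + k - 1) = (starRingEnd ℂ) z * c n := by
    intro n
    rw [e2 n, ← mul_assoc, hzz, one_mul]
  have e4 : ∀ n, c n = c (n + 1) := by
    intro n
    have h2 := e3 (n + 1)
    rw [show n + 1 + k - 1 = n + k by ring, e1 n] at h2
    have h3 : (starRingEnd ℂ) z ≠ 0 := by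
      intro h; rw [h, zero_mul] at hzz; exact zero_ne_one hzz
    exact mul_left_cancel₀ h3 h2
  have e5 : ∀ m : ℕ, ∀ n : ℤ, c (n + m) = c n := by
    intro m
    induction m with
    | zero => intro n; simp
    | succ m ih =>
      intro n
      rw [show n + ((m + 1 : ℕ) : ℤ) = (n + m) + 1 by push_cast; ring, ← e4, ih]
  have e6 : c k = c 0 := by
    rcases le_total 0 k with h | h
    · obtain ⟨m, rfl⟩ := Int.eq_ofNat_of_zero_le h
      have := e5 m 0
      rw [zero_add] at this
      exact this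
    · obtain ⟨m, hm⟩ := Int.eq_ofNat_of_zero_le (neg_nonneg.2 h)
      have := e5 m k
      rw [← hm, add_neg_cancel] at this
      exact this.symm
  have e7 : c k = (starRingEnd ℂ) z * c 0 := by
    have := e1 0
    rwa [zero_add] at this
  have e8 : (1 - (starRingEnd ℂ) z) * c 0 = 0 := by
    rw [sub_mul, one_mul, ← e7, e6, sub_self]
  rcases mul_eq_zero.1 e8 with h | h
  · exfalso
    apply h1
    have h2 : (starRingEnd ℂ) z = 1 := (sub_eq_zero.1 h).symm
    have h3 := congrArg (starRingEnd ℂ) h2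
    rwa [Complex.conj_conj, map_one] at h3
  · simp only [hc, zero_mul, zpow_zero] at h
    exact h

end Pool.Agent.AA
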