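import Pool.Agent.AA.Bes
import Pool.Agent.AA.Or5
import Pool.Agent.AA.FolS

/-! AA (one of D, 2D, .., ND), module CRB: one atom. -/

set_option autoImplicit false

namespace Pool.Agent.AA

open Finset Filter Topology Pool.Agent.StrA

variable {H : Type*} [NormedAddCommGroup H] [InnerProductSpace ℂ H]

/-- CRB1.  One atom `z ≠ 1`, fixed `e`, `a'`: orthogonality for different `a`.
PROOF: the vectors `v a = PV (T^((c0 / a) * m)) z (f ((c0 / a) * m))`, `a ∈ A`, have norm at most 1 and are pairwise orthogonal by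
`orth5`: `G = (c0/a) m`, `G' = (c0/a') m`, `d = G - G'`, `G = k d` with `k = a'/(a' - a)` an integer (`(a - a') ∣ a'` in `DivSet`),
`G' = (k-1) d`.  Bessel (`bessel_le`). -/
theorem atom_orth [CompleteSpace H] (T : H ≃ₗᵢ[ℂ] H) (f : ℕ → H) (hf : ∀ q, ‖f q‖ ≤ 1) (b : H) (hb : ‖b‖ ≤ 1)
    (A : Finset ℕ) (hA : DivSet A) (c0 m : ℕ) (hc : ∀ a ∈ A, a ∣ c0) (hc0 : 0 < c0) (hm : 0 < m) {z : ℂ} (hz : ‖z‖ = 1)
    (hz1 : z ≠ 1) :
    ∑ a ∈ A, ‖(inner ℂ b (PV (T ^ ((c0 / a) * m)) z (f ((c0 / a) * m))) : ℂ)‖ ^ 2 ≤ 1 := by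
  have h1 := bessel_le A (fun a => PV (T ^ ((c0 / a) * m)) z (f ((c0 / a) * m)))
    (fun a _ => (PV_norm_le _ _ _).trans (hf _)) ?_ b
  · refine h1.trans ?_
    have := norm_nonneg b
    nlinarith
  · intro a ha a' ha' hne
    obtain ⟨hpos, hdvd⟩ := hA
    obtain ⟨x, hx⟩ := hc a ha
    obtain ⟨x', hx'⟩ := hc a' ha'
    have hxa : c0 / a = x := by rw [hx]; exact Nat.mul_div_cancel_left x (hpos a ha)
    have hxa' : c0 / a' = x' := by rw [hx']; exact Nat.mul_div_cancel_left x' (hpos a' ha')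
    obtain ⟨k, hk⟩ := hdvd a' ha' a ha (fun h => hne h.symm)
    have hane : ((a : ℤ)) ≠ 0 := by exact_mod_cast (hpos a ha).ne'
    have hdne : ((a' : ℤ) - a) ≠ 0 := by
      intro h
      apply hne
      have : (a' : ℤ) = a := by linarith
      exact_mod_cast this.symm
    have hxz : ((a : ℤ)) * x = c0 := by exact_mod_cast hx.symm
    have hxz' : ((a' : ℤ)) * x' = c0 := by exact_mod_cast hx'.symm
    have hkx : (x : ℤ) = k * ((x : ℤ) - x') := by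
      have h2 : ((a : ℤ) * ((a' : ℤ) - a)) * (x : ℤ) = ((a : ℤ) * ((a' : ℤ) - a)) * (k * ((x : ℤ) - x')) := by
        have e1 : ((a : ℤ) * ((a' : ℤ) - a)) * (k * ((x : ℤ) - x')) = a * (((a' : ℤ) - a) * k) * ((x : ℤ) - x') := by ring
        rw [e1, ← hk]
        linear_combination ((a' : ℤ) - a) * hxz - (a' : ℤ) * hxz + (a : ℤ) * hxz'
      exact mul_left_cancel₀ (mul_ne_zero hane hdne) h2
    have hG : ((((c0 / a) * m : ℕ)) : ℤ) = k * (((x : ℤ) - x') * m) := by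
      rw [hxa]
      push_cast
      rw [← mul_assoc, ← hkx]
    have hG' : ((((c0 / a') * m : ℕ)) : ℤ) = (k - 1) * (((x : ℤ) - x') * m) := by
      rw [hxa']
      push_cast
      linear_combination (m : ℤ) * hkx
    apply orth5 T k (((x : ℤ) - x') * m) hz hz1
    · rw [← hG, zpow_natCast]
      exact PV_mem _ _ _
    · rw [← hG', zpow_natCast]
      exact PV_mem _ _ _

/-- CRB2.  One atom `z ≠ 1`, mean over everything.
PROOF: fix `e ∈ Ei`, `a' ∈ A`.  For `a ∈ A` put `Φ_a m = ‖⟪b (e * (a' * m)), PV (T^((c0 / a) * (a' * m))) z (f ..)⟫‖²`, in `[0, 1]`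
(`Φ_a 0 := 0` say).  For `e'' ∈ Ej`: the term of `(e, a, e'', a')` is `Φ_a (a * e'')` because `(c0 / a) * (a' * (a * e'')) = c0 * (e'' * a')`.
By `FolBy.sum_ge` the sum over `e''` is at most `∑_{m ∈ Ej} Φ_a m + κ |Ej|`; sum over `a`: CRB1 gives `∑_a Φ_a m ≤ 1`. -/
theorem atom_sum [CompleteSpace H] (T : H ≃ₗᵢ[ℂ] H) (f b : ℕ → H) (hf : ∀ q, ‖f q‖ ≤ 1) (hb : ∀ q, ‖b q‖ ≤ 1)
    (Ei Ej A : Finset ℕ) (hA : DivSet A) (hEj : ∀ e ∈ Ej, 0 < e) (c0 : ℕ) (hc : ∀ a ∈ A, a ∣ c0) (hc0 : 0 < c0) (κ : ℝ)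
    (hfol : ∀ a ∈ A, FolBy κ Ej a) {z : ℂ} (hz : ‖z‖ = 1) (hz1 : z ≠ 1) :
    ∑ t ∈ Ei ×ˢ A, ∑ γ ∈ Ej ×ˢ A,
      ‖(inner ℂ (b ((t.1 * t.2) * (γ.1 * γ.2))) (PV (T ^ (c0 * (γ.1 * γ.2))) z (f (c0 * (γ.1 * γ.2)))) : ℂ)‖ ^ 2 ≤
      (Ei.card : ℝ) * A.card * Ej.card * (1 + κ * A.card) := by
  set Φ : ℕ → ℕ → ℕ → ℕ → ℝ := fun e a' a m =>
    ‖(inner ℂ (b (e * (a' * m))) (PV (T ^ ((c0 / a) * (a' * m))) z (f ((c0 / a) * (a' * m)))) : ℂ)‖ ^ 2 with hΦ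
  have hΦ0 : ∀ e a' a m, 0 ≤ Φ e a' a m := fun e a' a m => by rw [hΦ]; positivity
  have hΦ1 : ∀ e a' a m, Φ e a' a m ≤ 1 := by
    intro e a' a m
    have h1 : ‖(inner ℂ (b (e * (a' * m))) (PV (T ^ ((c0 / a) * (a' * m))) z (f ((c0 / a) * (a' * m)))) : ℂ)‖ ≤ 1 := by
      refine (norm_inner_le_norm _ _).trans ?_
      have h2 := (PV_norm_le (T ^ ((c0 / a) * (a' * m))) z (f ((c0 / a) * (a' * m)))).trans (hf _)
      exact mul_le_one₀ (hb _) (norm_nonneg _) h2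
    have h3 := norm_nonneg (inner ℂ (b (e * (a' * m))) (PV (T ^ ((c0 / a) * (a' * m))) z (f ((c0 / a) * (a' * m)))) : ℂ)
    rw [hΦ]
    exact pow_le_one₀ h3 h1
  have hterm : ∀ e, ∀ a' ∈ A, ∑ a ∈ A, ∑ e'' ∈ Ej, Φ e a' a (a * e'') ≤ Ej.card * (1 + κ * A.card) := by
    intro e a' ha'
    calc ∑ a ∈ A, ∑ e'' ∈ Ej, Φ e a' a (a * e'')
        ≤ ∑ a ∈ A, (∑ m ∈ Ej, Φ e a' a m + κ * 1 * Ej.card) := by
          apply Finset.sum_le_sum
          intro a ha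
          exact FolBy.sum_ge (hA.1 a ha) (hfol a ha) (h := fun m => Φ e a' a m) (hΦ0 e a' a) (hΦ1 e a' a)
      _ = ∑ m ∈ Ej, ∑ a ∈ A, Φ e a' a m + A.card * (κ * 1 * Ej.card) := by
          rw [Finset.sum_add_distrib, Finset.sum_comm, Finset.sum_const, nsmul_eq_mul]
      _ ≤ ∑ m ∈ Ej, (1 : ℝ) + A.card * (κ * 1 * Ej.card) := by
          gcongr with m hm
          exact atom_orth T f hf (b (e * (a' * m))) (hb _) A hA c0 (a' * m) hc hc0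
            (Nat.mul_pos (hA.1 a' ha') (hEj m hm)) hz hz1
      _ = Ej.card * (1 + κ * A.card) := by
          rw [Finset.sum_const, nsmul_eq_mul]
          ring
  have hre : ∑ t ∈ Ei ×ˢ A, ∑ γ ∈ Ej ×ˢ A,
      ‖(inner ℂ (b ((t.1 * t.2) * (γ.1 * γ.2))) (PV (T ^ (c0 * (γ.1 * γ.2))) z (f (c0 * (γ.1 * γ.2)))) : ℂ)‖ ^ 2 =
      ∑ e ∈ Ei, ∑ a' ∈ A, ∑ a ∈ A, ∑ e'' ∈ Ej, Φ e a' a (a * e'') := by
    rw [Finset.sum_product]
    apply Finset.sum_congr rfl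
    intro e _
    have h1 : ∀ a ∈ A, ∑ γ ∈ Ej ×ˢ A,
        ‖(inner ℂ (b ((e * a) * (γ.1 * γ.2))) (PV (T ^ (c0 * (γ.1 * γ.2))) z (f (c0 * (γ.1 * γ.2)))) : ℂ)‖ ^ 2 =
        ∑ a' ∈ A, ∑ e'' ∈ Ej, Φ e a' a (a * e'') := by
      intro a ha
      rw [Finset.sum_product_right]
      apply Finset.sum_congr rfl
      intro a' _
      apply Finset.sum_congr rfl
      intro e'' _
      obtain ⟨x, hx⟩ := hc a ha
      have hxa : c0 / a = x := by rw [hx]; exact Nat.mul_div_cancel_left x (hA.1 a ha)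
      have e1 : (c0 / a) * (a' * (a * e'')) = c0 * (e'' * a') := by
        rw [hxa, hx]; ring
      have e2 : e * (a' * (a * e'')) = (e * a) * (e'' * a') := by ring
      rw [hΦ]
      simp only [e1, e2]
    rw [Finset.sum_congr rfl h1, Finset.sum_comm]
  rw [hre]
  calc ∑ e ∈ Ei, ∑ a' ∈ A, ∑ a ∈ A, ∑ e'' ∈ Ej, Φ e a' a (a * e'')
      ≤ ∑ e ∈ Ei, ∑ a' ∈ A, (Ej.card : ℝ) * (1 + κ * A.card) :=
        Finset.sum_le_sum fun e _ => Finset.sum_le_sum fun a' ha' => hterm e a' ha'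
    _ = (Ei.card : ℝ) * A.card * Ej.card * (1 + κ * A.card) := by
        rw [Finset.sum_const, Finset.sum_const, nsmul_eq_mul, nsmul_eq_mul]
        ring

end Pool.Agent.AA
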