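import Pool.Agent.StrA.Weak
import Pool.Agent.StrA.Gns
import Pool.Agent.StrA.MeanEx

/-! ONE OF D, 2D, .., ND (helper76, helper37): definitions. -/

set_option autoImplicit false

namespace Pool.Agent.AA

open Finset Filter Topology Pool.Agent.StrA

/-- a mean which is linear on ALL functions (positive only on the bounded ones) -/
structure LM where
  /-- the functional -/
  m : (ℤ → ℝ) →ₗ[ℝ] ℝ
  nonneg' : ∀ f, Bdd f → (∀ x, 0 ≤ f x) → 0 ≤ m f
  one' : m (fun _ => 1) = 1

/-- the underlying mean of `StrA` -/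
def LM.mean (M : LM) : Mean where
  m := fun f => M.m f
  add' f g _ _ := map_add M.m f g
  smul' c f _ := map_smul M.m c f
  nonneg' := M.nonneg'
  one' := M.one'

/-- `M` is invariant under the shift by `q` -/
def LM.Inv (M : LM) (q : ℤ) : Prop := ∀ f, Bdd f → M.m (fun x => f (x - q)) = M.m f

theorem LM.mean_inv {M : LM} {q : ℤ} (h : M.Inv q) : M.mean.Inv q := h

/-- the integers coprime to `D` -/
def cop (D : ℕ) : Set ℤ := {x | Int.gcd x D = 1}

/-- `M'` is the relative mean of `M` over the integers coprime to `D` -/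
def IsRel (M M' : LM) (D : ℕ) : Prop :=
  M'.Inv D ∧ ∀ f, M'.m f = ((D : ℝ) / D.totient) * M.m (fun x => ind (cop D) x * f x)

/-- nested means; the head of the list is the innermost variable -/
noncomputable def Nst {ι : Type} [DecidableEq ι] (Ms : ι → LM) : List ι → ((ι → ℤ) → ℝ) → (ι → ℤ) → ℝ
  | [], W, F => W F
  | j :: L, W, F => Nst Ms L (fun F' => (Ms j).m fun x => W (Function.update F' j x)) F

/-- `E` is almost invariant under the multiplication by `s` -/
def FolBy (κ : ℝ) (E : Finset ℕ) (s : ℕ) : Prop := ((E.filter fun e => s * e ∉ E).card : ℝ) ≤ κ * E.card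

/-- a finite set of positive integers in which `a - a'` divides `a` for different elements -/
def DivSet (A : Finset ℕ) : Prop :=
  (∀ a ∈ A, 0 < a) ∧ ∀ a ∈ A, ∀ a' ∈ A, a ≠ a' → ((a : ℤ) - a') ∣ a

/-- data of a level -/
structure Lv where
  /-- multiplicatively almost invariant set -/
  E : Finset ℕ
  /-- common multiple of the earlier slopes -/
  L : ℕ
  /-- bound for `L e a` -/
  N : ℕ
  /-- base -/
  D : ℕ
  /-- mean -/
  M : LM

/-- slope of the pair `p = (e, a)` -/
def Lv.sl (y : Lv) (p : ℕ × ℕ) : ℕ := y.D * y.L * (p.1 * p.2)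

/-- properties of one level -/
structure Lv.Ok (B : ℕ → Set ℤ) (ε : ℝ) (R : ℕ) (A : Finset ℕ) (y : Lv) : Prop where
  ne : y.E.Nonempty
  posE : ∀ e ∈ y.E, 0 < e
  posL : 0 < y.L
  leN : ∀ e ∈ y.E, ∀ a ∈ A, y.L * (e * a) ≤ y.N
  posD : 0 < y.D
  fac : (max y.N R).factorial ∣ y.D
  inv : y.M.Inv 1
  big : ∀ t : ℕ, 0 < t → t ≤ y.N → ε * ((y.D * t).totient / (y.D * t : ℕ) : ℝ) ≤ y.M.m (ind (B (y.D * t)))

/-- properties of two levels, `x` before `y` -/
structure Lv.Lt (κ : ℝ) (A : Finset ℕ) (x y : Lv) : Prop where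
  dvd : ∀ e ∈ x.E, ∀ a ∈ A, x.D * x.L * (e * a) ∣ y.L
  fol : ∀ e ∈ x.E, ∀ a ∈ A, FolBy κ y.E (e * a)
  folA : ∀ a ∈ A, FolBy κ y.E a

section Comb

variable {ι : Type} [LinearOrder ι] (B : ℕ → Set ℤ) (lam : ι → ℕ) (Ms : ι → LM) (fb : ι → ℕ → ℤ → ℝ)

/-- product over all pairs of `S` -/
noncomputable def WW (S : Finset ι) (F : ι → ℤ) : ℝ :=
  ∏ b ∈ S, ∏ a ∈ S.filter (· < b), ind (B (lam b / lam a)) (F b - ((lam b / lam a : ℕ) : ℤ) * F a)

/-- the other factors of the vertex `j`: indicator functions for the lower vertices, `fb` for the upper ones -/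
noncomputable def bb (j : ι) (S : Finset ι) (i : ι) (F : ι → ℤ) (x : ℤ) : ℝ :=
  (∏ a ∈ S.filter (· < i), ind (B (lam j / lam a)) (x - ((lam j / lam a : ℕ) : ℤ) * F a)) *
    ∏ a ∈ S.filter (i < ·), fb j (lam j / lam a) x

/-- the inner difference -/
noncomputable def dd (j : ι) (i : ι) (F : ι → ℤ) (x : ℤ) : ℝ :=
  ind (B (lam j / lam i)) (x - ((lam j / lam i : ℕ) : ℤ) * F i) - fb j (lam j / lam i) x

/-- nested mean of the clique function -/
noncomputable def II (S : Finset ι) : ℝ := Nst Ms (S.sort (· ≥ ·)) (WW B lam S) fun _ => 0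

/-- error of the replacement at the edge `i < j` -/
noncomputable def err (j : ι) (S : Finset ι) (i : ι) : ℝ :=
  |Nst Ms (S.sort (· ≥ ·)) (fun F => WW B lam S F * (Ms j).m fun x => bb B lam fb j S i F x * dd B lam fb j i F x) fun _ => 0|

/-- the mean of the product of the `fb` of the vertex `j` -/
noncomputable def cc (j : ι) (S : Finset ι) : ℝ := (Ms j).m fun x => ∏ a ∈ S, fb j (lam j / lam a) x

end Comb

/-- lower bound in the intersection lemma -/
noncomputable def cst (ε : ℝ) (n : ℕ) : ℝ := (ε / 2) ^ n * (ε / 4) / 2 ^ n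

/-- number of levels needed -/
noncomputable def rr (ε : ℝ) : ℕ → ℕ
  | 0 => 0
  | k + 1 => ⌈(4 / ε) * rr ε k⌉₊ + 1

/-- average of `f` along the progression `x, x - g, .., x - (n-1) g` -/
noncomputable def fbar (B : ℕ → Set ℤ) (n g : ℕ) (x : ℤ) : ℝ := (∑ l ∈ range n, ind (B g) (x - (g : ℤ) * l)) / n

section Hilb

variable {H : Type*} [NormedAddCommGroup H] [InnerProductSpace ℂ H]

/-- eigenspace -/
def eig (V : H ≃ₗᵢ[ℂ] H) (z : ℂ) : Submodule ℂ H where
  carrier := {v | V v = z • v}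
  add_mem' := by
    intro a b ha hb
    simp only [Set.mem_setOf_eq] at ha hb ⊢
    rw [map_add, ha, hb, smul_add]
  zero_mem' := by simp
  smul_mem' := by
    intro c a ha
    simp only [Set.mem_setOf_eq] at ha ⊢
    rw [map_smul, ha, smul_comm]

theorem mem_eig (V : H ≃ₗᵢ[ℂ] H) (z : ℂ) (v : H) : v ∈ eig V z ↔ V v = z • v := Iff.rfl

theorem eig_closed (V : H ≃ₗᵢ[ℂ] H) (z : ℂ) : IsClosed (eig V z : Set H) := by
  have : (eig V z : Set H) = {v | V v = z • v} := rfl
  rw [this]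
  exact isClosed_eq V.continuous (continuous_const_smul z)

instance eig_complete [CompleteSpace H] (V : H ≃ₗᵢ[ℂ] H) (z : ℂ) : CompleteSpace (eig V z) :=
  (eig_closed V z).completeSpace_coe

/-- orthogonal projection onto the eigenspace -/
noncomputable def PV [CompleteSpace H] (V : H ≃ₗᵢ[ℂ] H) (z : ℂ) : H →L[ℂ] H := (eig V z).starProjection

end Hilb

/-- a Hilbert space representation of the mean, bundled -/
structure RB (M : Mean) (p : ℤ) where
  /-- the space -/
  H : Type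
  [i1 : NormedAddCommGroup H]
  [i2 : InnerProductSpace ℂ H]
  [i3 : CompleteSpace H]
  /-- the representation -/
  R : Rep M p H

attribute [instance] RB.i1 RB.i2 RB.i3

/-- the class of a real function -/
noncomputable def RB.v {M : Mean} {p : ℤ} (Q : RB M p) (f : ℤ → ℝ) : Q.H := Q.R.ι fun x => (f x : ℂ)

/-- `fb g` is close to the projection of the indicator function of `B g` on the vectors fixed by the shift by `g`, for all
multiples `g` of `D` -/
def Near {M : Mean} {D : ℕ} (Q : RB M D) (B : ℕ → Set ℤ) (δ : ℝ) (fb : ℕ → ℤ → ℝ) : Prop :=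
  ∀ k : ℕ, 0 < k → ‖Q.v (fb (D * k)) - PV (Q.R.T ^ k) 1 (Q.v (ind (B (D * k))))‖ ≤ δ

/-- `u_g = f_g - P_0 f_g`, `g = D k` -/
noncomputable def uu {M : Mean} {D : ℕ} (Q : RB M D) (B : ℕ → Set ℤ) (k : ℕ) : Q.H :=
  Q.v (ind (B (D * k))) - PV (Q.R.T ^ k) 1 (Q.v (ind (B (D * k))))

end Pool.Agent.AA
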