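import Pool.Agent.AA.Prj
import Pool.Agent.AA.LMb

/-! AA (one of D, 2D, .., ND), module EN1. -/

set_option autoImplicit false

namespace Pool.Agent.AA

open Finset Filter Topology Pool.Agent.StrA

/-- EN1.  PROOF: with `g = D k`: `m (b (x) (f_g(x - g n) - fb_g(x))) = ⟪v b, (T^k)^n v f_g - v fb_g⟫` (`Rep.re_inner`, `Rep.shift_zpow`;
`(T^k)^n = T^(k n)`), and `(T^k)^n P_0 f = P_0 f` (`PV_mem` with `z = 1`), so the difference to `⟪v b, (T^k)^n (f - P_0 f)⟫` is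
`⟪v b, P_0 f - v fb⟫`, at most `δ` in absolute value (`‖v b‖ ≤ 1`, `Rep.norm_le`). -/
theorem inner_near {M : LM} {D : ℕ} (Q : RB M.mean D) (B : ℕ → Set ℤ) (δ : ℝ) (fb : ℕ → ℤ → ℝ)
    (hfb : ∀ g x, 0 ≤ fb g x ∧ fb g x ≤ 1) (hQ : Near Q B δ fb) (b : ℤ → ℝ) (hb : ∀ x, |b x| ≤ 1) (k : ℕ) (hk : 0 < k) (n : ℤ) :
    |M.m (fun x => b x * (ind (B (D * k)) (x - ((D * k : ℕ) : ℤ) * n) - fb (D * k) x)) -
      (inner ℂ (Q.v b) (((Q.R.T ^ k) ^ n) (uu Q B k)) : ℂ).re| ≤ δ := by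
  have hfbb : Bdd (fb (D * k)) := Bdd.of_le 1 fun x => by
    rw [abs_of_nonneg (hfb _ x).1]
    exact (hfb _ x).2
  have hbb : Bdd b := Bdd.of_le 1 hb
  obtain ⟨P, hP⟩ : ∃ P, P = PV (Q.R.T ^ k) 1 (Q.v (ind (B (D * k)))) := ⟨_, rfl⟩
  have hPfix : ((Q.R.T ^ k) ^ n) P = P := by
    have h1 : (Q.R.T ^ k) P = (1 : ℂ) • P := by
      rw [hP]
      exact PV_mem _ _ _
    rw [eig_zpow (Q.R.T ^ k) (z := 1) (by simp) h1 n, one_zpow, one_smul]
  have hindC : BddC fun x => ((ind (B (D * k)) x : ℝ) : ℂ) := ⟨1, fun x => by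
    rw [Complex.norm_real, Real.norm_eq_abs]
    unfold ind
    by_cases h : x ∈ B (D * k) <;> simp [h]⟩
  have hshift : ((Q.R.T ^ k) ^ n) (Q.v (ind (B (D * k)))) =
      Q.v fun x => ind (B (D * k)) (x - ((D * k : ℕ) : ℤ) * n) := by
    have e1 : (Q.R.T ^ k) ^ n = Q.R.T ^ ((k : ℤ) * n) := by
      rw [← zpow_natCast, ← zpow_mul]
    rw [e1]
    unfold RB.v
    rw [Rep.shift_zpow Q.R _ hindC]
    congr 1
    funext x
    have e2 : x - (k : ℤ) * n * (D : ℤ) = x - ((D * k : ℕ) : ℤ) * n := by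
      push_cast
      ring
    rw [e2]
  have hshb : Bdd fun x => ind (B (D * k)) (x - ((D * k : ℕ) : ℤ) * n) := (bdd_ind _).shift _
  have e1 : (inner ℂ (Q.v b) (Q.v fun x => ind (B (D * k)) (x - ((D * k : ℕ) : ℤ) * n)) : ℂ) =
      ((M.m fun x => b x * ind (B (D * k)) (x - ((D * k : ℕ) : ℤ) * n) : ℝ) : ℂ) :=
    Rep.re_inner Q.R _ _ hbb hshb
  have e2 : (inner ℂ (Q.v b) (Q.v (fb (D * k))) : ℂ) =
      ((M.m fun x => b x * fb (D * k) x : ℝ) : ℂ) :=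
    Rep.re_inner Q.R _ _ hbb hfbb
  have e3 : M.m (fun x => b x * (ind (B (D * k)) (x - ((D * k : ℕ) : ℤ) * n) - fb (D * k) x)) =
      (M.m fun x => b x * ind (B (D * k)) (x - ((D * k : ℕ) : ℤ) * n)) -
        M.m fun x => b x * fb (D * k) x := by
    rw [← LM.sub]
    congr 1
    funext x
    ring
  have e4 : ((Q.R.T ^ k) ^ n) (uu Q B k) =
      (Q.v fun x => ind (B (D * k)) (x - ((D * k : ℕ) : ℤ) * n)) - P := by
    unfold uu
    rw [map_sub, hshift, ← hP, hPfix]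
  have e5 : M.m (fun x => b x * (ind (B (D * k)) (x - ((D * k : ℕ) : ℤ) * n) - fb (D * k) x)) -
      (inner ℂ (Q.v b) (((Q.R.T ^ k) ^ n) (uu Q B k)) : ℂ).re =
      (inner ℂ (Q.v b) (P - Q.v (fb (D * k))) : ℂ).re := by
    rw [e4, inner_sub_right, inner_sub_right, e1, e2, e3, Complex.sub_re, Complex.sub_re,
      Complex.ofReal_re, Complex.ofReal_re]
    ring
  rw [e5]
  refine (Complex.abs_re_le_norm _).trans ((norm_inner_le_norm _ _).trans ?_)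
  have h1 : ‖Q.v b‖ ≤ 1 := Rep.norm_le Q.R _ 1 zero_le_one fun x => by
    rw [Complex.norm_real, Real.norm_eq_abs]
    exact hb x
  have h2 : ‖P - Q.v (fb (D * k))‖ ≤ δ := by
    rw [norm_sub_rev, hP]
    exact hQ k hk
  exact (mul_le_of_le_one_left (norm_nonneg _) h1).trans h2

end Pool.Agent.AA
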