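import Pool.Agent.AA.RaA
import Pool.Agent.AA.LMb

/-! AA (one of D, 2D, .., ND), module RAB. -/

set_option autoImplicit false

namespace Pool.Agent.AA

open Finset Filter Topology Pool.Agent.StrA

/-- expansion of the product over the big primes: `Z` = numbers, `c` = weights -/
private theorem rab_expand (w : ℕ) (hw : 1 ≤ w) (S : Finset ℕ) (hS : ∀ p ∈ S, p.Prime ∧ w < p) :
    ∃ (ι : Type) (I : Finset ι) (i0 : ι) (ζ c : ι → ℂ), i0 ∈ I ∧ ζ i0 = 1 ∧ c i0 = 1 ∧
      (∀ i ∈ I, ∀ j ∈ I, ζ i = ζ j → i = j) ∧ (∀ i ∈ I, ‖ζ i‖ = 1 ∧ ζ i ^ (∏ p ∈ S, p) = 1) ∧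
      (∀ i ∈ I, i ≠ i0 → ‖c i‖ ≤ 1 / w) ∧
      ∀ n : ℤ, (((∏ p ∈ S, if (p : ℤ) ∣ n then 0 else (p : ℝ) / (p - 1)) : ℝ) : ℂ) = ∑ i ∈ I, c i * ζ i ^ n := by
  classical
  induction S using Finset.induction_on with
  | empty =>
    refine ⟨Unit, {()}, (), fun _ => 1, fun _ => 1, by simp, rfl, rfl, ?_, ?_, ?_, ?_⟩
    · intro i _ j _ _; rfl
    · intro i _; simp
    · intro i _ h; exact absurd rfl h
    · intro n; simp
  | insert q S hq ih =>
    obtain ⟨ι, I, i0, ζ, c, hi0, hζ0, hc0, hinj, hone, hcl, hsum⟩ := ih fun p hp => hS p (Finset.mem_insert_of_mem hp)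
    obtain ⟨hqp, hwq⟩ := hS q (Finset.mem_insert_self _ _)
    have hq0 : (q : ℂ) ≠ 0 := by exact_mod_cast hqp.ne_zero
    have hw0 : (0 : ℝ) < w := by exact_mod_cast (show 0 < w by omega)
    have hqw1 : (w : ℝ) ≤ (q : ℝ) - 1 := by
      have : w + 1 ≤ q := hwq
      have : ((w + 1 : ℕ) : ℝ) ≤ q := by exact_mod_cast this
      push_cast at this
      linarith
    have hq1 : (0 : ℝ) < (q : ℝ) - 1 := lt_of_lt_of_le hw0 hqw1
    set e : ℕ → ℂ := fun a => Complex.exp (2 * Real.pi * Complex.I * (a / q)) with he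
    have he0 : e 0 = 1 := by simp [he]
    have henorm : ∀ a, ‖e a‖ = 1 := by
      intro a
      have : (2 * Real.pi * Complex.I * ((a : ℂ) / q) : ℂ) = ((2 * Real.pi * (a / q) : ℝ) : ℂ) * Complex.I := by
        push_cast; ring
      simp only [he]
      rw [this, Complex.norm_exp_ofReal_mul_I]
    have hprim : IsPrimitiveRoot (Complex.exp (2 * Real.pi * Complex.I / q)) q :=
      Complex.isPrimitiveRoot_exp q hqp.ne_zero
    have hepow : ∀ a, e a = (Complex.exp (2 * Real.pi * Complex.I / q)) ^ a := by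
      intro a
      simp only [he]
      rw [← Complex.exp_nat_mul]
      congr 1
      ring
    have heq : ∀ a, e a ^ q = 1 := by
      intro a
      rw [hepow, ← pow_mul, mul_comm a q, pow_mul, hprim.pow_eq_one, one_pow]
    set P : ℕ := ∏ p ∈ S, p with hP
    have hcop : Nat.Coprime P q := by
      rw [hP]
      apply Nat.Coprime.prod_left
      intro p hp
      rw [Nat.coprime_primes (hS p (Finset.mem_insert_of_mem hp)).1 hqp]
      intro h
      exact hq (h ▸ hp)
    refine ⟨ι × ℕ, I ×ˢ Finset.range q, (i0, 0), fun t => ζ t.1 * e t.2,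
      fun t => if t.2 = 0 then c t.1 else -(1 / ((q : ℂ) - 1)) * c t.1, ?_, ?_, ?_, ?_, ?_, ?_, ?_⟩
    · exact Finset.mem_product.2 ⟨hi0, Finset.mem_range.2 hqp.pos⟩
    · simp only [hζ0, he0, mul_one]
    · simp only [if_true, hc0]
    · rintro ⟨i, a⟩ hi ⟨j, b⟩ hj hij
      rw [Finset.mem_product, Finset.mem_range] at hi hj
      simp only at hi hj hij
      have h1 : e a ^ P = e b ^ P := by
        have := congrArg (fun x : ℂ => x ^ P) hij
        simp only [mul_pow] at this
        rw [(hone i hi.1).2, (hone j hj.1).2, one_mul, one_mul] at this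
        exact this
      have h2 : a = b := by
        rw [hepow, hepow, ← pow_mul, ← pow_mul] at h1
        have h3 : (Complex.exp (2 * Real.pi * Complex.I / q)) ≠ 0 := Complex.exp_ne_zero _
        have h4 : (q : ℤ) ∣ ((b * P : ℕ) : ℤ) - ((a * P : ℕ) : ℤ) := by
          rw [← hprim.zpow_eq_one_iff_dvd, zpow_sub₀ h3, zpow_natCast, zpow_natCast, h1,
            div_self (pow_ne_zero _ h3)]
        have h4 : a * P ≡ b * P [MOD q] := (Nat.modEq_iff_dvd).2 h4
        have h5 : a ≡ b [MOD q] := Nat.ModEq.cancel_right_of_coprime (Nat.Coprime.symm hcop) h4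
        rw [Nat.ModEq, Nat.mod_eq_of_lt hi.2, Nat.mod_eq_of_lt hj.2] at h5
        exact h5
      subst h2
      have h3 : e a ≠ 0 := by
        intro h
        have := henorm a
        rw [h, norm_zero] at this
        exact zero_ne_one this
      have h4 := hinj i hi.1 j hj.1 (mul_right_cancel₀ h3 hij)
      rw [h4]
    · rintro ⟨i, a⟩ hi
      rw [Finset.mem_product] at hi
      refine ⟨?_, ?_⟩
      · simp only
        rw [norm_mul, (hone i hi.1).1, henorm, one_mul]
      · simp only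
        rw [Finset.prod_insert hq, mul_pow, mul_comm q, pow_mul, (hone i hi.1).2, one_pow, one_mul,
          mul_comm, pow_mul, heq, one_pow]
    · rintro ⟨i, a⟩ hi hne
      rw [Finset.mem_product] at hi
      have hci : ‖c i‖ ≤ 1 := by
        by_cases h : i = i0
        · rw [h, hc0, norm_one]
        · refine (hcl i hi.1 h).trans ?_
          rw [div_le_one hw0]
          exact_mod_cast hw
      by_cases ha : a = 0
      · simp only [ha, if_true]
        apply hcl i hi.1
        intro h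
        apply hne
        rw [h, ha]
      · simp only [if_neg ha]
        rw [norm_mul, norm_neg, norm_div, norm_one]
        have : ‖((q : ℂ) - 1)‖ = (q : ℝ) - 1 := by
          have h1 : ((q : ℂ) - 1) = (((q : ℝ) - 1 : ℝ) : ℂ) := by push_cast; ring
          rw [h1, Complex.norm_real, Real.norm_eq_abs, abs_of_pos hq1]
        rw [this]
        calc 1 / ((q : ℝ) - 1) * ‖c i‖ ≤ 1 / ((q : ℝ) - 1) * 1 :=
              mul_le_mul_of_nonneg_left hci (by positivity)
          _ = 1 / ((q : ℝ) - 1) := mul_one _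
          _ ≤ 1 / w := one_div_le_one_div_of_le hw0 hqw1
    · intro n
      rw [Finset.prod_insert hq, Complex.ofReal_mul, hsum n, prime_expand q hqp n, Finset.sum_product]
      rw [sub_mul, one_mul, mul_assoc, Finset.mul_sum (s := I), Finset.mul_sum (s := I), ← Finset.sum_sub_distrib]
      apply Finset.sum_congr rfl
      intro i _
      have h1 : Finset.range q = insert 0 (Finset.Ico 1 q) := by
        ext x
        simp only [Finset.mem_range, Finset.mem_insert, Finset.mem_Ico]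
        have := hqp.pos
        omega
      rw [h1, Finset.sum_insert (by simp)]
      simp only [if_true, he0, mul_one]
      have h2 : ∑ a ∈ Finset.Ico 1 q, ((if a = 0 then c i else -(1 / ((q : ℂ) - 1)) * c i) * (ζ i * e a) ^ n) =
          -(1 / ((q : ℂ) - 1)) * (∑ a ∈ Finset.Ico 1 q, (e a) ^ n) * (c i * ζ i ^ n) := by
        rw [Finset.mul_sum, Finset.sum_mul]
        apply Finset.sum_congr rfl
        intro a ha
        rw [Finset.mem_Ico] at ha
        rw [if_neg (by omega), mul_zpow]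
        ring
      rw [h2]
      ring

private theorem rab_c_ofReal (M : LM) (f : ℤ → ℝ) : M.mean.c (fun n => (f n : ℂ)) = ((M.m f : ℝ) : ℂ) := by
  unfold Mean.c LM.mean
  simp only [Complex.ofReal_re, Complex.ofReal_im]
  have : M.m (fun _ => (0 : ℝ)) = 0 := map_zero M.m
  rw [this]
  simp

private theorem rab_c_add (M : LM) (f g : ℤ → ℂ) :
    M.mean.c (fun n => f n + g n) = M.mean.c f + M.mean.c g := by
  unfold Mean.c LM.mean
  simp only [Complex.add_re, Complex.add_im]
  rw [LM.add, LM.add]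
  push_cast
  ring

private theorem rab_c_smul (M : LM) (c : ℂ) (f : ℤ → ℂ) :
    M.mean.c (fun n => c * f n) = c * M.mean.c f := by
  unfold Mean.c LM.mean
  simp only [Complex.mul_re, Complex.mul_im]
  rw [LM.sub, LM.add, LM.smul, LM.smul, LM.smul, LM.smul]
  apply Complex.ext
  · simp
  · simp

private theorem rab_c_sum (M : LM) {ι : Type*} (s : Finset ι) (f : ι → ℤ → ℂ) :
    M.mean.c (fun n => ∑ i ∈ s, f i n) = ∑ i ∈ s, M.mean.c (f i) := by
  classical
  induction s using Finset.induction_on with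
  | empty =>
    simp only [Finset.sum_empty]
    have := rab_c_ofReal M (fun _ => 0)
    simp only [Complex.ofReal_zero] at this
    rw [this]
    have : M.m (fun _ => (0 : ℝ)) = 0 := map_zero M.m
    rw [this, Complex.ofReal_zero]
  | insert a s ha ih =>
    simp only [Finset.sum_insert ha]
    rw [rab_c_add, ih]

/-- RA2.  PROOF: multiply out (RA1): `∏_{p ∈ S} (..) = ∑_{T ⊆ S} ∏_{p ∈ T} (-1/(p-1)) ∑ over (a_p)_(p ∈ T), 0 < a_p < p, of (e(∑ a_p/p))^n`.
The numbers `e(∑_{p ∈ T} a_p/p)` are different for different `(T, (a_p))`, and `1` only for `T = ∅`; every `T ≠ ∅` has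
`∏_{p ∈ T} 1/(p-1) ≤ 1/w`.  So the mean of `G ∏` differs from `M G` by at most `(1/w) ∑_{z ∈ Z} |M (z^n G)| ≤ C / w`. -/
theorem big_primes (M : LM) (w : ℕ) (hw : 1 ≤ w) (S : Finset ℕ) (hS : ∀ p ∈ S, p.Prime ∧ w < p) (G : ℤ → ℝ) (C : ℝ)
    (hG : ∀ n, 0 ≤ G n ∧ G n ≤ C)
    (hs : ∀ Z : Finset ℂ, (∀ z ∈ Z, ‖z‖ = 1) → ∑ z ∈ Z, ‖M.mean.c (fun n => z ^ n * ((G n : ℝ) : ℂ))‖ ≤ C) :
    M.m (fun n => (∏ p ∈ S, if (p : ℤ) ∣ n then 0 else (p : ℝ) / (p - 1)) * G n) ≤ M.m G + C / w := by
  classical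
  have hw0 : (0 : ℝ) < w := by exact_mod_cast (show 0 < w by omega)
  obtain ⟨ι, I, i0, ζ, c, hi0, hζ0, hc0, hinj, hone, hcl, hsum⟩ := rab_expand w hw S hS
  have h1 : ((M.m (fun n => (∏ p ∈ S, if (p : ℤ) ∣ n then 0 else (p : ℝ) / (p - 1)) * G n) : ℝ) : ℂ) =
      ∑ i ∈ I, c i * M.mean.c (fun n => ζ i ^ n * ((G n : ℝ) : ℂ)) := by
    rw [← rab_c_ofReal]
    have : (fun n : ℤ => (((∏ p ∈ S, if (p : ℤ) ∣ n then 0 else (p : ℝ) / (p - 1)) * G n : ℝ) : ℂ)) =
        fun n : ℤ => ∑ i ∈ I, c i * (ζ i ^ n * ((G n : ℝ) : ℂ)) := by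
      funext n
      rw [Complex.ofReal_mul, hsum n, Finset.sum_mul]
      apply Finset.sum_congr rfl
      intro i _
      ring
    rw [this, rab_c_sum]
    apply Finset.sum_congr rfl
    intro i _
    rw [rab_c_smul]
  have h2 : ((M.m (fun n => (∏ p ∈ S, if (p : ℤ) ∣ n then 0 else (p : ℝ) / (p - 1)) * G n) : ℝ) : ℂ) - ((M.m G : ℝ) : ℂ) =
      ∑ i ∈ I.erase i0, c i * M.mean.c (fun n => ζ i ^ n * ((G n : ℝ) : ℂ)) := by
    rw [h1, ← Finset.add_sum_erase I _ hi0, hc0, hζ0]
    simp only [one_zpow, one_mul]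
    rw [rab_c_ofReal]
    ring
  have h3 : ‖∑ i ∈ I.erase i0, c i * M.mean.c (fun n => ζ i ^ n * ((G n : ℝ) : ℂ))‖ ≤ C / w := by
    calc ‖∑ i ∈ I.erase i0, c i * M.mean.c (fun n => ζ i ^ n * ((G n : ℝ) : ℂ))‖
        ≤ ∑ i ∈ I.erase i0, ‖c i * M.mean.c (fun n => ζ i ^ n * ((G n : ℝ) : ℂ))‖ := norm_sum_le _ _
      _ ≤ ∑ i ∈ I.erase i0, 1 / w * ‖M.mean.c (fun n => ζ i ^ n * ((G n : ℝ) : ℂ))‖ := by
          apply Finset.sum_le_sum
          intro i hi
          rw [norm_mul]
          exact mul_le_mul_of_nonneg_right (hcl i (Finset.mem_of_mem_erase hi) (Finset.ne_of_mem_erase hi)) (norm_nonneg _)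
      _ = 1 / w * ∑ z ∈ (I.erase i0).image ζ, ‖M.mean.c (fun n => z ^ n * ((G n : ℝ) : ℂ))‖ := by
          rw [← Finset.mul_sum, Finset.sum_image]
          intro i hi j hj hij
          exact hinj i (Finset.mem_of_mem_erase hi) j (Finset.mem_of_mem_erase hj) hij
      _ ≤ 1 / w * C := by
          apply mul_le_mul_of_nonneg_left _ (by positivity)
          apply hs
          intro z hz
          rw [Finset.mem_image] at hz
          obtain ⟨i, hi, rfl⟩ := hz
          exact (hone i (Finset.mem_of_mem_erase hi)).1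
      _ = C / w := by ring
  rw [← h2, ← Complex.ofReal_sub, Complex.norm_real, Real.norm_eq_abs] at h3
  have h4 := (le_abs_self _).trans h3
  linarith

end Pool.Agent.AA
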