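import Pool.Agent.AA.LMb

/-! AA (one of D, 2D, .., ND), module REL: relative means. -/

set_option autoImplicit false

namespace Pool.Agent.AA

open Finset Filter Topology Pool.Agent.StrA

private theorem rel_mem_cop (D : ℕ) (x : ℤ) : x ∈ cop D ↔ Int.gcd x D = 1 := Iff.rfl

private theorem rel_cop_shift (D : ℕ) (x : ℤ) (k : ℤ) : x + k * D ∈ cop D ↔ x ∈ cop D := by
  rw [rel_mem_cop, rel_mem_cop]
  have : Int.gcd (x + k * D) D = Int.gcd x D := by
    rw [add_comm]
    simp
  rw [this]

private theorem rel_ind_shift (D : ℕ) (x : ℤ) (k : ℤ) : ind (cop D) (x + k * D) = ind (cop D) x := by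
  unfold ind
  by_cases h : x ∈ cop D
  · rw [Set.indicator_of_mem h, Set.indicator_of_mem ((rel_cop_shift D x k).2 h)]
  · rw [Set.indicator_of_notMem h, Set.indicator_of_notMem fun h' => h ((rel_cop_shift D x k).1 h')]

private theorem rel_sum (D : ℕ) (hD : 0 < D) (a : ℤ) :
    ∑ x ∈ Ioc a (a + D), ind (cop D) x = (D.totient : ℝ) := by
  classical
  -- a natural number `n = a + k D`
  obtain ⟨n, k, hn⟩ : ∃ (n : ℕ) (k : ℤ), (n : ℤ) = a + k * D := by
    refine ⟨(a + |a| * D).toNat, |a|, ?_⟩
    rw [Int.toNat_of_nonneg]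
    have h1 : -a ≤ |a| := neg_le_abs a
    have h2 : |a| ≤ |a| * D := by
      have : (1 : ℤ) ≤ D := by exact_mod_cast hD
      nlinarith [abs_nonneg a]
    linarith
  have h1 : ∑ x ∈ Ioc a (a + D), ind (cop D) x = ∑ y ∈ Ico (n + 1) (n + 1 + D),
      ind (cop D) ((y : ℕ) : ℤ) := by
    symm
    refine Finset.sum_bij (fun (y : ℕ) _ => (y : ℤ) - k * D) ?_ ?_ ?_ ?_
    · intro y hy
      rw [mem_Ico] at hy
      rw [mem_Ioc]
      have e1 : ((n + 1 : ℕ) : ℤ) ≤ y := by exact_mod_cast hy.1
      have e2 : (y : ℤ) < ((n + 1 + D : ℕ) : ℤ) := by exact_mod_cast hy.2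
      push_cast at e1 e2
      constructor <;> linarith
    · intro y _ y' _ h
      have : (y : ℤ) = y' := by linarith
      exact_mod_cast this
    · intro x hx
      rw [mem_Ioc] at hx
      have h0 : 0 ≤ x + k * D := by
        have : (0 : ℤ) ≤ n := Int.natCast_nonneg n
        linarith [hx.1]
      refine ⟨(x + k * D).toNat, ?_, ?_⟩
      · rw [mem_Ico]
        have e1 : (((x + k * D).toNat : ℕ) : ℤ) = x + k * D := Int.toNat_of_nonneg h0
        constructor
        · have : ((n + 1 : ℕ) : ℤ) ≤ ((x + k * D).toNat : ℕ) := by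
            rw [e1]; push_cast; linarith [hx.1]
          exact_mod_cast this
        · have : (((x + k * D).toNat : ℕ) : ℤ) < ((n + 1 + D : ℕ) : ℤ) := by
            rw [e1]; push_cast; linarith [hx.2]
          exact_mod_cast this
      · show (((x + k * D).toNat : ℕ) : ℤ) - k * D = x
        rw [Int.toNat_of_nonneg h0]; ring
    · intro y _
      have := rel_ind_shift D ((y : ℤ) - k * D) k
      rw [sub_add_cancel] at this
      exact this
  rw [h1, ← Nat.filter_coprime_Ico_eq_totient D (n + 1), Finset.card_filter]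
  push_cast
  refine Finset.sum_congr rfl fun y _ => ?_
  unfold ind
  by_cases h : D.Coprime y
  · rw [if_pos h, Set.indicator_of_mem]
    rw [rel_mem_cop, Int.gcd_natCast_natCast]
    exact h.symm
  · rw [if_neg h, Set.indicator_of_notMem]
    rw [rel_mem_cop, Int.gcd_natCast_natCast]
    exact fun h' => h (Nat.Coprime.symm h')

/-- REL1.  The density of the integers coprime to `D`.
PROOF: `1_cop` has period `D`; by invariance `M f = M (x ↦ (1/D) ∑_{j<D} f (x - j))` and for every `x` the `D` integers `x - j`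
represent all classes modulo `D`, of which `φ(D)` are coprime to `D`. -/
theorem cop_mean (M : LM) (hM : M.Inv 1) (D : ℕ) (hD : 0 < D) : M.m (ind (cop D)) = (D.totient : ℝ) / D := by
  have hD0 : (D : ℝ) ≠ 0 := by exact_mod_cast hD.ne'
  apply le_antisymm
  · refine Mean.le_of_avg M.mean (LM.mean_inv hM) (bdd_ind _) _ D hD fun a => ?_
    rw [rel_sum D hD a, div_mul_cancel₀ _ hD0]
  · have h1 : M.m (fun x => (-1) * ind (cop D) x) ≤ -((D.totient : ℝ) / D) := by
      refine Mean.le_of_avg M.mean (LM.mean_inv hM) ((bdd_ind _).smul _) _ D hD fun a => ?_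
      rw [← Finset.mul_sum, rel_sum D hD a, neg_mul, neg_mul, one_mul, div_mul_cancel₀ _ hD0]
    rw [LM.smul] at h1
    linarith

/-- REL2.  The relative mean.
PROOF: the linear map `f ↦ (D / φ(D)) M (1_cop f)`; normalised by REL1; invariant under the shift by `D` because `1_cop` is. -/
theorem exists_rel (M : LM) (hM : M.Inv 1) (D : ℕ) (hD : 0 < D) : ∃ M' : LM, IsRel M M' D := by
  have hD0 : (D : ℝ) ≠ 0 := by exact_mod_cast hD.ne'
  have hφ : (0 : ℝ) < D.totient := by exact_mod_cast Nat.totient_pos.2 hD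
  have hc : (0 : ℝ) ≤ (D : ℝ) / D.totient := by positivity
  refine ⟨{ m := ?_, nonneg' := ?_, one' := ?_ }, ?_, ?_⟩
  · exact
      { toFun := fun f => ((D : ℝ) / D.totient) * M.m (fun x => ind (cop D) x * f x)
        map_add' := fun f g => by
          rw [← mul_add, ← map_add]
          congr 2
          funext x
          simp only [Pi.add_apply]
          ring
        map_smul' := fun c f => by
          rw [RingHom.id_apply, smul_eq_mul, mul_left_comm, ← smul_eq_mul c (M.m _), ← map_smul]
          congr 2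
          funext x
          simp only [Pi.smul_apply, smul_eq_mul]
          ring }
  · intro f hf h
    refine mul_nonneg hc (M.nonneg' _ ((bdd_ind _).mul hf) fun x => mul_nonneg ?_ (h x))
    unfold ind
    exact Set.indicator_nonneg (fun _ _ => zero_le_one) x
  · show ((D : ℝ) / D.totient) * M.m (fun x => ind (cop D) x * 1) = 1
    have h1 : (fun x => ind (cop D) x * 1) = ind (cop D) := by
      funext x; rw [mul_one]
    rw [h1, cop_mean M hM D hD]
    field_simp
  · intro f hf
    show ((D : ℝ) / D.totient) * M.m (fun x => ind (cop D) x * f (x - D)) =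
      ((D : ℝ) / D.totient) * M.m (fun x => ind (cop D) x * f x)
    have h1 := (hM.mul (D : ℤ)) (fun x => ind (cop D) x * f x) ((bdd_ind _).mul hf)
    rw [mul_one] at h1
    have h2 : (fun x : ℤ => ind (cop D) x * f (x - D)) =
        fun x => ind (cop D) (x - D) * f (x - D) := by
      funext x
      have := rel_ind_shift D (x - D) 1
      rw [one_mul, sub_add_cancel] at this
      rw [this]
    rw [h2]
    exact congrArg _ h1
  · intro f
    rfl

/-- REL3.  The relative mean only sees the integers coprime to `D`. -/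
theorem rel_supp {M M' : LM} {D : ℕ} (h : IsRel M M' D) {f : ℤ → ℝ} (hf : Bdd f) (hc : ∀ x ∈ cop D, f x ≤ 0) :
    M'.m f ≤ 0 := by
  rw [h.2]
  have h1 : M.m (fun x => ind (cop D) x * f x) ≤ M.m (fun _ => 0) := by
    refine M.mono ((bdd_ind _).mul hf) (Bdd.const 0) fun x => ?_
    unfold ind
    by_cases hx : x ∈ cop D
    · rw [Set.indicator_of_mem hx, one_mul]
      exact hc x hx
    · rw [Set.indicator_of_notMem hx, zero_mul]
  rw [M.const] at h1
  exact mul_nonpos_of_nonneg_of_nonpos (by positivity) h1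

private theorem rel_cop_iff {g : ℕ} (hg : 0 < g) (x : ℤ) :
    x ∈ cop g ↔ ∀ p ∈ g.primeFactors, ¬ (p : ℤ) ∣ x := by
  rw [rel_mem_cop, ← Int.natAbs_natCast g]
  show Nat.gcd x.natAbs (((g.cast : ℤ).natAbs : ℤ)).natAbs = 1 ↔ _
  rw [Int.natAbs_natCast, Int.natAbs_natCast]
  constructor
  · intro h p hp hpx
    have hpp := Nat.prime_of_mem_primeFactors hp
    have h1 : p ∣ Nat.gcd x.natAbs g :=
      Nat.dvd_gcd (Int.natCast_dvd.1 hpx) (Nat.dvd_of_mem_primeFactors hp)
    rw [h] at h1
    exact hpp.one_lt.ne' (Nat.dvd_one.1 h1)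
  · intro h
    by_contra hne
    obtain ⟨p, hp, hpd⟩ := Nat.exists_prime_and_dvd hne
    refine h p (Nat.mem_primeFactors.2 ⟨hp, hpd.trans (Nat.gcd_dvd_right _ _), hg.ne'⟩) ?_
    exact Int.natCast_dvd.2 (hpd.trans (Nat.gcd_dvd_left _ _))

private theorem rel_tot {D g : ℕ} (hD : 0 < D) (hg : 0 < g) (hpf : g.primeFactors = D.primeFactors) :
    (g.totient : ℝ) / g = (D.totient : ℝ) / D := by
  have key : ∀ n : ℕ, 0 < n → (n.totient : ℝ) / n = ∏ p ∈ n.primeFactors, (1 - (p : ℝ)⁻¹) := by
    intro n hn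
    have h1 := Nat.totient_eq_mul_prod_factors n
    have h2 : (n.totient : ℝ) = n * ∏ p ∈ n.primeFactors, (1 - (p : ℝ)⁻¹) := by
      have := congrArg (fun q : ℚ => (q : ℝ)) h1
      push_cast at this
      exact this
    rw [h2, mul_div_cancel_left₀ _ (by exact_mod_cast hn.ne')]
  rw [key g hg, key D hD, hpf]

/-- REL4.  A set of integers coprime to `g`, where `D ∣ g` have the same prime factors. -/
theorem rel_big {M M' : LM} {D g : ℕ} (h : IsRel M M' D) (hD : 0 < D) (hg : 0 < g)
    (hpf : g.primeFactors = D.primeFactors) {E : Set ℤ} (hE : E ⊆ cop g) (ε : ℝ)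
    (hb : ε * ((g.totient : ℝ) / g) ≤ M.m (ind E)) : ε ≤ M'.m (ind E) := by
  have hD0 : (0 : ℝ) < D := by exact_mod_cast hD
  have hφ : (0 : ℝ) < D.totient := by exact_mod_cast Nat.totient_pos.2 hD
  have h1 : (fun x => ind (cop D) x * ind E x) = ind E := by
    funext x
    unfold ind
    by_cases hx : x ∈ E
    · have hx' : x ∈ cop D := by
        have := hE hx
        rw [rel_cop_iff hg, hpf] at this
        exact (rel_cop_iff hD x).2 this
      rw [Set.indicator_of_mem hx, Set.indicator_of_mem hx', one_mul]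
    · rw [Set.indicator_of_notMem hx, mul_zero]
  rw [h.2, h1]
  rw [rel_tot hD hg hpf] at hb
  have h2 : ε = ((D : ℝ) / D.totient) * (ε * ((D.totient : ℝ) / D)) := by
    field_simp
  rw [h2]
  exact mul_le_mul_of_nonneg_left hb (by positivity)

end Pool.Agent.AA
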