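import Pool.Agent.AA.Kap
import Pool.Agent.AA.RaB
import Pool.Agent.AA.Rel

/-! AA (one of D, 2D, .., ND), module RAC: relative means against full means. -/

set_option autoImplicit false

namespace Pool.Agent.AA

open Finset Filter Topology Pool.Agent.StrA

private theorem rac_cop_iff {g : ℕ} (hg : 0 < g) (x : ℤ) :
    x ∈ cop g ↔ ∀ p ∈ g.primeFactors, ¬ (p : ℤ) ∣ x := by
  show Int.gcd x g = 1 ↔ _
  rw [← Int.natAbs_natCast g]
  show Nat.gcd x.natAbs (((g.cast : ℤ).natAbs : ℤ)).natAbs = 1 ↔ _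
  rw [Int.natAbs_natCast, Int.natAbs_natCast]
  constructor
  · intro h p hp hpx
    have hpp := Nat.prime_of_mem_primeFactors hp
    have h1 : p ∣ Nat.gcd x.natAbs g :=
      Nat.dvd_gcd (Int.natCast_dvd.1 hpx) (Nat.dvd_of_mem_primeFactors hp)
    rw [h] at h1
    exact hpp.one_lt.ne' (Nat.dvd_one.1 h1)
  · intro h
    by_contra hne
    obtain ⟨p, hp, hpd⟩ := Nat.exists_prime_and_dvd hne
    refine h p (Nat.mem_primeFactors.2 ⟨hp, hpd.trans (Nat.gcd_dvd_right _ _), hg.ne'⟩) ?_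
    exact Int.natCast_dvd.2 (hpd.trans (Nat.gcd_dvd_left _ _))

private theorem rac_pos {p : ℕ} (hp : p.Prime) : (0 : ℝ) < (p : ℝ) - 1 := by
  have : (1 : ℝ) < p := by exact_mod_cast hp.one_lt
  linarith

private theorem rac_tot {n : ℕ} (hn : 0 < n) :
    (n : ℝ) / n.totient = ∏ p ∈ n.primeFactors, ((p : ℝ) / (p - 1)) := by
  have h1 := Nat.totient_eq_mul_prod_factors n
  have h2 : (n.totient : ℝ) = n * ∏ p ∈ n.primeFactors, (1 - (p : ℝ)⁻¹) := by
    have := congrArg (fun q : ℚ => (q : ℝ)) h1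
    push_cast at this
    exact this
  have hn0 : (n : ℝ) ≠ 0 := by exact_mod_cast hn.ne'
  rw [h2, div_mul_cancel_left₀ hn0, ← Finset.prod_inv_distrib]
  refine Finset.prod_congr rfl fun p hp => ?_
  have hpp := Nat.prime_of_mem_primeFactors hp
  have h3 := rac_pos hpp
  have h4 : (0 : ℝ) < p := by exact_mod_cast hpp.pos
  rw [inv_eq_one_div, div_eq_div_iff]
  · field_simp
  · have : (1 : ℝ) - (p : ℝ)⁻¹ = (p - 1) / p := by field_simp
    rw [this]
    positivity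
  · exact h3.ne'

private theorem rac_fac {p : ℕ} (hp : p.Prime) (n : ℤ) :
    0 ≤ (if (p : ℤ) ∣ n then 0 else (p : ℝ) / (p - 1)) ∧
      (if (p : ℤ) ∣ n then 0 else (p : ℝ) / (p - 1)) ≤ (p : ℝ) / (p - 1) ∧ 1 ≤ (p : ℝ) / (p - 1) := by
  have h3 := rac_pos hp
  have h4 : (0 : ℝ) < p := by exact_mod_cast hp.pos
  have h5 : 0 ≤ (p : ℝ) / (p - 1) := by positivity
  refine ⟨?_, ?_, ?_⟩
  · split_ifs
    · exact le_rfl
    · exact h5
  · split_ifs
    · exact h5
    · exact le_rfl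
  · rw [le_div_iff₀ h3]
    linarith

/-- RA3.  PROOF: `(D/φ(D)) 1_cop(n) = ∏_{p ∣ D} (if p ∣ n then 0 else p/(p-1))`; the factors of the primes `p ≤ w` are at most
`p/(p-1)`, their product at most `2 √w` (KAP); the other primes: RA2. -/
theorem rel_le {M M' : LM} (hM : M.Inv 1) {D : ℕ} (hD : 0 < D) (h : IsRel M M' D) (w : ℕ) (hw : 1 ≤ w) (G : ℤ → ℝ) (C : ℝ)
    (hG : ∀ n, 0 ≤ G n ∧ G n ≤ C)
    (hs : ∀ Z : Finset ℂ, (∀ z ∈ Z, ‖z‖ = 1) → ∑ z ∈ Z, ‖M.mean.c (fun n => z ^ n * ((G n : ℝ) : ℂ))‖ ≤ C) :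
    M'.m G ≤ 2 * √w * (M.m G + C / w) := by
  classical
  have hpr : ∀ p ∈ D.primeFactors, p.Prime := fun p hp => Nat.prime_of_mem_primeFactors hp
  obtain ⟨S₁, hS₁⟩ : ∃ S, S = D.primeFactors.filter (fun p => p ≤ w) := ⟨_, rfl⟩
  obtain ⟨S₂, hS₂⟩ : ∃ S, S = D.primeFactors.filter (fun p => ¬ p ≤ w) := ⟨_, rfl⟩
  have hS₁p : ∀ p ∈ S₁, p.Prime := fun p hp => hpr p (by
    rw [hS₁] at hp; exact (mem_filter.1 hp).1)
  have hS₂p : ∀ p ∈ S₂, p.Prime ∧ w < p := fun p hp => by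
    rw [hS₂, mem_filter, not_le] at hp
    exact ⟨hpr p hp.1, hp.2⟩
  have hsplit : ∀ F : ℕ → ℝ, ∏ p ∈ D.primeFactors, F p = (∏ p ∈ S₁, F p) * ∏ p ∈ S₂, F p := by
    intro F
    rw [hS₁, hS₂, Finset.prod_filter_mul_prod_filter_not]
  -- the small primes
  have hsmall : ∏ p ∈ S₁, ((p : ℝ) / (p - 1)) ≤ 2 * √w := by
    refine le_trans ?_ (kap_le w hw)
    refine Finset.prod_le_prod_of_subset_of_one_le ?_ ?_ ?_
    · intro p hp
      rw [mem_filter, mem_range]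
      refine ⟨?_, hS₁p p hp⟩
      rw [hS₁, mem_filter] at hp
      omega
    · intro p hp
      exact (zero_le_one.trans (rac_fac (hS₁p p hp) 0).2.2)
    · intro p hp _
      exact (rac_fac (mem_filter.1 hp).2 0).2.2
  obtain ⟨P, hP⟩ : ∃ P : ℤ → ℝ, P = fun n => ∏ p ∈ S₂, if (p : ℤ) ∣ n then 0 else (p : ℝ) / (p - 1) :=
    ⟨_, rfl⟩
  have hP0 : ∀ n, 0 ≤ P n := by
    intro n
    rw [hP]
    exact Finset.prod_nonneg fun p hp => (rac_fac (hS₂p p hp).1 n).1
  have hP1 : ∀ n, P n ≤ ∏ p ∈ S₂, ((p : ℝ) / (p - 1)) := by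
    intro n
    rw [hP]
    exact Finset.prod_le_prod (fun p hp => (rac_fac (hS₂p p hp).1 n).1)
      fun p hp => (rac_fac (hS₂p p hp).1 n).2.1
  have hbG : Bdd G := ⟨C, fun n => by rw [abs_of_nonneg (hG n).1]; exact (hG n).2⟩
  have hbP : Bdd P := ⟨_, fun n => by rw [abs_of_nonneg (hP0 n)]; exact hP1 n⟩
  have h2w : (0 : ℝ) ≤ 2 * √w := by positivity
  -- pointwise bound
  have hpt : ∀ n, ((D : ℝ) / D.totient) * (ind (cop D) n * G n) ≤ (2 * √w) * (P n * G n) := by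
    intro n
    by_cases hn : n ∈ cop D
    · have hn' := (rac_cop_iff hD n).1 hn
      have e1 : ind (cop D) n = 1 := by
        unfold ind
        rw [Set.indicator_of_mem hn]
      have e2 : P n = ∏ p ∈ S₂, ((p : ℝ) / (p - 1)) := by
        rw [hP]
        refine Finset.prod_congr rfl fun p hp => ?_
        rw [if_neg]
        apply hn'
        rw [hS₂] at hp
        exact (mem_filter.1 hp).1
      rw [e1, one_mul, rac_tot hD, hsplit, e2, ← mul_assoc]
      refine mul_le_mul_of_nonneg_right ?_ (hG n).1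
      refine mul_le_mul_of_nonneg_right hsmall ?_
      exact Finset.prod_nonneg fun p hp => zero_le_one.trans (rac_fac (hS₂p p hp).1 0).2.2
    · have e1 : ind (cop D) n = 0 := by
        unfold ind
        rw [Set.indicator_of_notMem hn]
      rw [e1, zero_mul, mul_zero]
      exact mul_nonneg h2w (mul_nonneg (hP0 n) (hG n).1)
  calc M'.m G = ((D : ℝ) / D.totient) * M.m (fun x => ind (cop D) x * G x) := h.2 G
    _ = M.m (fun x => ((D : ℝ) / D.totient) * (ind (cop D) x * G x)) := by rw [LM.smul]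
    _ ≤ M.m (fun x => (2 * √w) * (P x * G x)) :=
        M.mono (((bdd_ind _).mul hbG).smul _) ((hbP.mul hbG).smul _) hpt
    _ = (2 * √w) * M.m (fun x => P x * G x) := by rw [LM.smul]
    _ ≤ (2 * √w) * (M.m G + C / w) := by
        refine mul_le_mul_of_nonneg_left ?_ h2w
        rw [hP]
        exact big_primes M w hw S₂ hS₂p G C hG hs

end Pool.Agent.AA
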