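import Pool.Agent.AA.SgB

/-! AA (one of D, 2D, .., ND), module SGC: Fourier coefficients of products of matrix coefficients. -/

set_option autoImplicit false

namespace Pool.Agent.AA

open Finset Filter Topology Pool.Agent.StrA

variable {H : Type*} [NormedAddCommGroup H] [InnerProductSpace ℂ H]

open scoped TensorProduct in
private noncomputable def SGC_hom : (H ≃ₗᵢ[ℂ] H) × (H ≃ₗᵢ[ℂ] H) →* ((H ⊗[ℂ] H) ≃ₗᵢ[ℂ] (H ⊗[ℂ] H)) where
  toFun p := TensorProduct.congrIsometry p.1 p.2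
  map_one' := TensorProduct.congrIsometry_refl_refl
  map_mul' p q := by
    apply LinearIsometryEquiv.ext
    intro x
    induction x using TensorProduct.induction_on with
    | zero => simp
    | tmul x y => rfl
    | add x y hx hy => rw [map_add, map_add, hx, hy]

open scoped TensorProduct in
private theorem SGC_pow (V W : H ≃ₗᵢ[ℂ] H) (n : ℤ) (x y : H) :
    ((TensorProduct.congrIsometry V W) ^ n) (x ⊗ₜ[ℂ] y) = ((V ^ n) x) ⊗ₜ[ℂ] ((W ^ n) y) := by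
  have h1 := map_zpow (SGC_hom (H := H)) (V, W) n
  have h2 : SGC_hom (H := H) (V, W) = TensorProduct.congrIsometry V W := rfl
  rw [h2] at h1
  rw [← h1]
  rfl

private theorem SGC_add (M : LM) (f g : ℤ → ℂ) :
    M.mean.c (fun n => f n + g n) = M.mean.c f + M.mean.c g := by
  have h1 : ∀ f g : ℤ → ℝ, M.mean.m (fun n => f n + g n) = M.mean.m f + M.mean.m g :=
    fun f g => map_add M.m f g
  unfold Mean.c
  simp only [Complex.add_re, Complex.add_im, h1]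
  push_cast
  ring

private theorem SGC_smul (M : LM) (a : ℂ) (f : ℤ → ℂ) :
    M.mean.c (fun n => a * f n) = a * M.mean.c f := by
  have h1 : ∀ (c d : ℝ) (f g : ℤ → ℝ), M.mean.m (fun n => c * f n + d * g n) =
      c * M.mean.m f + d * M.mean.m g := by
    intro c d f g
    have h2 := map_add M.m (c • f) (d • g)
    rw [map_smul, map_smul] at h2
    exact h2
  have h3 : (fun n => (a * f n).re) = fun n => a.re * (f n).re + (-a.im) * (f n).im := by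
    funext n
    rw [Complex.mul_re]; ring
  have h4 : (fun n => (a * f n).im) = fun n => a.re * (f n).im + a.im * (f n).re := by
    funext n
    rw [Complex.mul_im]
  unfold Mean.c
  rw [h3, h4, h1, h1]
  apply Complex.ext
  · simp; ring
  · simp

private theorem SGC_sum (M : LM) {κ : Type*} (s : Finset κ) (f : κ → ℤ → ℂ) :
    M.mean.c (fun n => ∑ k ∈ s, f k n) = ∑ k ∈ s, M.mean.c (f k) := by
  classical
  induction s using Finset.induction_on with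
  | empty =>
    simp only [sum_empty]
    have h := SGC_smul M 0 (fun _ => 0)
    simpa using h
  | insert k s hk ih =>
    simp only [sum_insert hk]
    rw [SGC_add, ih]

/-- SG3.  PROOF: `conj ⟪b', V'^n u'⟫ = ⟪V'^n u', b'⟫ = ⟪u', (V'⁻¹)^n b'⟫`, so the product is
`⟪b ⊗ u', (V ⊗ V'⁻¹)^n (u ⊗ b')⟫` in `H ⊗[ℂ] H` (Mathlib: `TensorProduct.inner_tmul`, `TensorProduct.congrIsometry`); SG2 there. -/
theorem coeff_prod_le (M : LM) (hM : M.Inv 1) (V V' : H ≃ₗᵢ[ℂ] H) (b u b' u' : H) (Z : Finset ℂ)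
    (hZ : ∀ z ∈ Z, ‖z‖ = 1) :
    ∑ z ∈ Z, ‖M.mean.c (fun n => z ^ n *
      (inner ℂ b ((V ^ n) u) * (starRingEnd ℂ) (inner ℂ b' ((V' ^ n) u'))))‖ ≤ ‖b‖ * ‖u‖ * (‖b'‖ * ‖u'‖) := by
  have h1 := coeff_sum_le M hM (TensorProduct.congrIsometry V V'⁻¹) (b ⊗ₜ[ℂ] u') (u ⊗ₜ[ℂ] b') Z hZ
  have h2 : ∀ n : ℤ, inner ℂ (b ⊗ₜ[ℂ] u') (((TensorProduct.congrIsometry V V'⁻¹) ^ n) (u ⊗ₜ[ℂ] b')) =
      inner ℂ b ((V ^ n) u) * (starRingEnd ℂ) (inner ℂ b' ((V' ^ n) u')) := by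
    intro n
    rw [SGC_pow, TensorProduct.inner_tmul]
    congr 1
    rw [inner_conj_symm]
    have h3 : (V'⁻¹ ^ n) b' = (V' ^ n).symm b' := by
      rw [inv_zpow]
      rfl
    rw [h3]
    have h4 := (V' ^ n).inner_map_map u' ((V' ^ n).symm b')
    rw [LinearIsometryEquiv.apply_symm_apply] at h4
    exact h4.symm
  simp only [h2] at h1
  rw [TensorProduct.norm_tmul, TensorProduct.norm_tmul] at h1
  refine le_trans h1 (le_of_eq ?_)
  ring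

/-- SG4.  PROOF: expand the square, SG3 for every pair `(k, k')`. -/
theorem sigma_le {κ : Type*} (Γ : Finset κ) (M : LM) (hM : M.Inv 1) (V : κ → (H ≃ₗᵢ[ℂ] H)) (b u : κ → H) (ω : κ → ℝ)
    (hω : ∀ k ∈ Γ, |ω k| ≤ 1) (hb : ∀ k ∈ Γ, ‖b k‖ ≤ 1) (hu : ∀ k ∈ Γ, ‖u k‖ ≤ 1) (Z : Finset ℂ) (hZ : ∀ z ∈ Z, ‖z‖ = 1) :
    ∑ z ∈ Z, ‖M.mean.c (fun n => z ^ n *
      ((‖∑ k ∈ Γ, (ω k : ℂ) * inner ℂ (b k) ((V k ^ n) (u k))‖ ^ 2 : ℝ) : ℂ))‖ ≤ (Γ.card : ℝ) ^ 2 := by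
  have h1 : ∀ z : ℂ, (fun n : ℤ => z ^ n *
      ((‖∑ k ∈ Γ, (ω k : ℂ) * inner ℂ (b k) ((V k ^ n) (u k))‖ ^ 2 : ℝ) : ℂ)) =
      fun n => ∑ k ∈ Γ, ∑ k' ∈ Γ, ((ω k : ℂ) * (ω k' : ℂ)) * (z ^ n *
        (inner ℂ (b k) ((V k ^ n) (u k)) *
          (starRingEnd ℂ) (inner ℂ (b k') ((V k' ^ n) (u k'))))) := by
    intro z
    funext n
    have h2 : ∀ w : ℂ, ((‖w‖ ^ 2 : ℝ) : ℂ) = w * (starRingEnd ℂ) w := by
      intro w
      rw [Complex.mul_conj, Complex.normSq_eq_norm_sq]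
    rw [h2, map_sum, sum_mul_sum, mul_sum]
    refine sum_congr rfl fun k _ => ?_
    rw [mul_sum]
    refine sum_congr rfl fun k' _ => ?_
    rw [map_mul, Complex.conj_ofReal]
    ring
  have h3 : ∀ z : ℂ, M.mean.c (fun n : ℤ => z ^ n *
      ((‖∑ k ∈ Γ, (ω k : ℂ) * inner ℂ (b k) ((V k ^ n) (u k))‖ ^ 2 : ℝ) : ℂ)) =
      ∑ k ∈ Γ, ∑ k' ∈ Γ, ((ω k : ℂ) * (ω k' : ℂ)) * M.mean.c (fun n => z ^ n *
        (inner ℂ (b k) ((V k ^ n) (u k)) *
          (starRingEnd ℂ) (inner ℂ (b k') ((V k' ^ n) (u k'))))) := by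
    intro z
    rw [h1, SGC_sum]
    refine sum_congr rfl fun k _ => ?_
    rw [SGC_sum]
    refine sum_congr rfl fun k' _ => ?_
    rw [SGC_smul]
  have h4 : ∀ z : ℂ, ‖M.mean.c (fun n : ℤ => z ^ n *
      ((‖∑ k ∈ Γ, (ω k : ℂ) * inner ℂ (b k) ((V k ^ n) (u k))‖ ^ 2 : ℝ) : ℂ))‖ ≤
      ∑ k ∈ Γ, ∑ k' ∈ Γ, ‖M.mean.c (fun n => z ^ n *
        (inner ℂ (b k) ((V k ^ n) (u k)) *
          (starRingEnd ℂ) (inner ℂ (b k') ((V k' ^ n) (u k')))))‖ := by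
    intro z
    rw [h3]
    refine le_trans (norm_sum_le _ _) (sum_le_sum fun k hk => ?_)
    refine le_trans (norm_sum_le _ _) (sum_le_sum fun k' hk' => ?_)
    rw [norm_mul, norm_mul, Complex.norm_real, Complex.norm_real, Real.norm_eq_abs, Real.norm_eq_abs]
    have h5 : |ω k| * |ω k'| ≤ 1 := mul_le_one₀ (hω k hk) (abs_nonneg _) (hω k' hk')
    exact mul_le_of_le_one_left (norm_nonneg _) h5
  calc _ ≤ ∑ z ∈ Z, ∑ k ∈ Γ, ∑ k' ∈ Γ, ‖M.mean.c (fun n => z ^ n *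
        (inner ℂ (b k) ((V k ^ n) (u k)) *
          (starRingEnd ℂ) (inner ℂ (b k') ((V k' ^ n) (u k')))))‖ := sum_le_sum fun z _ => h4 z
    _ = ∑ k ∈ Γ, ∑ k' ∈ Γ, ∑ z ∈ Z, ‖M.mean.c (fun n => z ^ n *
        (inner ℂ (b k) ((V k ^ n) (u k)) *
          (starRingEnd ℂ) (inner ℂ (b k') ((V k' ^ n) (u k')))))‖ := by
        rw [sum_comm]
        refine sum_congr rfl fun k _ => ?_
        rw [sum_comm]
    _ ≤ ∑ k ∈ Γ, ∑ k' ∈ Γ, (1 : ℝ) := by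
        refine sum_le_sum fun k hk => sum_le_sum fun k' hk' => ?_
        refine le_trans (coeff_prod_le M hM (V k) (V k') (b k) (u k) (b k') (u k') Z hZ) ?_
        have e1 : ‖b k‖ * ‖u k‖ ≤ 1 := mul_le_one₀ (hb k hk) (norm_nonneg _) (hu k hk)
        have e2 : ‖b k'‖ * ‖u k'‖ ≤ 1 := mul_le_one₀ (hb k' hk') (norm_nonneg _) (hu k' hk')
        exact mul_le_one₀ e1 (by positivity) e2
    _ = (Γ.card : ℝ) ^ 2 := by
        simp only [sum_const, nsmul_eq_mul, mul_one]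
        ring

end Pool.Agent.AA
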