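import Pool.Agent.AA.EraA
import Pool.Agent.AA.SgC
import Pool.Agent.AA.RaC

/-! AA (one of D, 2D, .., ND), module ERB: mean of the error, relative mean. -/

set_option autoImplicit false

namespace Pool.Agent.AA

open Finset Filter Topology Pool.Agent.StrA

variable {H : Type*} [NormedAddCommGroup H] [InnerProductSpace ℂ H]

/-- ERB, the difference with the projection is short -/
private theorem erb_norm [CompleteSpace H] (V : H ≃ₗᵢ[ℂ] H) (z : ℂ) (v : H) : ‖v - PV V z v‖ ≤ ‖v‖ := by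
  have h1 : v - PV V z v = (eig V z)ᗮ.starProjection v := by
    rw [Submodule.starProjection_orthogonal_val]
    rfl
  rw [h1]
  exact Submodule.norm_starProjection_apply_le _ v

/-- ERA2 (mean of the error, relative mean).
PROOF: for every `t` the function `G n = ‖..‖²` satisfies `0 ≤ G ≤ |Γ|²` and the hypothesis of `rel_le` with `C = |Γ|²` (`sigma_le`), so
`M' G ≤ 2 √w (M G + |Γ|²/w)`; sum over `t` (`err_full`); `(M' |Re Y|)² ≤ M' (‖Y‖²)` (`LM.sq_le`) and Cauchy-Schwarz over `t`. -/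
theorem err_rel [CompleteSpace H] {M M' : LM} (hM : M.Inv 1) {Di : ℕ} (hDi : 0 < Di) (hrel : IsRel M M' Di)
    (T : H ≃ₗᵢ[ℂ] H) (f b : ℕ → H) (hf : ∀ q, ‖f q‖ ≤ 1)
    (hb : ∀ q, ‖b q‖ ≤ 1) (Ei Ej A : Finset ℕ) (hA : DivSet A) (hEj : ∀ e ∈ Ej, 0 < e) (c0 : ℕ) (hc : ∀ a ∈ A, a ∣ c0)
    (hc0 : 0 < c0) (η : ℝ) (hη : 0 < η) (hη1 : η ≤ 1) (hcard : (1 / η) ^ 4 ≤ (A.card : ℝ))
    (hfol : ∀ a ∈ A, FolBy (η ^ 4) Ej a) (w : ℕ) (hw : 1 ≤ w) (ω : ℕ × ℕ → ℕ × ℕ → ℝ) (hω : ∀ t γ, |ω t γ| ≤ 1) :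
    ∑ t ∈ Ei ×ˢ A, M'.m (fun n => |∑ γ ∈ Ej ×ˢ A, ω t γ * (inner ℂ (b ((t.1 * t.2) * (γ.1 * γ.2)))
        (((T ^ (c0 * (γ.1 * γ.2))) ^ n) (f (c0 * (γ.1 * γ.2)) - PV (T ^ (c0 * (γ.1 * γ.2))) 1 (f (c0 * (γ.1 * γ.2))))) : ℂ).re|) ≤
      √(2 * √w * (8 * √(√η) + 1 / w)) * ((Ei ×ˢ A).card * ((Ej ×ˢ A).card : ℝ)) := by
  obtain ⟨Γ, hΓ⟩ : ∃ Γ : Finset (ℕ × ℕ), Γ = Ej ×ˢ A := ⟨_, rfl⟩
  obtain ⟨S, hS⟩ : ∃ S : Finset (ℕ × ℕ), S = Ei ×ˢ A := ⟨_, rfl⟩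
  obtain ⟨u, hu⟩ : ∃ u : ℕ → H, ∀ q, u q = f q - PV (T ^ q) 1 (f q) := ⟨_, fun _ => rfl⟩
  have hu1 : ∀ q, ‖u q‖ ≤ 1 := fun q => by
    rw [hu]
    exact (erb_norm (T ^ q) 1 (f q)).trans (hf q)
  obtain ⟨c, hcdef⟩ : ∃ c : ℕ × ℕ → ℕ × ℕ → ℤ → ℂ, ∀ t γ n, c t γ n =
      inner ℂ (b ((t.1 * t.2) * (γ.1 * γ.2))) (((T ^ (c0 * (γ.1 * γ.2))) ^ n) (u (c0 * (γ.1 * γ.2)))) :=
    ⟨_, fun _ _ _ => rfl⟩
  have hc1 : ∀ t γ n, ‖c t γ n‖ ≤ 1 := by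
    intro t γ n
    rw [hcdef]
    refine (norm_inner_le_norm _ _).trans ?_
    rw [LinearIsometryEquiv.norm_map]
    calc ‖b ((t.1 * t.2) * (γ.1 * γ.2))‖ * ‖u (c0 * (γ.1 * γ.2))‖ ≤ 1 * 1 :=
          mul_le_mul (hb _) (hu1 _) (norm_nonneg _) zero_le_one
      _ = 1 := one_mul 1
  obtain ⟨Z, hZ⟩ : ∃ Z : ℕ × ℕ → ℤ → ℂ, ∀ t n, Z t n = ∑ γ ∈ Γ, (ω t γ : ℂ) * c t γ n := ⟨_, fun _ _ => rfl⟩
  have hZ1 : ∀ t n, ‖Z t n‖ ≤ Γ.card := by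
    intro t n
    rw [hZ]
    calc ‖∑ γ ∈ Γ, (ω t γ : ℂ) * c t γ n‖ ≤ ∑ γ ∈ Γ, ‖(ω t γ : ℂ) * c t γ n‖ := norm_sum_le _ _
      _ ≤ ∑ γ ∈ Γ, (1 : ℝ) := by
          refine sum_le_sum fun γ _ => ?_
          rw [norm_mul, Complex.norm_real, Real.norm_eq_abs]
          calc |ω t γ| * ‖c t γ n‖ ≤ 1 * 1 := mul_le_mul (hω t γ) (hc1 t γ n) (norm_nonneg _) zero_le_one
            _ = 1 := one_mul 1
      _ = Γ.card := by simp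
  obtain ⟨y, hy⟩ : ∃ y : ℕ × ℕ → ℤ → ℝ, ∀ t n, y t n = ∑ γ ∈ Γ, ω t γ * (c t γ n).re := ⟨_, fun _ _ => rfl⟩
  have hyre : ∀ t n, y t n = (Z t n).re := by
    intro t n
    rw [hy, hZ, Complex.re_sum]
    refine sum_congr rfl fun γ _ => ?_
    rw [Complex.re_ofReal_mul]
  have hyZ : ∀ t n, |y t n| ≤ ‖Z t n‖ := fun t n => by
    rw [hyre]
    exact Complex.abs_re_le_norm _
  -- goal in the new notation
  have hgoal : ∀ t, (fun n => |∑ γ ∈ Ej ×ˢ A, ω t γ * (inner ℂ (b ((t.1 * t.2) * (γ.1 * γ.2)))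
        (((T ^ (c0 * (γ.1 * γ.2))) ^ n) (f (c0 * (γ.1 * γ.2)) - PV (T ^ (c0 * (γ.1 * γ.2))) 1 (f (c0 * (γ.1 * γ.2))))) : ℂ).re|) =
      fun n : ℤ => |y t n| := by
    intro t
    funext n
    rw [hy, hΓ]
    simp only [hcdef, hu]
  rw [sum_congr rfl fun t _ => congrArg M'.m (hgoal t), ← hΓ, ← hS]
  have hfull : ∑ t ∈ S, M.m (fun n => ‖Z t n‖ ^ 2) ≤ 8 * √(√η) * (S.card * (Γ.card : ℝ) ^ 2) := by
    have h1 := err_full M hM T f b hf hb Ei Ej A hA hEj c0 hc hc0 η hη hη1 hcard hfol ω hω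
    rw [← hΓ, ← hS] at h1
    simp only [hZ, hcdef, hu]
    exact h1
  have hG : ∀ t n, 0 ≤ ‖Z t n‖ ^ 2 ∧ ‖Z t n‖ ^ 2 ≤ (Γ.card : ℝ) ^ 2 := fun t n =>
    ⟨by positivity, pow_le_pow_left₀ (norm_nonneg _) (hZ1 t n) 2⟩
  have hrl : ∀ t, M'.m (fun n => ‖Z t n‖ ^ 2) ≤ 2 * √w * (M.m (fun n => ‖Z t n‖ ^ 2) + (Γ.card : ℝ) ^ 2 / w) := by
    intro t
    refine rel_le hM hDi hrel w hw (fun n => ‖Z t n‖ ^ 2) ((Γ.card : ℝ) ^ 2) (hG t) ?_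
    intro Y hY
    have h1 := sigma_le Γ M hM (fun γ => T ^ (c0 * (γ.1 * γ.2))) (fun γ => b ((t.1 * t.2) * (γ.1 * γ.2)))
      (fun γ => u (c0 * (γ.1 * γ.2))) (ω t) (fun γ _ => hω t γ) (fun γ _ => hb _) (fun γ _ => hu1 _) Y hY
    simp only [hZ, hcdef]
    exact h1
  have hw0 : (0 : ℝ) < w := by
    have : 0 < w := hw
    exact_mod_cast this
  have hQ : ∑ t ∈ S, M'.m (fun n => ‖Z t n‖ ^ 2) ≤
      2 * √w * (8 * √(√η) + 1 / w) * (S.card * (Γ.card : ℝ) ^ 2) := by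
    calc ∑ t ∈ S, M'.m (fun n => ‖Z t n‖ ^ 2)
        ≤ ∑ t ∈ S, 2 * √w * (M.m (fun n => ‖Z t n‖ ^ 2) + (Γ.card : ℝ) ^ 2 / w) := sum_le_sum fun t _ => hrl t
      _ = 2 * √w * (∑ t ∈ S, M.m (fun n => ‖Z t n‖ ^ 2) + S.card * ((Γ.card : ℝ) ^ 2 / w)) := by
          rw [← mul_sum, sum_add_distrib, sum_const, nsmul_eq_mul]
      _ ≤ 2 * √w * (8 * √(√η) * (S.card * (Γ.card : ℝ) ^ 2) + S.card * ((Γ.card : ℝ) ^ 2 / w)) := by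
          apply mul_le_mul_of_nonneg_left _ (by positivity)
          linarith
      _ = 2 * √w * (8 * √(√η) + 1 / w) * (S.card * (Γ.card : ℝ) ^ 2) := by ring
  have hyb : ∀ t, Bdd (y t) := fun t => ⟨Γ.card, fun n => (hyZ t n).trans (hZ1 t n)⟩
  have hyab : ∀ t, Bdd fun n => |y t n| := fun t => ⟨Γ.card, fun n => by
    rw [abs_abs]
    exact (hyZ t n).trans (hZ1 t n)⟩
  have hsq : ∀ t, (M'.m fun n => |y t n|) ^ 2 ≤ M'.m (fun n => ‖Z t n‖ ^ 2) := by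
    intro t
    refine (M'.sq_le (hyab t)).trans ?_
    refine M'.mono ⟨(Γ.card : ℝ) ^ 2, fun n => ?_⟩ ⟨(Γ.card : ℝ) ^ 2, fun n => ?_⟩ fun n => ?_
    · rw [abs_of_nonneg (by positivity)]
      exact pow_le_pow_left₀ (abs_nonneg _) ((hyZ t n).trans (hZ1 t n)) 2
    · rw [abs_of_nonneg (by positivity)]
      exact (hG t n).2
    · exact pow_le_pow_left₀ (abs_nonneg _) (hyZ t n) 2
  have hcs : (∑ t ∈ S, M'.m fun n => |y t n|) ^ 2 ≤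
      2 * √w * (8 * √(√η) + 1 / w) * (S.card * (Γ.card : ℝ)) ^ 2 := by
    calc (∑ t ∈ S, M'.m fun n => |y t n|) ^ 2 ≤ S.card * ∑ t ∈ S, (M'.m fun n => |y t n|) ^ 2 :=
          sq_sum_le_card_mul_sum_sq
      _ ≤ S.card * ∑ t ∈ S, M'.m (fun n => ‖Z t n‖ ^ 2) :=
          mul_le_mul_of_nonneg_left (sum_le_sum fun t _ => hsq t) (by positivity)
      _ ≤ S.card * (2 * √w * (8 * √(√η) + 1 / w) * (S.card * (Γ.card : ℝ) ^ 2)) :=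
          mul_le_mul_of_nonneg_left hQ (by positivity)
      _ = 2 * √w * (8 * √(√η) + 1 / w) * (S.card * (Γ.card : ℝ)) ^ 2 := by ring
  have hx : ∑ t ∈ S, (M'.m fun n => |y t n|) ≤
      √(2 * √w * (8 * √(√η) + 1 / w) * (S.card * (Γ.card : ℝ)) ^ 2) := Real.le_sqrt_of_sq_le hcs
  rw [Real.sqrt_mul (by positivity), Real.sqrt_sq (by positivity)] at hx
  exact hx

end Pool.Agent.AA
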