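import Pool.Agent.AA.NstB

/-! AA (one of D, 2D, .., ND), module PUL: choice of signs in a nested mean. -/

set_option autoImplicit false

namespace Pool.Agent.AA

open Finset Filter Topology Pool.Agent.StrA

/-- PUL.  PROOF: `ω t γ = ±1` the sign of `Nst (W t * X t γ)`.  `∑_γ |Nst (W t X t γ)| = Nst (W t ∑_γ ω X t γ) ≤ Nst (|∑_γ ω X t γ|)`
(`|W t| ≤ 1`), and (`Nst_append`) this is `Nst L2 (m_i (Nst L1 ..))`; the function does not depend on the variables of `L1`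
(`Nst_indep`).  Sum over `t` inside, `h ω`, and the nested mean of a function `≤ K` is `≤ K`. -/
theorem pull {ι : Type} [DecidableEq ι] (Ms : ι → LM) (L1 L2 : List ι) (i : ι) (hnd : (L1 ++ i :: L2).Nodup)
    {τ κ : Type*} [DecidableEq τ] [DecidableEq κ] (S : Finset τ) (Γ : Finset κ) (W : τ → (ι → ℤ) → ℝ) (X : τ → κ → (ι → ℤ) → ℝ)
    (hW : ∀ t F, |W t F| ≤ 1) (C : ℝ) (hX : ∀ t γ F, |X t γ F| ≤ C)
    (hdep : ∀ t γ F, ∀ k ∈ L1, ∀ x, X t γ (Function.update F k x) = X t γ F) (K : ℝ)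
    (h : ∀ ω : τ → κ → ℝ, (∀ t γ, |ω t γ| ≤ 1) → ∀ F : ι → ℤ,
      ∑ t ∈ S, (Ms i).m (fun n => |∑ γ ∈ Γ, ω t γ * X t γ (Function.update F i n)|) ≤ K) (F0 : ι → ℤ) :
    ∑ t ∈ S, ∑ γ ∈ Γ, |Nst Ms (L1 ++ i :: L2) (fun F => W t F * X t γ F) F0| ≤ K := by
  obtain ⟨N, hN⟩ : ∃ N : τ → κ → ℝ, ∀ t γ, N t γ = Nst Ms (L1 ++ i :: L2) (fun F => W t F * X t γ F) F0 :=
    ⟨_, fun _ _ => rfl⟩
  obtain ⟨ω, hω⟩ : ∃ ω : τ → κ → ℝ, ∀ t γ, ω t γ = if 0 ≤ N t γ then 1 else -1 := ⟨_, fun _ _ => rfl⟩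
  have hω1 : ∀ t γ, |ω t γ| ≤ 1 := fun t γ => by
    rw [hω]
    split_ifs <;> simp
  have hωN : ∀ t γ, |N t γ| = ω t γ * N t γ := fun t γ => by
    rw [hω]
    split_ifs with h0
    · rw [one_mul, abs_of_nonneg h0]
    · rw [neg_one_mul, abs_of_neg (not_le.mp h0)]
  -- the function of the inner sum
  obtain ⟨G, hG⟩ : ∃ G : τ → (ι → ℤ) → ℝ, ∀ t F, G t F = |∑ γ ∈ Γ, ω t γ * X t γ F| := ⟨_, fun _ _ => rfl⟩
  have hG0 : ∀ t F, 0 ≤ G t F := fun t F => by rw [hG]; exact abs_nonneg _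
  have hGC : ∀ t F, G t F ≤ Γ.card * C := fun t F => by
    rw [hG]
    calc |∑ γ ∈ Γ, ω t γ * X t γ F| ≤ ∑ γ ∈ Γ, |ω t γ * X t γ F| := abs_sum_le_sum_abs _ _
      _ ≤ ∑ γ ∈ Γ, C := by
          refine sum_le_sum fun γ _ => ?_
          rw [abs_mul]
          calc |ω t γ| * |X t γ F| ≤ 1 * C :=
                mul_le_mul (hω1 t γ) (hX t γ F) (abs_nonneg _) zero_le_one
            _ = C := one_mul C
      _ = Γ.card * C := by rw [sum_const, nsmul_eq_mul]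
  have hGabs : ∀ t F, |G t F| ≤ Γ.card * C := fun t F => by
    rw [abs_of_nonneg (hG0 t F)]
    exact hGC t F
  have hGdep : ∀ t F, ∀ k ∈ L1, ∀ x, G t (Function.update F k x) = G t F := by
    intro t F k hk x
    rw [hG, hG]
    congr 1
    exact sum_congr rfl fun γ _ => by rw [hdep t γ F k hk x]
  obtain ⟨H, hH⟩ : ∃ H : τ → (ι → ℤ) → ℝ, ∀ t F, H t F = (Ms i).m fun n => G t (Function.update F i n) :=
    ⟨_, fun _ _ => rfl⟩
  have h1 : ∀ t, ∑ γ ∈ Γ, |N t γ| ≤ Nst Ms L2 (H t) F0 := by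
    intro t
    have e1 : ∑ γ ∈ Γ, |N t γ| =
        Nst Ms (L1 ++ i :: L2) (fun F => ∑ γ ∈ Γ, ω t γ * (W t F * X t γ F)) F0 := by
      rw [Nst_sum Ms Γ (L1 ++ i :: L2) (ω t) (fun γ F => W t F * X t γ F) F0]
      exact sum_congr rfl fun γ _ => by rw [hωN, hN]
    have e2 : ∀ F, ∑ γ ∈ Γ, ω t γ * (W t F * X t γ F) = W t F * ∑ γ ∈ Γ, ω t γ * X t γ F := by
      intro F
      rw [mul_sum]
      exact sum_congr rfl fun γ _ => by ring
    have e3 : ∀ F, |∑ γ ∈ Γ, ω t γ * (W t F * X t γ F)| ≤ G t F := by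
      intro F
      rw [e2, abs_mul, hG]
      calc |W t F| * |∑ γ ∈ Γ, ω t γ * X t γ F| ≤ 1 * |∑ γ ∈ Γ, ω t γ * X t γ F| :=
            mul_le_mul_of_nonneg_right (hW t F) (abs_nonneg _)
        _ = _ := one_mul _
    have e4 : Nst Ms (L1 ++ i :: L2) (fun F => ∑ γ ∈ Γ, ω t γ * (W t F * X t γ F)) F0 ≤
        Nst Ms (L1 ++ i :: L2) (G t) F0 :=
      Nst_mono Ms _ (C := Γ.card * C) (fun F => (e3 F).trans (hGC t F)) (hGabs t)
        (fun F => (le_abs_self _).trans (e3 F)) F0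
    have e5 : Nst Ms (L1 ++ i :: L2) (G t) F0 = Nst Ms L2 (H t) F0 := by
      rw [Nst_append]
      have e6 : (fun F' => Nst Ms L1 (G t) F') = G t :=
        funext fun F' => Nst_indep Ms L1 (G t) (hGdep t) F'
      rw [e6]
      have e7 : H t = fun F => (Ms i).m fun n => G t (Function.update F i n) := funext fun F => hH t F
      rw [e7]
      rfl
    rw [e1, ← e5]
    exact e4
  have hHK : ∀ F, ∑ t ∈ S, H t F ≤ K := by
    intro F
    have h2 := h ω hω1 F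
    refine le_trans (le_of_eq ?_) h2
    refine sum_congr rfl fun t _ => ?_
    rw [hH]
    congr 1
    exact funext fun n => hG t _
  have hH0 : ∀ F, 0 ≤ ∑ t ∈ S, H t F := by
    intro F
    refine sum_nonneg fun t _ => ?_
    rw [hH]
    exact (Ms i).nonneg' _ ⟨Γ.card * C, fun x => hGabs t _⟩ fun x => hG0 t _
  have hK0 : 0 ≤ K := (hH0 F0).trans (hHK F0)
  calc ∑ t ∈ S, ∑ γ ∈ Γ, |Nst Ms (L1 ++ i :: L2) (fun F => W t F * X t γ F) F0|
      = ∑ t ∈ S, ∑ γ ∈ Γ, |N t γ| := by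
        refine sum_congr rfl fun t _ => sum_congr rfl fun γ _ => ?_
        rw [hN]
    _ ≤ ∑ t ∈ S, Nst Ms L2 (H t) F0 := sum_le_sum fun t _ => h1 t
    _ = Nst Ms L2 (fun F => ∑ t ∈ S, 1 * H t F) F0 := by
        rw [Nst_sum Ms S L2 (fun _ => 1) H F0]
        exact sum_congr rfl fun t _ => by rw [one_mul]
    _ ≤ Nst Ms L2 (fun _ => K) F0 := by
        have e8 : ∀ F, ∑ t ∈ S, 1 * H t F = ∑ t ∈ S, H t F := fun F =>
          sum_congr rfl fun t _ => one_mul _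
        refine Nst_mono Ms L2 (C := K) (fun F => ?_) (fun F => ?_) (fun F => ?_) F0
        · rw [e8, abs_of_nonneg (hH0 F)]
          exact hHK F
        · rw [abs_of_nonneg hK0]
        · rw [e8]
          exact hHK F
    _ = K := Nst_indep Ms L2 (fun _ => K) (fun _ _ _ _ => rfl) F0

end Pool.Agent.AA
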