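import Pool.Agent.AA.NstB

/-! AA (one of D, 2D, .., ND), module TELA. -/

set_option autoImplicit false

namespace Pool.Agent.AA

open Finset Filter Topology Pool.Agent.StrA

variable {ι : Type} [LinearOrder ι] (B : ℕ → Set ℤ) (lam : ι → ℕ) (Ms : ι → LM) (fb : ι → ℕ → ℤ → ℝ)

/-- TEL1 -/
theorem ind_mem (E : Set ℤ) (x : ℤ) : 0 ≤ ind E x ∧ ind E x ≤ 1 := by
  unfold ind
  by_cases h : x ∈ E <;> simp [h]

private theorem tela_prod {κ : Type*} (s : Finset κ) (f : κ → ℝ) (h : ∀ a ∈ s, 0 ≤ f a ∧ f a ≤ 1) :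
    0 ≤ ∏ a ∈ s, f a ∧ ∏ a ∈ s, f a ≤ 1 :=
  ⟨Finset.prod_nonneg fun a ha => (h a ha).1,
    Finset.prod_le_one (fun a ha => (h a ha).1) fun a ha => (h a ha).2⟩

/-- TEL2 -/
theorem WW_mem (S : Finset ι) (F : ι → ℤ) : 0 ≤ WW B lam S F ∧ WW B lam S F ≤ 1 := by
  unfold WW
  exact tela_prod _ _ fun b _ => tela_prod _ _ fun a _ => ind_mem _ _

/-- TEL3 -/
theorem bb_mem (hfb : ∀ j g x, 0 ≤ fb j g x ∧ fb j g x ≤ 1) (j : ι) (S : Finset ι) (i : ι) (F : ι → ℤ) (x : ℤ) :
    0 ≤ bb B lam fb j S i F x ∧ bb B lam fb j S i F x ≤ 1 := by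
  unfold bb
  have h1 := tela_prod (S.filter (· < i))
    (fun a => ind (B (lam j / lam a)) (x - ((lam j / lam a : ℕ) : ℤ) * F a)) fun a _ => ind_mem _ _
  have h2 := tela_prod (S.filter (i < ·)) (fun a => fb j (lam j / lam a) x) fun a _ => hfb _ _ _
  exact ⟨mul_nonneg h1.1 h2.1, mul_le_one₀ h1.2 h2.1 h2.2⟩

/-- TEL4 -/
theorem dd_abs (hfb : ∀ j g x, 0 ≤ fb j g x ∧ fb j g x ≤ 1) (j i : ι) (F : ι → ℤ) (x : ℤ) :
    |dd B lam fb j i F x| ≤ 1 := by
  unfold dd
  have h1 := ind_mem (B (lam j / lam i)) (x - ((lam j / lam i : ℕ) : ℤ) * F i)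
  have h2 := hfb j (lam j / lam i) x
  rw [abs_le]
  constructor <;> linarith [h1.1, h1.2, h2.1, h2.2]

/-- TEL5.  Telescoping identity: `∏ f - ∏ g = ∑_i (∏_{a < i} f a) (∏_{a > i} g a) (f i - g i)`.
PROOF: induction on the maximum of `S` (`Finset.induction_on_max`). -/
theorem prod_tel (S : Finset ι) (f g : ι → ℝ) :
    ∏ a ∈ S, f a - ∏ a ∈ S, g a =
      ∑ i ∈ S, ((∏ a ∈ S.filter (· < i), f a) * ∏ a ∈ S.filter (i < ·), g a) * (f i - g i) := by
  induction S using Finset.induction_on_max with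
  | empty => simp
  | insert j S hj ih =>
    have hjS : j ∉ S := fun h => lt_irrefl _ (hj j h)
    have e1 : (insert j S).filter (· < j) = S := by
      ext a
      rw [Finset.mem_filter, Finset.mem_insert]
      constructor
      · rintro ⟨rfl | h, h2⟩
        · exact absurd h2 (lt_irrefl _)
        · exact h
      · intro h
        exact ⟨Or.inr h, hj a h⟩
    have e2 : (insert j S).filter (j < ·) = ∅ := by
      ext a
      rw [Finset.mem_filter, Finset.mem_insert]
      constructor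
      · rintro ⟨rfl | h, h2⟩
        · exact absurd h2 (lt_irrefl _)
        · exact absurd h2 (not_lt_of_gt (hj a h))
      · intro h
        exact absurd h (Finset.notMem_empty _)
    have e3 : ∀ i ∈ S, (insert j S).filter (· < i) = S.filter (· < i) := by
      intro i hi
      rw [Finset.filter_insert, if_neg (not_lt_of_gt (hj i hi))]
    have e4 : ∀ i ∈ S, (insert j S).filter (i < ·) = insert j (S.filter (i < ·)) := by
      intro i hi
      rw [Finset.filter_insert, if_pos (hj i hi)]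
    have e5 : ∀ i ∈ S, j ∉ S.filter (i < ·) := fun i _ h => hjS (Finset.mem_filter.1 h).1
    rw [Finset.prod_insert hjS, Finset.prod_insert hjS, Finset.sum_insert hjS, e1, e2,
      Finset.prod_empty, mul_one]
    have e6 : ∑ i ∈ S, ((∏ a ∈ (insert j S).filter (· < i), f a) *
        ∏ a ∈ (insert j S).filter (i < ·), g a) * (f i - g i) =
        g j * ∑ i ∈ S, ((∏ a ∈ S.filter (· < i), f a) * ∏ a ∈ S.filter (i < ·), g a) *
          (f i - g i) := by
      rw [Finset.mul_sum]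
      refine Finset.sum_congr rfl fun i hi => ?_
      rw [e3 i hi, e4 i hi, Finset.prod_insert (e5 i hi)]
      ring
    rw [e6, ← ih]
    ring

end Pool.Agent.AA
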