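import Pool.Agent.AA.En1
import Pool.Agent.AA.EraB
import Pool.Agent.AA.Pul
import Pool.Agent.AA.TelA

/-! AA (one of D, 2D, .., ND), module EN2: the error of one edge, averaged over the slopes of its ends. -/

set_option autoImplicit false

namespace Pool.Agent.AA

open Finset Filter Topology Pool.Agent.StrA

private theorem EN2_WW_congr {ι : Type} [LinearOrder ι] (B : ℕ → Set ℤ) (lam lam' : ι → ℕ) (S : Finset ι)
    (h : ∀ a ∈ S, lam a = lam' a) (F : ι → ℤ) : WW B lam S F = WW B lam' S F := by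
  unfold WW
  refine Finset.prod_congr rfl fun b hb => Finset.prod_congr rfl fun a ha => ?_
  rw [h b hb, h a (Finset.mem_filter.mp ha).1]

/-- the function `bb` as a function of the number `m = D_j L_j β` -/
private noncomputable def EN2_bf {ι : Type} [LinearOrder ι] (B : ℕ → Set ℤ) (lam : ι → ℕ) (fbj : ℕ → ℤ → ℝ) (S : Finset ι)
    (i : ι) (m : ℕ) (F : ι → ℤ) (x : ℤ) : ℝ :=
  (∏ a ∈ S.filter (· < i), ind (B (m / lam a)) (x - ((m / lam a : ℕ) : ℤ) * F a)) *
    ∏ a ∈ S.filter (i < ·), fbj (m / lam a) x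

private theorem EN2_bb {ι : Type} [LinearOrder ι] (B : ℕ → Set ℤ) (lam lam' : ι → ℕ) (fb : ι → ℕ → ℤ → ℝ) (S : Finset ι)
    (i j : ι) (h : ∀ a ∈ S, a ≠ i → lam a = lam' a) (F : ι → ℤ) (x : ℤ) :
    bb B lam fb j S i F x = EN2_bf B lam' (fb j) S i (lam j) F x := by
  unfold bb EN2_bf
  congr 1
  · refine Finset.prod_congr rfl fun a ha => ?_
    rw [h a (Finset.mem_filter.mp ha).1 (Finset.mem_filter.mp ha).2.ne]
  · refine Finset.prod_congr rfl fun a ha => ?_
    rw [h a (Finset.mem_filter.mp ha).1 (Finset.mem_filter.mp ha).2.ne']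

private theorem EN2_bf_mem {ι : Type} [LinearOrder ι] (B : ℕ → Set ℤ) (lam : ι → ℕ) (fbj : ℕ → ℤ → ℝ)
    (hfb : ∀ g x, 0 ≤ fbj g x ∧ fbj g x ≤ 1) (S : Finset ι) (i : ι) (m : ℕ) (F : ι → ℤ) (x : ℤ) :
    0 ≤ EN2_bf B lam fbj S i m F x ∧ EN2_bf B lam fbj S i m F x ≤ 1 := by
  unfold EN2_bf
  have h1 : 0 ≤ (∏ a ∈ S.filter (· < i), ind (B (m / lam a)) (x - ((m / lam a : ℕ) : ℤ) * F a)) ∧
      (∏ a ∈ S.filter (· < i), ind (B (m / lam a)) (x - ((m / lam a : ℕ) : ℤ) * F a)) ≤ 1 :=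
    ⟨Finset.prod_nonneg fun a _ => (ind_mem _ _).1, Finset.prod_le_one (fun a _ => (ind_mem _ _).1) fun a _ => (ind_mem _ _).2⟩
  have h2 : 0 ≤ (∏ a ∈ S.filter (i < ·), fbj (m / lam a) x) ∧ (∏ a ∈ S.filter (i < ·), fbj (m / lam a) x) ≤ 1 :=
    ⟨Finset.prod_nonneg fun a _ => (hfb _ _).1, Finset.prod_le_one (fun a _ => (hfb _ _).1) fun a _ => (hfb _ _).2⟩
  exact ⟨mul_nonneg h1.1 h2.1, mul_le_one₀ h1.2 h2.1 h2.2⟩

private theorem EN2_bf_update {ι : Type} [LinearOrder ι] (B : ℕ → Set ℤ) (lam : ι → ℕ) (fbj : ℕ → ℤ → ℝ)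
    (S : Finset ι) (i : ι) (m : ℕ) (F : ι → ℤ) (k : ι) (hk : i ≤ k) (n : ℤ) :
    EN2_bf B lam fbj S i m (Function.update F k n) = EN2_bf B lam fbj S i m F := by
  funext x
  unfold EN2_bf
  congr 1
  refine Finset.prod_congr rfl fun a ha => ?_
  rw [Function.update_of_ne ((Finset.mem_filter.mp ha).2.trans_le hk).ne]

/-- the error as a function of the number `m = D_j L_j β` -/
private noncomputable def EN2_Err {ι : Type} [LinearOrder ι] (B : ℕ → Set ℤ) (lam : ι → ℕ) (Ms : ι → LM) (fb : ι → ℕ → ℤ → ℝ)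
    (S : Finset ι) (i j : ι) (W : (ι → ℤ) → ℝ) (m l : ℕ) : ℝ :=
  |Nst Ms (S.sort (· ≥ ·)) (fun F => W F * (Ms j).m fun x => EN2_bf B lam (fb j) S i m F x *
    (ind (B (m / l)) (x - ((m / l : ℕ) : ℤ) * F i) - fb j (m / l) x)) fun _ => 0|

private theorem EN2_inner_abs {ι : Type} [LinearOrder ι] (B : ℕ → Set ℤ) (lam : ι → ℕ) (M : LM) (fbj : ℕ → ℤ → ℝ)
    (hfb : ∀ g x, 0 ≤ fbj g x ∧ fbj g x ≤ 1) (S : Finset ι) (i : ι) (m g : ℕ) (F : ι → ℤ) (n : ℤ) :
    |M.m fun x => EN2_bf B lam fbj S i m F x * (ind (B g) (x - (g : ℤ) * n) - fbj g x)| ≤ 1 := by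
  refine LM.abs_le M fun x => ?_
  rw [abs_mul]
  have h1 := EN2_bf_mem B lam fbj hfb S i m F x
  have h2 := ind_mem (B g) (x - (g : ℤ) * n)
  have h3 := hfb g x
  rw [abs_of_nonneg h1.1]
  have h4 : |ind (B g) (x - (g : ℤ) * n) - fbj g x| ≤ 1 := by
    rw [abs_le]
    constructor <;> linarith [h2.1, h2.2, h3.1, h3.2]
  exact mul_le_one₀ h1.2 (abs_nonneg _) h4

private theorem EN2_Err_mem {ι : Type} [LinearOrder ι] (B : ℕ → Set ℤ) (lam : ι → ℕ) (Ms : ι → LM) (fb : ι → ℕ → ℤ → ℝ)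
    (hfb : ∀ j g x, 0 ≤ fb j g x ∧ fb j g x ≤ 1)
    (S : Finset ι) (i j : ι) (W : (ι → ℤ) → ℝ) (hW : ∀ F, |W F| ≤ 1) (m l : ℕ) :
    0 ≤ EN2_Err B lam Ms fb S i j W m l ∧ EN2_Err B lam Ms fb S i j W m l ≤ 1 := by
  unfold EN2_Err
  refine ⟨abs_nonneg _, Nst_abs_le Ms _ (fun F => ?_) _⟩
  rw [abs_mul]
  exact mul_le_one₀ (hW F) (abs_nonneg _) (EN2_inner_abs B lam (Ms j) (fb j) (hfb j) S i m (m / l) F (F i))

/-- EN2.  The error of the edge `i < j`, summed over the slopes of `i` and `j`. -/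
theorem err_pair {r : ℕ} (B : ℕ → Set ℤ) (ε : ℝ) (R : ℕ) (A : Finset ℕ) (hA : DivSet A) (η : ℝ) (hη : 0 < η) (hη1 : η ≤ 1)
    (hcard : (1 / η) ^ 4 ≤ (A.card : ℝ)) (w : ℕ) (hw : 1 ≤ w) (δ : ℝ)
    (y : Fin r → Lv) (Ms : Fin r → LM) (fb : Fin r → ℕ → ℤ → ℝ) (hfb : ∀ j g x, 0 ≤ fb j g x ∧ fb j g x ≤ 1)
    (i j : Fin r) (hij : i < j) (hyi : (y i).Ok B ε R A) (hyj : (y j).Ok B ε R A) (hlt : (y i).Lt (η ^ 4) A (y j))
    (hrel : IsRel (y i).M (Ms i) (y i).D) (Q : RB (Ms j).mean (y j).D) (hQ : Near Q B δ (fb j))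
    (S : Finset (Fin r)) (hS : ∀ a ∈ S, a < j) (hiS : i ∈ S) (p : Fin r → ℕ × ℕ) :
    ∑ t ∈ (y i).E ×ˢ A, ∑ q ∈ (y j).E ×ˢ A,
      err B (fun k => (y k).sl (Function.update (Function.update p i t) j q k)) Ms fb j S i ≤
      (√(2 * √w * (8 * √(√η) + 1 / w)) + δ + η ^ 4) * (((y i).E ×ˢ A).card * ((y j).E ×ˢ A).card) := by
  classical
  -- notation
  set lamp : Fin r → ℕ := fun k => (y k).sl (p k) with hlamp
  set W : ℕ × ℕ → (Fin r → ℤ) → ℝ := fun t F => WW B (fun k => (y k).sl (Function.update p i t k)) S F with hWdef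
  have hW : ∀ t F, |W t F| ≤ 1 := fun t F => by
    have h := WW_mem B (fun k => (y k).sl (Function.update p i t k)) S F
    rw [abs_of_nonneg h.1]
    exact h.2
  set Er : ℕ × ℕ → ℕ → ℝ := fun t β => EN2_Err B lamp Ms fb S i j (W t) ((y j).D * (y j).L * β) ((y i).sl t) with hEr
  have hErm : ∀ t β, 0 ≤ Er t β ∧ Er t β ≤ 1 := fun t β => EN2_Err_mem B lamp Ms fb hfb S i j (W t) (hW t) _ _
  have hjS : j ∉ S := fun h => lt_irrefl _ (hS j h)
  -- A is not empty
  have hAne : A.Nonempty := by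
    rw [← Finset.card_pos]
    by_contra h0
    have h1 : A.card = 0 := by omega
    rw [h1, Nat.cast_zero] at hcard
    have h2 : 0 < (1 / η) ^ 4 := by positivity
    linarith
  obtain ⟨e0, he0⟩ := hyi.ne
  obtain ⟨a0, ha0⟩ := hAne
  -- the constant `c0`
  have hDL : (y i).D * (y i).L ∣ (y j).L := dvd_trans (dvd_mul_right _ _) (hlt.dvd e0 he0 a0 ha0)
  obtain ⟨c0, hc0⟩ := hDL
  have hDLpos : 0 < (y i).D * (y i).L := Nat.mul_pos hyi.posD hyi.posL
  have hc0pos : 0 < c0 := by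
    rcases Nat.eq_zero_or_pos c0 with h | h
    · have := hyj.posL
      rw [hc0, h, Nat.mul_zero] at this
      exact absurd this (lt_irrefl _)
    · exact h
  have hadvd : ∀ e ∈ (y i).E, ∀ a ∈ A, e * a ∣ c0 := by
    intro e he a ha
    have h := hlt.dvd e he a ha
    rw [hc0] at h
    exact Nat.dvd_of_mul_dvd_mul_left hDLpos h
  -- the error of the statement is `Er`
  have herr : ∀ t q, err B (fun k => (y k).sl (Function.update (Function.update p i t) j q k)) Ms fb j S i =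
      Er t (q.1 * q.2) := by
    intro t q
    simp only [err, hEr, EN2_Err, dd]
    have hlj : (y j).sl (Function.update (Function.update p i t) j q j) = (y j).D * (y j).L * (q.1 * q.2) := by
      rw [Function.update_self]
      rfl
    have hli : (y i).sl (Function.update (Function.update p i t) j q i) = (y i).sl t := by
      rw [Function.update_of_ne hij.ne, Function.update_self]
    have hb : ∀ F x, bb B (fun k => (y k).sl (Function.update (Function.update p i t) j q k)) fb j S i F x =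
        EN2_bf B lamp (fb j) S i ((y j).D * (y j).L * (q.1 * q.2)) F x := by
      intro F x
      have h1 := EN2_bb B (fun k => (y k).sl (Function.update (Function.update p i t) j q k)) lamp fb S i j
        (fun a ha hai => by
          simp only [hlamp]
          rw [Function.update_of_ne (hS a ha).ne, Function.update_of_ne hai]) F x
      exact h1.trans (congrArg (fun m => EN2_bf B lamp (fb j) S i m F x) hlj)
    have hWW : ∀ F, WW B (fun k => (y k).sl (Function.update (Function.update p i t) j q k)) S F = W t F := by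
      intro F
      refine EN2_WW_congr B _ _ S (fun a ha => ?_) F
      show (y a).sl _ = (y a).sl _
      rw [Function.update_of_ne (hS a ha).ne]
    simp only [hb, hWW, hlj, hli]
  have hstep1 : ∑ t ∈ (y i).E ×ˢ A, ∑ q ∈ (y j).E ×ˢ A,
      err B (fun k => (y k).sl (Function.update (Function.update p i t) j q k)) Ms fb j S i ≤
      ∑ t ∈ (y i).E ×ˢ A, ∑ q ∈ (y j).E ×ˢ A, Er t ((t.1 * t.2) * (q.1 * q.2)) +
        η ^ 4 * (((y i).E ×ˢ A).card * ((y j).E ×ˢ A).card) := by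
    have h1 : ∀ t ∈ (y i).E ×ˢ A, ∑ q ∈ (y j).E ×ˢ A, Er t (q.1 * q.2) ≤
        ∑ q ∈ (y j).E ×ˢ A, Er t ((t.1 * t.2) * (q.1 * q.2)) + η ^ 4 * ((y j).E ×ˢ A).card := by
      intro t ht
      rw [Finset.mem_product] at ht
      rw [Finset.sum_product_right, Finset.sum_product_right]
      have h2 : ∀ a ∈ A, ∑ e ∈ (y j).E, Er t (e * a) ≤
          ∑ e ∈ (y j).E, Er t ((t.1 * t.2) * (e * a)) + η ^ 4 * 1 * (y j).E.card := by
        intro a _
        have h3 := FolBy.sum_le (Nat.mul_pos (hyi.posE _ ht.1) (hA.1 _ ht.2)) (hlt.fol _ ht.1 _ ht.2)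
          (h := fun n => Er t (n * a)) (C := 1) (fun n => (hErm t _).1) (fun n => (hErm t _).2)
        simp only [mul_assoc] at h3 ⊢
        exact h3
      refine (Finset.sum_le_sum h2).trans (le_of_eq ?_)
      rw [Finset.sum_add_distrib, Finset.sum_const, Finset.card_product]
      push_cast
      rw [nsmul_eq_mul]
      ring
    simp only [herr]
    refine (Finset.sum_le_sum h1).trans (le_of_eq ?_)
    rw [Finset.sum_add_distrib, Finset.sum_const, nsmul_eq_mul]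
    ring
  -- the main term
  have hG : ∀ t ∈ (y i).E ×ˢ A, ∀ q : ℕ × ℕ,
      ((y j).D * (y j).L * ((t.1 * t.2) * (q.1 * q.2))) / ((y i).sl t) = (y j).D * (c0 * (q.1 * q.2)) := by
    intro t ht q
    rw [Finset.mem_product] at ht
    have htp : 0 < t.1 * t.2 := Nat.mul_pos (hyi.posE _ ht.1) (hA.1 _ ht.2)
    have h1 : (y j).D * (y j).L * ((t.1 * t.2) * (q.1 * q.2)) = ((y j).D * (c0 * (q.1 * q.2))) * ((y i).sl t) := by
      unfold Lv.sl
      rw [hc0]
      ring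
    rw [h1]
    exact Nat.mul_div_cancel _ (Nat.mul_pos hDLpos htp)
  set X : ℕ × ℕ → ℕ × ℕ → (Fin r → ℤ) → ℝ := fun t q F =>
    (inner ℂ (Q.v (EN2_bf B lamp (fb j) S i ((y j).D * (y j).L * ((t.1 * t.2) * (q.1 * q.2))) F))
      (((Q.R.T ^ (c0 * (q.1 * q.2))) ^ (F i)) (uu Q B (c0 * (q.1 * q.2)))) : ℂ).re with hX
  have hvle : ∀ f : ℤ → ℝ, (∀ x, 0 ≤ f x ∧ f x ≤ 1) → ‖Q.v f‖ ≤ 1 := by
    intro f hf
    refine Rep.norm_le Q.R _ 1 zero_le_one fun x => ?_
    rw [Complex.norm_real, Real.norm_eq_abs, abs_of_nonneg (hf x).1]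
    exact (hf x).2
  have hule : ∀ k, ‖uu Q B k‖ ≤ 1 := by
    intro k
    unfold uu
    exact (PV_sub_norm_le _ _ _).trans (hvle _ fun x => ind_mem _ _)
  have hXle : ∀ t q F, |X t q F| ≤ 1 := by
    intro t q F
    simp only [hX]
    refine (Complex.abs_re_le_norm _).trans ((norm_inner_le_norm _ _).trans ?_)
    rw [LinearIsometryEquiv.norm_map]
    exact mul_le_one₀ (hvle _ fun x => EN2_bf_mem B lamp (fb j) (hfb j) S i _ F x) (norm_nonneg _) (hule _)
  have hstep2 : ∀ t ∈ (y i).E ×ˢ A, ∀ q ∈ (y j).E ×ˢ A, Er t ((t.1 * t.2) * (q.1 * q.2)) ≤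
      |Nst Ms (S.sort (· ≥ ·)) (fun F => W t F * X t q F) fun _ => 0| + δ := by
    intro t ht q hq
    rw [Finset.mem_product] at hq
    have hk : 0 < c0 * (q.1 * q.2) := Nat.mul_pos hc0pos (Nat.mul_pos (hyj.posE _ hq.1) (hA.1 _ hq.2))
    simp only [hEr, EN2_Err, hG t ht q]
    set m : ℕ := (y j).D * (y j).L * ((t.1 * t.2) * (q.1 * q.2)) with hm
    set k : ℕ := c0 * (q.1 * q.2) with hkdef
    set Y : (Fin r → ℤ) → ℝ := fun F => (Ms j).m fun x => EN2_bf B lamp (fb j) S i m F x *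
      (ind (B ((y j).D * k)) (x - (((y j).D * k : ℕ) : ℤ) * F i) - fb j ((y j).D * k) x) with hY
    have hYX : ∀ F, |Y F - X t q F| ≤ δ := by
      intro F
      have h := inner_near Q B δ (fb j) (hfb j) hQ (EN2_bf B lamp (fb j) S i m F)
        (fun x => by
          have h := EN2_bf_mem B lamp (fb j) (hfb j) S i m F x
          rw [abs_of_nonneg h.1]
          exact h.2) k hk (F i)
      exact h
    have hδ0 : 0 ≤ δ := (abs_nonneg _).trans (hYX fun _ => 0)
    have hsub : Nst Ms (S.sort (· ≥ ·)) (fun F => W t F * Y F) (fun _ => 0) =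
        Nst Ms (S.sort (· ≥ ·)) (fun F => W t F * X t q F) (fun _ => 0) +
        Nst Ms (S.sort (· ≥ ·)) (fun F => W t F * (Y F - X t q F)) (fun _ => 0) := by
      have h := Nst_sub Ms (S.sort (· ≥ ·)) (fun F => W t F * Y F) (fun F => W t F * X t q F) (fun _ => 0)
      have h2 : (fun F => W t F * (Y F - X t q F)) = fun F => W t F * Y F - W t F * X t q F := by
        funext F
        ring
      rw [h2, h]
      ring
    rw [hsub]
    refine (abs_add_le _ _).trans (add_le_add_right ?_ _)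
    refine Nst_abs_le Ms _ (fun F => ?_) _
    rw [abs_mul]
    calc |W t F| * |Y F - X t q F| ≤ 1 * δ := mul_le_mul (hW t F) (hYX F) (abs_nonneg _) zero_le_one
      _ = δ := one_mul δ
  -- the list
  obtain ⟨L1, L2, hL⟩ : ∃ L1 L2, S.sort (· ≥ ·) = L1 ++ i :: L2 :=
    List.append_of_mem ((Finset.mem_sort (· ≥ ·)).mpr hiS)
  have hnd : (L1 ++ i :: L2).Nodup := hL ▸ Finset.sort_nodup S (· ≥ ·)
  have hL1 : ∀ k ∈ L1, i < k := by
    intro k hk
    have hs : List.Pairwise (· ≥ ·) (L1 ++ i :: L2) := hL ▸ Finset.pairwise_sort S (· ≥ ·)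
    have h1 : k ≥ i := (List.pairwise_append.mp hs).2.2 k hk i (List.mem_cons_self ..)
    have h2 : k ≠ i := by
      rintro rfl
      exact (List.nodup_append.mp hnd).2.2 _ hk _ (List.mem_cons_self ..) rfl
    exact lt_of_le_of_ne h1 (Ne.symm h2)
  have hpull := pull Ms L1 L2 i hnd ((y i).E ×ˢ A) ((y j).E ×ˢ A) W X hW 1 hXle
    (fun t q F k hk x => by
      simp only [hX]
      rw [EN2_bf_update B lamp (fb j) S i _ F k (hL1 k hk).le, Function.update_of_ne (hL1 k hk).ne])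
    (√(2 * √w * (8 * √(√η) + 1 / w)) * (((y i).E ×ˢ A).card * (((y j).E ×ˢ A).card : ℝ)))
    (fun ω hω F => by
      have h := err_rel (M := (y i).M) (M' := Ms i) hyi.inv hyi.posD hrel Q.R.T
        (fun q => Q.v (ind (B ((y j).D * q))))
        (fun m => Q.v (EN2_bf B lamp (fb j) S i ((y j).D * (y j).L * m) F))
        (fun q => hvle _ fun x => ind_mem _ _)
        (fun m => hvle _ fun x => EN2_bf_mem B lamp (fb j) (hfb j) S i _ F x)
        (y i).E (y j).E A hA hyj.posE c0 (fun a ha => dvd_trans (dvd_mul_left _ _) (hadvd e0 he0 a ha)) hc0pos η hη hη1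
        hcard hlt.folA w hw ω hω
      refine le_trans (le_of_eq ?_) h
      refine Finset.sum_congr rfl fun t _ => ?_
      congr 1
      funext n
      congr 1
      refine Finset.sum_congr rfl fun q _ => ?_
      simp only [hX]
      rw [EN2_bf_update B lamp (fb j) S i _ F i le_rfl, Function.update_self]
      rfl) (fun _ => 0)
  -- conclusion
  have hfin : ∑ t ∈ (y i).E ×ˢ A, ∑ q ∈ (y j).E ×ˢ A, Er t ((t.1 * t.2) * (q.1 * q.2)) ≤
      (√(2 * √w * (8 * √(√η) + 1 / w)) + δ) * (((y i).E ×ˢ A).card * ((y j).E ×ˢ A).card) := by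
    have h1 : ∑ t ∈ (y i).E ×ˢ A, ∑ q ∈ (y j).E ×ˢ A, Er t ((t.1 * t.2) * (q.1 * q.2)) ≤
        ∑ t ∈ (y i).E ×ˢ A, ∑ q ∈ (y j).E ×ˢ A,
          (|Nst Ms (L1 ++ i :: L2) (fun F => W t F * X t q F) fun _ => 0| + δ) := by
      refine Finset.sum_le_sum fun t ht => Finset.sum_le_sum fun q hq => ?_
      rw [← hL]
      exact hstep2 t ht q hq
    refine h1.trans ?_
    simp only [Finset.sum_add_distrib, Finset.sum_const, nsmul_eq_mul]
    rw [add_mul]
    refine add_le_add hpull (le_of_eq ?_)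
    ring
  refine hstep1.trans ?_
  rw [add_mul _ (η ^ 4)]
  exact add_le_add_left hfin _

end Pool.Agent.AA
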