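import Pool.Agent.AA.LMb

/-! AA (one of D, 2D, .., ND), module TP: Parseval under a mean. -/

set_option autoImplicit false

namespace Pool.Agent.AA

open Finset Filter Topology Pool.Agent.StrA

private theorem tp_norm {z : ℂ} (hz : ‖z‖ = 1) (n : ℤ) : ‖z ^ n‖ = 1 := by
  rw [norm_zpow, hz, one_zpow]

/-- TP1.  The mean of a nontrivial character is zero. -/
theorem mean_char (M : LM) (hM : M.Inv 1) {z : ℂ} (hz : ‖z‖ = 1) (h1 : z ≠ 1) : M.mean.c (fun n => z ^ n) = 0 := by
  have hz0 : z ≠ 0 := by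
    intro h; rw [h, norm_zero] at hz; exact zero_ne_one hz
  have hre : Bdd fun n : ℤ => (z ^ n).re :=
    ⟨1, fun n => (Complex.abs_re_le_norm _).trans (tp_norm hz n).le⟩
  have him : Bdd fun n : ℤ => (z ^ n).im :=
    ⟨1, fun n => (Complex.abs_im_le_norm _).trans (tp_norm hz n).le⟩
  set A : ℝ := M.m fun n : ℤ => (z ^ n).re with hA
  set B : ℝ := M.m fun n : ℤ => (z ^ n).im with hB
  have e1 : A = z⁻¹.re * A - z⁻¹.im * B := by
    have h2 := hM _ hre
    have h3 : (fun n : ℤ => (z ^ (n - 1)).re) =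
        fun n : ℤ => z⁻¹.re * (z ^ n).re - z⁻¹.im * (z ^ n).im := by
      funext n
      rw [zpow_sub_one₀ hz0, mul_comm, Complex.mul_re]
    rw [h3, LM.sub, LM.smul, LM.smul] at h2
    exact h2.symm
  have e2 : B = z⁻¹.re * B + z⁻¹.im * A := by
    have h2 := hM _ him
    have h3 : (fun n : ℤ => (z ^ (n - 1)).im) =
        fun n : ℤ => z⁻¹.re * (z ^ n).im + z⁻¹.im * (z ^ n).re := by
      funext n
      rw [zpow_sub_one₀ hz0, mul_comm, Complex.mul_im]
    rw [h3, LM.add, LM.smul, LM.smul] at h2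
    exact h2.symm
  have e3 : M.mean.c (fun n => z ^ n) = (A : ℂ) + (B : ℂ) * Complex.I := rfl
  have e4 : (1 - z⁻¹) * ((A : ℂ) + (B : ℂ) * Complex.I) = 0 := by
    apply Complex.ext
    · simp only [Complex.mul_re, Complex.sub_re, Complex.one_re, Complex.add_re, Complex.ofReal_re,
        Complex.mul_im, Complex.I_re, Complex.I_im, Complex.ofReal_im, Complex.sub_im,
        Complex.one_im, Complex.add_im, Complex.zero_re]
      linarith
    · simp only [Complex.mul_re, Complex.sub_re, Complex.one_re, Complex.add_re, Complex.ofReal_re,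
        Complex.mul_im, Complex.I_re, Complex.I_im, Complex.ofReal_im, Complex.sub_im,
        Complex.one_im, Complex.add_im, Complex.zero_im]
      linarith
  rw [e3]
  rcases mul_eq_zero.1 e4 with h | h
  · exfalso
    apply h1
    have h2 : z⁻¹ = 1 := (sub_eq_zero.1 h).symm
    exact inv_eq_one.1 h2
  · exact h

private theorem tp_lin (M : LM) (c z : ℂ) :
    M.m (fun n : ℤ => (c * z ^ n).re) = (c * M.mean.c (fun n => z ^ n)).re := by
  have h3 : (fun n : ℤ => (c * z ^ n).re) =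
      fun n : ℤ => c.re * (z ^ n).re - c.im * (z ^ n).im := by
    funext n
    rw [Complex.mul_re]
  rw [h3, LM.sub, LM.smul, LM.smul]
  have e3 : M.mean.c (fun n => z ^ n) = ((M.m fun n : ℤ => (z ^ n).re : ℝ) : ℂ) +
      ((M.m fun n : ℤ => (z ^ n).im : ℝ) : ℂ) * Complex.I := rfl
  rw [e3]
  simp

/-- TP2.  Parseval.  PROOF: expand the square; TP1 for `conj z * z'` (`|z| = 1`, so `conj z = z⁻¹`). -/
theorem parseval (M : LM) (hM : M.Inv 1) (Z : Finset ℂ) (hZ : ∀ z ∈ Z, ‖z‖ = 1) (C : ℂ → ℂ) :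
    M.m (fun n => ‖∑ z ∈ Z, C z * z ^ n‖ ^ 2) = ∑ z ∈ Z, ‖C z‖ ^ 2 := by
  classical
  have e1 : (fun n : ℤ => ‖∑ z ∈ Z, C z * z ^ n‖ ^ 2) =
      fun n : ℤ => ∑ z ∈ Z, ∑ w ∈ Z, (((starRingEnd ℂ) (C z) * C w) * (((starRingEnd ℂ) z) * w) ^ n).re := by
    funext n
    have h1 : ((‖∑ z ∈ Z, C z * z ^ n‖ ^ 2 : ℝ) : ℂ) =
        (starRingEnd ℂ) (∑ z ∈ Z, C z * z ^ n) * (∑ w ∈ Z, C w * w ^ n) := by
      rw [Complex.conj_mul']
      push_cast
      rfl
    have h2 : ‖∑ z ∈ Z, C z * z ^ n‖ ^ 2 =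
        ((starRingEnd ℂ) (∑ z ∈ Z, C z * z ^ n) * (∑ w ∈ Z, C w * w ^ n)).re := by
      rw [← h1, Complex.ofReal_re]
    rw [h2, map_sum, Finset.sum_mul_sum, Complex.re_sum]
    refine Finset.sum_congr rfl fun z _ => ?_
    rw [Complex.re_sum]
    refine Finset.sum_congr rfl fun w _ => ?_
    rw [map_mul, map_zpow₀, mul_zpow]
    congr 1
    ring
  rw [e1, LM.sum]
  refine Finset.sum_congr rfl fun z hz => ?_
  rw [LM.sum, Finset.sum_eq_single z]
  · have hzz : (starRingEnd ℂ) z * z = 1 := by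
      rw [Complex.conj_mul', hZ z hz]; norm_num
    rw [hzz]
    have h3 : (fun x : ℤ => ((starRingEnd ℂ) (C z) * C z * 1 ^ x).re) = fun _ => ‖C z‖ ^ 2 := by
      funext n
      rw [one_zpow, mul_one, Complex.conj_mul', ← Complex.ofReal_pow, Complex.ofReal_re]
    rw [h3, LM.const]
  · intro w hw hne
    rw [tp_lin, mean_char M hM]
    · simp
    · rw [norm_mul, RCLike.norm_conj, hZ z hz, hZ w hw, one_mul]
    · intro h
      apply hne
      have hzz : (starRingEnd ℂ) z * z = 1 := by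
        rw [Complex.conj_mul', hZ z hz]; norm_num
      have h4 : (starRingEnd ℂ) z ≠ 0 := by
        intro h5; rw [h5, zero_mul] at hzz; exact zero_ne_one hzz
      exact mul_left_cancel₀ h4 (h.trans hzz.symm)
  · intro h
    exact absurd hz h

end Pool.Agent.AA
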