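import Pool.Agent.AA.LMb

/-! AA (one of D, 2D, .., ND), module WM: weak mixing under a mean. -/

set_option autoImplicit false

namespace Pool.Agent.AA

open Finset Filter Topology Pool.Agent.StrA

variable {H : Type*} [NormedAddCommGroup H] [InnerProductSpace ℂ H]

/-- WM.  PROOF: `weak_mix` (StrA/Weak) and `Mean.le_of_avg` (StrA/MeanBasic): for every `η > 0` the averages over long intervals are
`≤ √(s + η)`. -/
theorem weak_mean [CompleteSpace H] (M : LM) (hM : M.Inv 1) (V : H ≃ₗᵢ[ℂ] H) (b w : H) (hb : ‖b‖ ≤ 1) (hw1 : ‖w‖ ≤ 1)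
    (s : ℝ) (hs : 0 ≤ s) (hw : ∀ (z : ℂ) (v : H), V v = z • v → ‖(inner ℂ v w : ℂ)‖ ≤ s * ‖v‖) :
    M.m (fun n => ‖(inner ℂ b ((V ^ n) w) : ℂ)‖ ^ 2) ≤ √s := by
  set f : ℤ → ℝ := fun n => ‖(inner ℂ b ((V ^ n) w) : ℂ)‖ ^ 2 with hf
  have hf0 : ∀ n, 0 ≤ f n := fun n => sq_nonneg _
  have hf1 : ∀ n, f n ≤ 1 := by
    intro n
    have h1 : ‖(inner ℂ b ((V ^ n) w) : ℂ)‖ ≤ 1 := by
      refine (norm_inner_le_norm b ((V ^ n) w)).trans ?_
      rw [LinearIsometryEquiv.norm_map]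
      exact mul_le_one₀ hb (norm_nonneg _) hw1
    exact pow_le_one₀ (norm_nonneg _) h1
  have hbd : Bdd f := ⟨1, fun n => by rw [abs_of_nonneg (hf0 n)]; exact hf1 n⟩
  have hnn : 0 ≤ M.m f := M.nonneg' f hbd hf0
  have key : ∀ η : ℝ, 0 < η → (M.m f) ^ 2 ≤ s + η := by
    intro η hη
    obtain ⟨L0, hL0⟩ := weak_mix V b w s hs hw η hη
    set L : ℕ := max L0 1 with hL
    have hLpos : 0 < L := lt_of_lt_of_le one_pos (le_max_right _ _)
    have hsη : 0 ≤ s + η := by linarith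
    have h2 : M.m f ≤ √(s + η) := by
      refine Mean.le_of_avg M.mean (LM.mean_inv hM) hbd (√(s + η)) L hLpos ?_
      intro a
      have h3 := hL0 a L (le_max_left _ _)
      have h4 : ‖b‖ ^ 4 * ‖w‖ ^ 3 * s ≤ s := by
        have h5 : ‖b‖ ^ 4 * ‖w‖ ^ 3 ≤ 1 :=
          mul_le_one₀ (pow_le_one₀ (norm_nonneg _) hb) (by positivity)
            (pow_le_one₀ (norm_nonneg _) hw1)
        exact mul_le_of_le_one_left hs h5
      have h6 : (∑ x ∈ Ioc a (a + L), f x) ^ 2 ≤ (√(s + η) * L) ^ 2 := by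
        refine h3.trans ?_
        rw [mul_pow, Real.sq_sqrt hsη, mul_comm]
        exact mul_le_mul_of_nonneg_right (by linarith) (sq_nonneg _)
      exact (sq_le_sq₀ (Finset.sum_nonneg fun x _ => hf0 x) (by positivity)).1 h6
    calc (M.m f) ^ 2 ≤ (√(s + η)) ^ 2 := pow_le_pow_left₀ hnn h2 2
      _ = s + η := Real.sq_sqrt hsη
  have h7 : (M.m f) ^ 2 ≤ s := le_of_forall_pos_le_add key
  exact Real.le_sqrt_of_sq_le h7

end Pool.Agent.AA
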