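import Pool.Agent.AA.Crb
import Pool.Agent.AA.Wm
import Pool.Agent.AA.Tp

/-! AA (one of D, 2D, .., ND), module ERA: mean square of the error. -/

set_option autoImplicit false

namespace Pool.Agent.AA

open Finset Filter Topology Pool.Agent.StrA

variable {H : Type*} [NormedAddCommGroup H] [InnerProductSpace ℂ H]

private theorem era_id [CompleteSpace H] (V : H ≃ₗᵢ[ℂ] H) (x b : H) (Ψ : Finset ℂ)
    (hΨ : ∀ z ∈ Ψ, ‖z‖ = 1) (n : ℤ) :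
    (inner ℂ b ((V ^ n) (x - PV V 1 x)) : ℂ) =
      inner ℂ b ((V ^ n) (x - PV V 1 x - ∑ z ∈ Ψ, PV V z x)) +
      ∑ z ∈ Ψ, inner ℂ b (PV V z x) * z ^ n := by
  have h1 : x - PV V 1 x = (x - PV V 1 x - ∑ z ∈ Ψ, PV V z x) + ∑ z ∈ Ψ, PV V z x := by abel
  conv_lhs => rw [h1]
  rw [map_add, map_sum, inner_add_right, inner_sum]
  congr 1
  refine Finset.sum_congr rfl fun z hz => ?_
  rw [eig_zpow V (hΨ z hz) (PV_mem V z x), inner_smul_right, mul_comm]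

private theorem era_two (a b : ℂ) : ‖a + b‖ ^ 2 ≤ 2 * ‖a‖ ^ 2 + 2 * ‖b‖ ^ 2 := by
  have h1 := norm_add_le a b
  have h2 : ‖a + b‖ ^ 2 ≤ (‖a‖ + ‖b‖) ^ 2 := pow_le_pow_left₀ (norm_nonneg _) h1 2
  nlinarith [sq_nonneg (‖a‖ - ‖b‖)]

/-- the main decomposition for one `t` -/
private theorem era_one [CompleteSpace H] (M : LM) (hM : M.Inv 1) {ι : Type*} (Γ : Finset ι)
    (V : ι → H ≃ₗᵢ[ℂ] H) (x b : ι → H) (hb : ∀ i, ‖b i‖ ≤ 1) (η : ℝ)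
    (Ψ : ι → Finset ℂ) (hΨ : ∀ i, ∀ z ∈ Ψ i, ‖z‖ = 1)
    (h1 : ∀ i, ‖x i - PV (V i) 1 (x i) - ∑ z ∈ Ψ i, PV (V i) z (x i)‖ ≤ 1)
    (h2 : ∀ i (z : ℂ) (v : H), V i v = z • v →
      ‖(inner ℂ v (x i - PV (V i) 1 (x i) - ∑ z ∈ Ψ i, PV (V i) z (x i)) : ℂ)‖ ≤ √η * ‖v‖)
    (ω : ι → ℝ) (hω : ∀ i, |ω i| ≤ 1) (Z : Finset ℂ) (hZ : ∀ i ∈ Γ, Ψ i ⊆ Z)
    (hZ1 : ∀ z ∈ Z, ‖z‖ = 1) :
    M.m (fun n => ‖∑ i ∈ Γ, (ω i : ℂ) *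
        inner ℂ (b i) ((V i ^ n) (x i - PV (V i) 1 (x i)))‖ ^ 2) ≤
      2 * (Γ.card : ℝ) * (Γ.card * √(√η)) + 2 * ∑ z ∈ Z, ‖∑ i ∈ Γ, if z ∈ Ψ i then
        (ω i : ℂ) * inner ℂ (b i) (PV (V i) z (x i)) else 0‖ ^ 2 := by
  classical
  obtain ⟨C, hC⟩ : ∃ C : ℂ → ℂ, C = fun z => ∑ i ∈ Γ, if z ∈ Ψ i then
      (ω i : ℂ) * inner ℂ (b i) (PV (V i) z (x i)) else 0 := ⟨_, rfl⟩
  obtain ⟨u, hu⟩ : ∃ u : ι → H, u = fun i =>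
      x i - PV (V i) 1 (x i) - ∑ z ∈ Ψ i, PV (V i) z (x i) := ⟨_, rfl⟩
  have hu1 : ∀ i, ‖u i‖ ≤ 1 := by
    intro i
    rw [hu]
    exact h1 i
  have hu2 : ∀ i (z : ℂ) (v : H), V i v = z • v → ‖(inner ℂ v (u i) : ℂ)‖ ≤ √η * ‖v‖ := by
    intro i z v hv
    rw [hu]
    exact h2 i z v hv
  have hin : ∀ i (n : ℤ), ‖(inner ℂ (b i) ((V i ^ n) (u i)) : ℂ)‖ ≤ 1 := by
    intro i n
    refine (norm_inner_le_norm _ _).trans ?_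
    rw [LinearIsometryEquiv.norm_map]
    calc ‖b i‖ * ‖u i‖ ≤ 1 * 1 := mul_le_mul (hb i) (hu1 i) (norm_nonneg _) zero_le_one
      _ = 1 := one_mul 1
  -- decomposition
  have hdec : ∀ n : ℤ, ∑ i ∈ Γ, (ω i : ℂ) * inner ℂ (b i) ((V i ^ n) (x i - PV (V i) 1 (x i))) =
      ∑ i ∈ Γ, (ω i : ℂ) * inner ℂ (b i) ((V i ^ n) (u i)) + ∑ z ∈ Z, C z * z ^ n := by
    intro n
    have e1 : ∑ z ∈ Z, C z * z ^ n = ∑ i ∈ Γ, (ω i : ℂ) *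
        ∑ z ∈ Ψ i, inner ℂ (b i) (PV (V i) z (x i)) * z ^ n := by
      rw [hC]
      simp only [Finset.sum_mul]
      rw [Finset.sum_comm]
      refine Finset.sum_congr rfl fun i hi => ?_
      rw [Finset.mul_sum, ← Finset.sum_subset (hZ i hi)]
      · refine Finset.sum_congr rfl fun z hz => ?_
        rw [if_pos hz, mul_assoc]
      · intro z _ hz
        rw [if_neg hz, zero_mul]
    rw [e1, ← Finset.sum_add_distrib]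
    refine Finset.sum_congr rfl fun i _ => ?_
    rw [era_id (V i) (x i) (b i) (Ψ i) (hΨ i) n, mul_add, hu]
  -- pointwise bound
  have hpt : ∀ n : ℤ, ‖∑ i ∈ Γ, (ω i : ℂ) *
      inner ℂ (b i) ((V i ^ n) (x i - PV (V i) 1 (x i)))‖ ^ 2 ≤
      (2 * (Γ.card : ℝ)) * (∑ i ∈ Γ, ‖(inner ℂ (b i) ((V i ^ n) (u i)) : ℂ)‖ ^ 2) +
        2 * ‖∑ z ∈ Z, C z * z ^ n‖ ^ 2 := by
    intro n
    rw [hdec n]
    refine (era_two _ _).trans ?_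
    have e1 : ‖∑ i ∈ Γ, (ω i : ℂ) * (inner ℂ (b i) ((V i ^ n) (u i)) : ℂ)‖ ≤
        ∑ i ∈ Γ, ‖(inner ℂ (b i) ((V i ^ n) (u i)) : ℂ)‖ := by
      refine (norm_sum_le _ _).trans (Finset.sum_le_sum fun i _ => ?_)
      rw [norm_mul, Complex.norm_real, Real.norm_eq_abs]
      calc |ω i| * ‖(inner ℂ (b i) ((V i ^ n) (u i)) : ℂ)‖
          ≤ 1 * ‖(inner ℂ (b i) ((V i ^ n) (u i)) : ℂ)‖ :=
            mul_le_mul_of_nonneg_right (hω i) (norm_nonneg _)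
        _ = _ := one_mul _
    have e2 : ‖∑ i ∈ Γ, (ω i : ℂ) * (inner ℂ (b i) ((V i ^ n) (u i)) : ℂ)‖ ^ 2 ≤
        (Γ.card : ℝ) * ∑ i ∈ Γ, ‖(inner ℂ (b i) ((V i ^ n) (u i)) : ℂ)‖ ^ 2 :=
      (pow_le_pow_left₀ (norm_nonneg _) e1 2).trans sq_sum_le_card_mul_sum_sq
    linarith
  -- boundedness
  have hK1 : ∀ n : ℤ, ∑ i ∈ Γ, ‖(inner ℂ (b i) ((V i ^ n) (u i)) : ℂ)‖ ^ 2 ≤ Γ.card := by
    intro n
    calc ∑ i ∈ Γ, ‖(inner ℂ (b i) ((V i ^ n) (u i)) : ℂ)‖ ^ 2 ≤ ∑ _i ∈ Γ, (1 : ℝ) :=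
          Finset.sum_le_sum fun i _ => pow_le_one₀ (norm_nonneg _) (hin i n)
      _ = Γ.card := by rw [Finset.sum_const, nsmul_eq_mul, mul_one]
  have hK2 : ∀ n : ℤ, ‖∑ z ∈ Z, C z * z ^ n‖ ≤ ∑ z ∈ Z, ‖C z‖ := by
    intro n
    refine (norm_sum_le _ _).trans (Finset.sum_le_sum fun z hz => ?_)
    rw [norm_mul, norm_zpow, hZ1 z hz, one_zpow, mul_one]
  have hbR : Bdd fun n : ℤ => (2 * (Γ.card : ℝ)) *
      (∑ i ∈ Γ, ‖(inner ℂ (b i) ((V i ^ n) (u i)) : ℂ)‖ ^ 2) + 2 * ‖∑ z ∈ Z, C z * z ^ n‖ ^ 2 := by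
    refine ⟨(2 * (Γ.card : ℝ)) * Γ.card + 2 * (∑ z ∈ Z, ‖C z‖) ^ 2, fun n => ?_⟩
    have e0 : 0 ≤ ∑ i ∈ Γ, ‖(inner ℂ (b i) ((V i ^ n) (u i)) : ℂ)‖ ^ 2 :=
      Finset.sum_nonneg fun i _ => sq_nonneg _
    rw [abs_of_nonneg (by positivity)]
    refine add_le_add (mul_le_mul_of_nonneg_left (hK1 n) (by positivity))
      (mul_le_mul_of_nonneg_left (pow_le_pow_left₀ (norm_nonneg _) (hK2 n) 2) (by norm_num))
  have hbL : Bdd fun n : ℤ => ‖∑ i ∈ Γ, (ω i : ℂ) *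
      inner ℂ (b i) ((V i ^ n) (x i - PV (V i) 1 (x i)))‖ ^ 2 := by
    obtain ⟨K, hK⟩ := hbR
    refine ⟨K, fun n => ?_⟩
    rw [abs_of_nonneg (sq_nonneg _)]
    exact (hpt n).trans ((le_abs_self _).trans (hK n))
  refine (M.mono hbL hbR hpt).trans ?_
  rw [LM.add, LM.smul, LM.smul, LM.sum, parseval M hM Z hZ1 C]
  refine add_le_add (mul_le_mul_of_nonneg_left ?_ (by positivity)) (by rw [hC])
  calc ∑ i ∈ Γ, M.m (fun n => ‖(inner ℂ (b i) ((V i ^ n) (u i)) : ℂ)‖ ^ 2) ≤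
        ∑ _i ∈ Γ, √(√η) :=
        Finset.sum_le_sum fun i _ => weak_mean M hM (V i) (b i) (u i) (hb i) (hu1 i) (√η)
          (Real.sqrt_nonneg _) (hu2 i)
    _ = Γ.card * √(√η) := by rw [Finset.sum_const, nsmul_eq_mul]

/-- the combinatorial estimate for the atoms -/
private theorem era_comb {τ ι : Type*} (T : Finset τ) (Γ : Finset ι) (Ψ : ι → Finset ℂ)
    (Z : Finset ℂ) (hZ : ∀ i ∈ Γ, Ψ i ⊆ Z) (η : ℝ) (hη : 0 < η)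
    (hcard : ∀ i ∈ Γ, ((Ψ i).card : ℝ) ≤ 1 / η) (g : τ → ι → ℂ → ℂ)
    (hg : ∀ t i z, ‖g t i z‖ ≤ 1) (hg2 : ∀ z ∈ Z, ∑ t ∈ T, ∑ i ∈ Γ, ‖g t i z‖ ^ 2 ≤
      (T.card : ℝ) * (2 * η ^ 4 * Γ.card)) :
    ∑ t ∈ T, ∑ z ∈ Z, ‖∑ i ∈ Γ, if z ∈ Ψ i then g t i z else 0‖ ^ 2 ≤
      3 * η * ((T.card : ℝ) * (Γ.card : ℝ) ^ 2) := by
  classical
  obtain ⟨ρ, hρ⟩ : ∃ ρ : ℂ → ℝ, ρ = fun z => ∑ i ∈ Γ, if z ∈ Ψ i then (1 : ℝ) else 0 := ⟨_, rfl⟩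
  have hρ0 : ∀ z, 0 ≤ ρ z := by
    intro z
    rw [hρ]
    exact Finset.sum_nonneg fun i _ => by split_ifs <;> norm_num
  have hρsum : ∑ z ∈ Z, ρ z ≤ Γ.card / η := by
    rw [hρ]
    simp only []
    rw [Finset.sum_comm]
    calc ∑ i ∈ Γ, ∑ z ∈ Z, (if z ∈ Ψ i then (1 : ℝ) else 0) ≤ ∑ _i ∈ Γ, 1 / η := by
          refine Finset.sum_le_sum fun i hi => ?_
          have e1 : ∑ z ∈ Z, (if z ∈ Ψ i then (1 : ℝ) else 0) = ((Ψ i).card : ℝ) := by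
            rw [← Finset.sum_subset (hZ i hi)]
            · rw [Finset.sum_congr rfl fun z hz => if_pos hz, Finset.sum_const, nsmul_eq_mul,
                mul_one]
            · intro z _ hz
              rw [if_neg hz]
          rw [e1]
          exact hcard i hi
      _ = Γ.card / η := by rw [Finset.sum_const, nsmul_eq_mul, mul_one_div]
  have hC1 : ∀ t z, ‖∑ i ∈ Γ, if z ∈ Ψ i then g t i z else 0‖ ≤ ρ z := by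
    intro t z
    rw [hρ]
    refine (norm_sum_le _ _).trans (Finset.sum_le_sum fun i _ => ?_)
    split_ifs
    · exact hg t i z
    · rw [norm_zero]
  have hC2 : ∀ t z, ‖∑ i ∈ Γ, if z ∈ Ψ i then g t i z else 0‖ ^ 2 ≤
      (Γ.card : ℝ) * ∑ i ∈ Γ, ‖g t i z‖ ^ 2 := by
    intro t z
    have e1 : ‖∑ i ∈ Γ, if z ∈ Ψ i then g t i z else 0‖ ≤ ∑ i ∈ Γ, ‖g t i z‖ := by
      refine (norm_sum_le _ _).trans (Finset.sum_le_sum fun i _ => ?_)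
      split_ifs
      · exact le_rfl
      · rw [norm_zero]
        exact norm_nonneg _
    exact (pow_le_pow_left₀ (norm_nonneg _) e1 2).trans sq_sum_le_card_mul_sum_sq
  obtain ⟨c, hc⟩ : ∃ c : ℝ, c = η ^ 2 * Γ.card := ⟨_, rfl⟩
  have hc0 : 0 ≤ c := by rw [hc]; positivity
  have hsplit : ∀ F : ℂ → ℝ, ∑ z ∈ Z, F z = ∑ z ∈ Z.filter (fun z => ρ z ≤ c), F z +
      ∑ z ∈ Z.filter (fun z => ¬ ρ z ≤ c), F z := fun F =>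
    (Finset.sum_filter_add_sum_filter_not Z (fun z => ρ z ≤ c) F).symm
  have hsmall : ∀ t, ∑ z ∈ Z.filter (fun z => ρ z ≤ c),
      ‖∑ i ∈ Γ, if z ∈ Ψ i then g t i z else 0‖ ^ 2 ≤ η * (Γ.card : ℝ) ^ 2 := by
    intro t
    calc ∑ z ∈ Z.filter (fun z => ρ z ≤ c), ‖∑ i ∈ Γ, if z ∈ Ψ i then g t i z else 0‖ ^ 2
        ≤ ∑ z ∈ Z.filter (fun z => ρ z ≤ c), c * ρ z := by
          refine Finset.sum_le_sum fun z hz => ?_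
          have h3 := (Finset.mem_filter.1 hz).2
          have h4 := hC1 t z
          have h5 := norm_nonneg (∑ i ∈ Γ, if z ∈ Ψ i then g t i z else 0)
          rw [sq]
          exact mul_le_mul (h4.trans h3) h4 h5 hc0
      _ ≤ ∑ z ∈ Z, c * ρ z := Finset.sum_le_sum_of_subset_of_nonneg (Finset.filter_subset _ _)
          fun z _ _ => mul_nonneg hc0 (hρ0 z)
      _ = c * ∑ z ∈ Z, ρ z := by rw [Finset.mul_sum]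
      _ ≤ c * (Γ.card / η) := mul_le_mul_of_nonneg_left hρsum hc0
      _ = η * (Γ.card : ℝ) ^ 2 := by rw [hc]; field_simp
  have hlargecard : ((Z.filter (fun z => ¬ ρ z ≤ c)).card : ℝ) * c ≤ Γ.card / η := by
    calc ((Z.filter (fun z => ¬ ρ z ≤ c)).card : ℝ) * c
        = ∑ _z ∈ Z.filter (fun z => ¬ ρ z ≤ c), c := by rw [Finset.sum_const, nsmul_eq_mul]
      _ ≤ ∑ z ∈ Z.filter (fun z => ¬ ρ z ≤ c), ρ z :=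
          Finset.sum_le_sum fun z hz => (not_le.1 (Finset.mem_filter.1 hz).2).le
      _ ≤ ∑ z ∈ Z, ρ z := Finset.sum_le_sum_of_subset_of_nonneg (Finset.filter_subset _ _)
          fun z _ _ => hρ0 z
      _ ≤ Γ.card / η := hρsum
  have hlarge : ∑ t ∈ T, ∑ z ∈ Z.filter (fun z => ¬ ρ z ≤ c),
      ‖∑ i ∈ Γ, if z ∈ Ψ i then g t i z else 0‖ ^ 2 ≤ 2 * η * ((T.card : ℝ) * (Γ.card : ℝ) ^ 2) := by
    rw [Finset.sum_comm]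
    calc ∑ z ∈ Z.filter (fun z => ¬ ρ z ≤ c), ∑ t ∈ T,
          ‖∑ i ∈ Γ, if z ∈ Ψ i then g t i z else 0‖ ^ 2
        ≤ ∑ _z ∈ Z.filter (fun z => ¬ ρ z ≤ c), (Γ.card : ℝ) *
            ((T.card : ℝ) * (2 * η ^ 4 * Γ.card)) := by
          refine Finset.sum_le_sum fun z hz => ?_
          calc ∑ t ∈ T, ‖∑ i ∈ Γ, if z ∈ Ψ i then g t i z else 0‖ ^ 2
              ≤ ∑ t ∈ T, (Γ.card : ℝ) * ∑ i ∈ Γ, ‖g t i z‖ ^ 2 :=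
                Finset.sum_le_sum fun t _ => hC2 t z
            _ = (Γ.card : ℝ) * ∑ t ∈ T, ∑ i ∈ Γ, ‖g t i z‖ ^ 2 := by rw [Finset.mul_sum]
            _ ≤ _ := mul_le_mul_of_nonneg_left (hg2 z (Finset.mem_filter.1 hz).1)
                (Nat.cast_nonneg _)
      _ = (((Z.filter (fun z => ¬ ρ z ≤ c)).card : ℝ) * c) *
            (2 * η ^ 2 * ((T.card : ℝ) * Γ.card)) := by
          rw [Finset.sum_const, nsmul_eq_mul, hc]; ring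
      _ ≤ (Γ.card / η) * (2 * η ^ 2 * ((T.card : ℝ) * Γ.card)) :=
          mul_le_mul_of_nonneg_right hlargecard (by positivity)
      _ = 2 * η * ((T.card : ℝ) * (Γ.card : ℝ) ^ 2) := by field_simp
  calc ∑ t ∈ T, ∑ z ∈ Z, ‖∑ i ∈ Γ, if z ∈ Ψ i then g t i z else 0‖ ^ 2
      = ∑ t ∈ T, ∑ z ∈ Z.filter (fun z => ρ z ≤ c),
          ‖∑ i ∈ Γ, if z ∈ Ψ i then g t i z else 0‖ ^ 2 +
        ∑ t ∈ T, ∑ z ∈ Z.filter (fun z => ¬ ρ z ≤ c),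
          ‖∑ i ∈ Γ, if z ∈ Ψ i then g t i z else 0‖ ^ 2 := by
        rw [← Finset.sum_add_distrib]
        exact Finset.sum_congr rfl fun t _ => hsplit _
    _ ≤ ∑ _t ∈ T, η * (Γ.card : ℝ) ^ 2 + 2 * η * ((T.card : ℝ) * (Γ.card : ℝ) ^ 2) :=
        add_le_add (Finset.sum_le_sum fun t _ => hsmall t) hlarge
    _ = 3 * η * ((T.card : ℝ) * (Γ.card : ℝ) ^ 2) := by
        rw [Finset.sum_const, nsmul_eq_mul]; ring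

/-- ERA1 (mean square of the error, full mean), `u q = f q - PV (T^q) 1 (f q)`.
PROOF: for every `q` let `Ψ q` be the atoms of `T^q`, `f q` (`exists_atoms`), `u q = ∑_{z ∈ Ψ q} PV (T^q) z (f q) + u' q`.  `Y = Y' + Y''`,
`‖Y‖² ≤ 2 ‖Y'‖² + 2 ‖Y''‖²`.  `Y'` (part of `u'`): `‖Y'‖² ≤ |Γ| ∑_γ ‖⟪b, (T^q)^n u' q⟫‖²`, mean `≤ |Γ|² η^(1/4)` (`weak_mean` with
`s = √η`).  `Y''(n) = ∑_{z ∈ Z} C z z^n`, `Z = ∪ Ψ q`, `C z = ∑_{γ : z ∈ Ψ (q γ)} ω ⟪b, PV .. z (f q)⟫`; `parseval`: mean of `‖Y''‖²` is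
`∑ ‖C z‖²`.  Let `ρ z = #{γ : z ∈ Ψ (q γ)}`, `∑_z ρ z ≤ |Γ| / η`, `‖C z‖ ≤ ρ z`.  The `z` with `ρ z ≤ η² |Γ|` contribute at most
`η² |Γ| * |Γ| / η = η |Γ|²`.  The other `z` are at most `η⁻³` many, and for them `‖C z‖² ≤ |Γ| ∑_γ ‖⟪b, PV .. z (f q)⟫‖²`, whose sum over
`t` is `≤ |Γ| * |Ei| |A| |Ej| (1 + κ |A|)` (`atom_sum`) `≤ |T| |Γ|² (1/|A| + κ) ≤ |T| |Γ|² * 2 η⁴`.  Total
`≤ |T| |Γ|² (2 η^(1/4) + 2 η + 4 η) ≤ 8 η^(1/4) |T| |Γ|²`. -/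
theorem err_full [CompleteSpace H] (M : LM) (hM : M.Inv 1) (T : H ≃ₗᵢ[ℂ] H) (f b : ℕ → H) (hf : ∀ q, ‖f q‖ ≤ 1)
    (hb : ∀ q, ‖b q‖ ≤ 1) (Ei Ej A : Finset ℕ) (hA : DivSet A) (hEj : ∀ e ∈ Ej, 0 < e) (c0 : ℕ) (hc : ∀ a ∈ A, a ∣ c0)
    (hc0 : 0 < c0) (η : ℝ) (hη : 0 < η) (hη1 : η ≤ 1) (hcard : (1 / η) ^ 4 ≤ (A.card : ℝ))
    (hfol : ∀ a ∈ A, FolBy (η ^ 4) Ej a) (ω : ℕ × ℕ → ℕ × ℕ → ℝ) (hω : ∀ t γ, |ω t γ| ≤ 1) :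
    ∑ t ∈ Ei ×ˢ A, M.m (fun n => ‖∑ γ ∈ Ej ×ˢ A, (ω t γ : ℂ) * inner ℂ (b ((t.1 * t.2) * (γ.1 * γ.2)))
        (((T ^ (c0 * (γ.1 * γ.2))) ^ n) (f (c0 * (γ.1 * γ.2)) - PV (T ^ (c0 * (γ.1 * γ.2))) 1 (f (c0 * (γ.1 * γ.2)))))‖ ^ 2) ≤
      8 * √(√η) * ((Ei ×ˢ A).card * ((Ej ×ˢ A).card : ℝ) ^ 2) := by
  classical
  choose Ψ hΨ1 hΨ2 hΨ3 hΨ4 using fun q : ℕ => exists_atoms (T ^ q) (f q) (hf q) η hη
  obtain ⟨Z, hZdef⟩ : ∃ Z : Finset ℂ, Z = (Ej ×ˢ A).biUnion fun γ => Ψ (c0 * (γ.1 * γ.2)) := ⟨_, rfl⟩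
  have hZ : ∀ γ ∈ Ej ×ˢ A, Ψ (c0 * (γ.1 * γ.2)) ⊆ Z := by
    intro γ hγ
    rw [hZdef]
    exact Finset.subset_biUnion_of_mem (fun γ : ℕ × ℕ => Ψ (c0 * (γ.1 * γ.2))) hγ
  have hZ1 : ∀ z ∈ Z, ‖z‖ = 1 ∧ z ≠ 1 := by
    intro z hz
    rw [hZdef, Finset.mem_biUnion] at hz
    obtain ⟨γ, _, h⟩ := hz
    exact hΨ1 _ z h
  -- `1 ≤ η⁴ |A|`
  have hA1 : 1 ≤ η ^ 4 * (A.card : ℝ) := by
    have h1 : η ^ 4 * (1 / η) ^ 4 ≤ η ^ 4 * (A.card : ℝ) :=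
      mul_le_mul_of_nonneg_left hcard (by positivity)
    have h2 : η ^ 4 * (1 / η) ^ 4 = 1 := by field_simp
    rwa [h2] at h1
  have hstep : ∀ t : ℕ × ℕ, M.m (fun n => ‖∑ γ ∈ Ej ×ˢ A, (ω t γ : ℂ) *
      inner ℂ (b ((t.1 * t.2) * (γ.1 * γ.2))) (((T ^ (c0 * (γ.1 * γ.2))) ^ n)
        (f (c0 * (γ.1 * γ.2)) - PV (T ^ (c0 * (γ.1 * γ.2))) 1 (f (c0 * (γ.1 * γ.2)))))‖ ^ 2) ≤
      2 * ((Ej ×ˢ A).card : ℝ) * ((Ej ×ˢ A).card * √(√η)) + 2 * ∑ z ∈ Z, ‖∑ γ ∈ Ej ×ˢ A,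
        if z ∈ Ψ (c0 * (γ.1 * γ.2)) then (ω t γ : ℂ) * inner ℂ (b ((t.1 * t.2) * (γ.1 * γ.2)))
          (PV (T ^ (c0 * (γ.1 * γ.2))) z (f (c0 * (γ.1 * γ.2)))) else 0‖ ^ 2 := by
    intro t
    exact era_one M hM (Ej ×ˢ A) (fun γ => T ^ (c0 * (γ.1 * γ.2))) (fun γ => f (c0 * (γ.1 * γ.2)))
      (fun γ => b ((t.1 * t.2) * (γ.1 * γ.2))) (fun γ => hb _) η
      (fun γ => Ψ (c0 * (γ.1 * γ.2))) (fun γ z hz => (hΨ1 _ z hz).1) (fun γ => hΨ3 _)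
      (fun γ z v hv => hΨ4 _ z v hv) (ω t) (hω t) Z hZ (fun z hz => (hZ1 z hz).1)
  have hcomb := era_comb (Ei ×ˢ A) (Ej ×ˢ A) (fun γ => Ψ (c0 * (γ.1 * γ.2))) Z hZ η hη
    (fun γ _ => hΨ2 _) (fun t γ z => (ω t γ : ℂ) * inner ℂ (b ((t.1 * t.2) * (γ.1 * γ.2)))
          (PV (T ^ (c0 * (γ.1 * γ.2))) z (f (c0 * (γ.1 * γ.2))))) (by
      intro t γ z
      rw [norm_mul, Complex.norm_real, Real.norm_eq_abs]
      calc |ω t γ| * ‖(inner ℂ (b ((t.1 * t.2) * (γ.1 * γ.2)))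
            (PV (T ^ (c0 * (γ.1 * γ.2))) z (f (c0 * (γ.1 * γ.2)))) : ℂ)‖ ≤ 1 * (1 * 1) := by
            refine mul_le_mul (hω t γ) ?_ (norm_nonneg _) zero_le_one
            refine (norm_inner_le_norm _ _).trans ?_
            exact mul_le_mul (hb _) ((PV_norm_le _ _ _).trans (hf _)) (norm_nonneg _) zero_le_one
        _ = 1 := by norm_num) (by
      intro z hz
      calc ∑ t ∈ Ei ×ˢ A, ∑ γ ∈ Ej ×ˢ A, ‖(ω t γ : ℂ) *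
            (inner ℂ (b ((t.1 * t.2) * (γ.1 * γ.2)))
              (PV (T ^ (c0 * (γ.1 * γ.2))) z (f (c0 * (γ.1 * γ.2)))) : ℂ)‖ ^ 2
          ≤ ∑ t ∈ Ei ×ˢ A, ∑ γ ∈ Ej ×ˢ A, ‖(inner ℂ (b ((t.1 * t.2) * (γ.1 * γ.2)))
              (PV (T ^ (c0 * (γ.1 * γ.2))) z (f (c0 * (γ.1 * γ.2)))) : ℂ)‖ ^ 2 := by
            refine Finset.sum_le_sum fun t _ => Finset.sum_le_sum fun γ _ => ?_
            refine pow_le_pow_left₀ (norm_nonneg _) ?_ 2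
            rw [norm_mul, Complex.norm_real, Real.norm_eq_abs]
            refine (mul_le_mul_of_nonneg_right (hω t γ) (norm_nonneg _)).trans ?_
            rw [one_mul]
        _ ≤ (Ei.card : ℝ) * A.card * Ej.card * (1 + η ^ 4 * A.card) :=
            atom_sum T f b hf hb Ei Ej A hA hEj c0 hc hc0 (η ^ 4) hfol (hZ1 z hz).1 (hZ1 z hz).2
        _ ≤ (Ei.card : ℝ) * A.card * Ej.card * (2 * (η ^ 4 * A.card)) := by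
            refine mul_le_mul_of_nonneg_left ?_ (by positivity)
            linarith
        _ = ((Ei ×ˢ A).card : ℝ) * (2 * η ^ 4 * (Ej ×ˢ A).card) := by
            rw [Finset.card_product, Finset.card_product]
            push_cast
            ring)
  have hηs : η ≤ √(√η) := by
    have h1 : η ≤ √η := by
      rw [Real.le_sqrt hη.le hη.le]
      nlinarith
    have h2 : √η ≤ 1 := by
      have := Real.sqrt_le_sqrt hη1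
      rwa [Real.sqrt_one] at this
    have h3 : √η ≤ √(√η) := by
      rw [Real.le_sqrt (Real.sqrt_nonneg _) (Real.sqrt_nonneg _)]
      nlinarith [Real.sqrt_nonneg η]
    exact h1.trans h3
  refine (Finset.sum_le_sum fun t _ => hstep t).trans ?_
  rw [Finset.sum_add_distrib, Finset.sum_const, nsmul_eq_mul, ← Finset.mul_sum]
  have hpos : 0 ≤ ((Ei ×ˢ A).card : ℝ) * ((Ej ×ˢ A).card : ℝ) ^ 2 := by positivity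
  have h7 := mul_le_mul_of_nonneg_right hηs hpos
  calc ((Ei ×ˢ A).card : ℝ) * (2 * ((Ej ×ˢ A).card : ℝ) * ((Ej ×ˢ A).card * √(√η))) +
        2 * ∑ t ∈ Ei ×ˢ A, ∑ z ∈ Z, ‖∑ γ ∈ Ej ×ˢ A,
        if z ∈ Ψ (c0 * (γ.1 * γ.2)) then (ω t γ : ℂ) * inner ℂ (b ((t.1 * t.2) * (γ.1 * γ.2)))
          (PV (T ^ (c0 * (γ.1 * γ.2))) z (f (c0 * (γ.1 * γ.2)))) else 0‖ ^ 2
      ≤ ((Ei ×ˢ A).card : ℝ) * (2 * ((Ej ×ˢ A).card : ℝ) * ((Ej ×ˢ A).card * √(√η))) +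
        2 * (3 * η * (((Ei ×ˢ A).card : ℝ) * ((Ej ×ˢ A).card : ℝ) ^ 2)) :=
        add_le_add le_rfl (mul_le_mul_of_nonneg_left hcomb (by norm_num))
    _ = 2 * √(√η) * (((Ei ×ˢ A).card : ℝ) * ((Ej ×ˢ A).card : ℝ) ^ 2) +
        6 * (η * (((Ei ×ˢ A).card : ℝ) * ((Ej ×ˢ A).card : ℝ) ^ 2)) := by ring
    _ ≤ 8 * √(√η) * (((Ei ×ˢ A).card : ℝ) * ((Ej ×ˢ A).card : ℝ) ^ 2) := by linarith

end Pool.Agent.AA
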