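import Pool.Agent.AA.Defs

/-! AA (one of D, 2D, .., ND), module FOL: multiplicatively almost invariant sets. -/

set_option autoImplicit false

namespace Pool.Agent.AA

open Finset Filter Topology Pool.Agent.StrA

/-- FOL1.  PROOF: `{e ∈ E : s s' e ∉ E} ⊆ {e ∈ E : s' e ∉ E} ∪ {e ∈ E : s' e ∈ E, s (s' e) ∉ E}`; `e ↦ s' e` maps the second set
injectively into `{e ∈ E : s e ∉ E}`. -/
theorem FolBy.mul {κ κ' : ℝ} {E : Finset ℕ} {s s' : ℕ} (hs' : 0 < s') (h : FolBy κ E s) (h' : FolBy κ' E s') :
    FolBy (κ + κ') E (s * s') := by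
  unfold FolBy at *
  have h1 : (E.filter fun e => s * s' * e ∉ E) ⊆
      (E.filter fun e => s' * e ∉ E) ∪ (E.filter fun e => s' * e ∈ E ∧ s * (s' * e) ∉ E) := by
    intro e he
    rw [Finset.mem_filter] at he
    rw [Finset.mem_union, Finset.mem_filter, Finset.mem_filter]
    by_cases hc : s' * e ∈ E
    · right
      refine ⟨he.1, hc, ?_⟩
      rw [← mul_assoc]
      exact he.2
    · left
      exact ⟨he.1, hc⟩
  have h2 : (E.filter fun e => s' * e ∈ E ∧ s * (s' * e) ∉ E).card ≤ (E.filter fun e => s * e ∉ E).card := by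
    apply Finset.card_le_card_of_injOn (fun e => s' * e)
    · intro e he
      simp only [Finset.coe_filter, Set.mem_ofPred_eq] at he ⊢
      exact ⟨he.2.1, he.2.2⟩
    · intro a _ b _ hab
      exact Nat.eq_of_mul_eq_mul_left hs' hab
  have h3 := (Finset.card_le_card h1).trans (Finset.card_union_le _ _)
  have h4 : ((E.filter fun e => s * s' * e ∉ E).card : ℝ) ≤
      ((E.filter fun e => s' * e ∉ E).card : ℝ) + ((E.filter fun e => s * e ∉ E).card : ℝ) := by
    have := h3.trans (Nat.add_le_add_left h2 _)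
    exact_mod_cast this
  linarith

private theorem fol_prime {N p X : ℕ} (hN : N ≠ 0) (hp : p.Prime) (hX : N.factorization p = X) :
    ((N.divisors.filter fun e => p * e ∉ N.divisors).card : ℕ) * (X + 1) ≤ N.divisors.card := by
  have key : ∀ e ∈ N.divisors.filter (fun e => p * e ∉ N.divisors), e ∣ N ∧ e.factorization p = X := by
    intro e he
    rw [Finset.mem_filter, Nat.mem_divisors, Nat.mem_divisors] at he
    obtain ⟨⟨he1, _⟩, he2⟩ := he
    have he0 : e ≠ 0 := fun h => hN (by rw [h] at he1; exact Nat.eq_zero_of_zero_dvd he1)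
    refine ⟨he1, ?_⟩
    have hle : e.factorization p ≤ X := by
      rw [← hX]
      exact (Nat.factorization_le_iff_dvd he0 hN).2 he1 p
    by_contra hne
    have hlt : e.factorization p < X := lt_of_le_of_ne hle hne
    apply he2
    refine ⟨?_, hN⟩
    rw [← Nat.factorization_le_iff_dvd (mul_ne_zero hp.ne_zero he0) hN]
    rw [Nat.factorization_mul hp.ne_zero he0, hp.factorization]
    intro q
    simp only [Finsupp.coe_add, Pi.add_apply]
    by_cases hq : q = p
    · subst hq
      simp only [Finsupp.single_eq_same]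
      omega
    · rw [Finsupp.single_apply, if_neg (fun h => hq h.symm), zero_add]
      exact (Nat.factorization_le_iff_dvd he0 hN).2 he1 q
  have hinj : ((N.divisors.filter fun e => p * e ∉ N.divisors) ×ˢ range (X + 1)).card ≤ N.divisors.card := by
    apply Finset.card_le_card_of_injOn (fun t => t.1 / p ^ t.2)
    · intro t ht
      rw [Finset.mem_coe, Finset.mem_product] at ht
      rw [Finset.mem_coe, Nat.mem_divisors]
      obtain ⟨h1, h2⟩ := key t.1 ht.1
      exact ⟨(Nat.div_dvd_of_dvd (((hp.pow_dvd_iff_le_factorization (fun h => hN (by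
        rw [h] at h1; exact Nat.eq_zero_of_zero_dvd h1))).2 (by
          rw [h2]; exact Nat.lt_succ_iff.1 (Finset.mem_range.1 ht.2))))).trans h1, hN⟩
    · intro t ht t' ht' htt
      rw [Finset.mem_coe, Finset.mem_product] at ht ht'
      obtain ⟨h1, h2⟩ := key t.1 ht.1
      obtain ⟨h1', h2'⟩ := key t'.1 ht'.1
      have hne : t.1 ≠ 0 := fun h => hN (by rw [h] at h1; exact Nat.eq_zero_of_zero_dvd h1)
      have hne' : t'.1 ≠ 0 := fun h => hN (by rw [h] at h1'; exact Nat.eq_zero_of_zero_dvd h1')
      have hd : p ^ t.2 ∣ t.1 := (hp.pow_dvd_iff_le_factorization hne).2 (by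
          rw [h2]; exact Nat.lt_succ_iff.1 (Finset.mem_range.1 ht.2))
      have hd' : p ^ t'.2 ∣ t'.1 := (hp.pow_dvd_iff_le_factorization hne').2 (by
          rw [h2']; exact Nat.lt_succ_iff.1 (Finset.mem_range.1 ht'.2))
      have htt1 : t.1 / p ^ t.2 = t'.1 / p ^ t'.2 := htt
      have hf : (t.1 / p ^ t.2).factorization p = (t'.1 / p ^ t'.2).factorization p := by rw [htt1]
      rw [Nat.factorization_div hd, Nat.factorization_div hd'] at hf
      simp only [Finsupp.coe_tsub, Pi.sub_apply, hp.factorization_pow, Finsupp.single_eq_same] at hf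
      rw [h2, h2'] at hf
      have e1 := Nat.lt_succ_iff.1 (Finset.mem_range.1 ht.2)
      have e2 := Nat.lt_succ_iff.1 (Finset.mem_range.1 ht'.2)
      have e3 : t.2 = t'.2 := by omega
      have e4 : t.1 = t'.1 := by
        rw [← Nat.div_mul_cancel hd, ← Nat.div_mul_cancel hd', htt1, e3]
      exact Prod.ext e4 e3
  rwa [Finset.card_product, Finset.card_range] at hinj

/-- FOL2.  PROOF: let `N = (∏ over the primes q ≤ K of q)^X` and `E` = divisors of `N`.  For a prime `p ≤ K`: `p e ∤ N` for a divisor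
`e` of `N` iff `v_p(e) = X`, that is `e = p^X e'` with `e' ∣ N / p^X`, `τ(N / p^X) = τ(N) / (X + 1)`.  So `FolBy (1/(X+1)) E p`; by
induction over the prime factorisation (FOL1) `FolBy (Ω(s)/(X+1)) E s` for all `s ∈ S` (`K` larger than all of them); `X` large. -/
theorem exists_fol (S : Finset ℕ) (hS : ∀ s ∈ S, 0 < s) (κ : ℝ) (hκ : 0 < κ) :
    ∃ E : Finset ℕ, E.Nonempty ∧ (∀ e ∈ E, 0 < e) ∧ ∀ s ∈ S, FolBy κ E s := by
  set K : ℕ := S.sup id with hK
  obtain ⟨X, hX⟩ := exists_nat_gt ((K : ℝ) / κ)
  have hKX : (K : ℝ) / (X + 1) ≤ κ := by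
    rw [div_lt_iff₀ hκ] at hX
    rw [div_le_iff₀ (by positivity)]
    nlinarith
  set N : ℕ := ∏ q ∈ (Finset.range (K + 1)).filter Nat.Prime, q ^ X with hN
  have hN0 : N ≠ 0 := by
    rw [hN]
    exact Finset.prod_ne_zero_iff.2 fun q hq => pow_ne_zero _ (Finset.mem_filter.1 hq).2.ne_zero
  have hfac : ∀ p : ℕ, p.Prime → p ≤ K → N.factorization p = X := by
    intro p hp hpK
    rw [hN, Nat.factorization_prod (fun q hq => pow_ne_zero _ (Finset.mem_filter.1 hq).2.ne_zero)]
    rw [Finsupp.finsetSum_apply]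
    rw [Finset.sum_eq_single p]
    · rw [hp.factorization_pow, Finsupp.single_eq_same]
    · intro q hq hqp
      rw [(Finset.mem_filter.1 hq).2.factorization_pow, Finsupp.single_apply, if_neg hqp]
    · intro h
      exact absurd (Finset.mem_filter.2 ⟨Finset.mem_range.2 (by omega), hp⟩) h
  have hprime : ∀ p : ℕ, p.Prime → p ≤ K → FolBy (1 / ((X : ℝ) + 1)) N.divisors p := by
    intro p hp hpK
    have := fol_prime hN0 hp (hfac p hp hpK)
    unfold FolBy
    rw [one_div, inv_mul_eq_div, le_div_iff₀ (by positivity)]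
    exact_mod_cast this
  have hall : ∀ n : ℕ, 0 < n → n ≤ K → FolBy ((n : ℝ) / ((X : ℝ) + 1)) N.divisors n := by
    intro n
    induction n using induction_on_primes with
    | zero => intro h; exact absurd h (lt_irrefl _)
    | one =>
      intro _ _
      unfold FolBy
      have : (N.divisors.filter fun e => 1 * e ∉ N.divisors) = ∅ := by
        rw [Finset.filter_eq_empty_iff]
        intro e he
        rw [one_mul]
        exact fun h => h he
      rw [this]
      simp only [Finset.card_empty, Nat.cast_zero]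
      positivity
    | prime_mul p a hp ih =>
      intro hpos hle
      have ha : 0 < a := Nat.pos_of_ne_zero (fun h => by rw [h, mul_zero] at hpos; exact lt_irrefl _ hpos)
      have hpK : p ≤ K := le_trans (Nat.le_mul_of_pos_right p ha) hle
      have haK : a ≤ K := le_trans (Nat.le_mul_of_pos_left a hp.pos) hle
      have h1 := FolBy.mul ha (hprime p hp hpK) (ih ha haK)
      unfold FolBy at h1 ⊢
      refine h1.trans (mul_le_mul_of_nonneg_right ?_ (Nat.cast_nonneg _))
      rw [← add_div]
      apply div_le_div_of_nonneg_right _ (by positivity)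
      have h2 : 1 + a ≤ p * a := by
        have := hp.two_le
        nlinarith
      exact_mod_cast h2
  refine ⟨N.divisors, ⟨1, Nat.mem_divisors.2 ⟨one_dvd _, hN0⟩⟩, ?_, ?_⟩
  · intro e he
    exact Nat.pos_of_mem_divisors he
  · intro s hs
    have hsK : s ≤ K := by
      rw [hK]
      exact Finset.le_sup (f := id) hs
    have h1 := hall s (hS s hs) hsK
    unfold FolBy at h1 ⊢
    refine h1.trans (mul_le_mul_of_nonneg_right ?_ (Nat.cast_nonneg _))
    refine le_trans ?_ hKX
    apply div_le_div_of_nonneg_right _ (by positivity)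
    exact_mod_cast hsK

end Pool.Agent.AA
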