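import Pool.Agent.AA.Defs

/-! AA (one of D, 2D, .., ND), module KAP. -/

set_option autoImplicit false

namespace Pool.Agent.AA

open Finset Filter Topology Pool.Agent.StrA

private theorem kap_succ (w : ℕ) :
    ∏ p ∈ (range (w + 1 + 1)).filter Nat.Prime, ((p : ℝ) / (p - 1)) =
      (∏ p ∈ (range (w + 1)).filter Nat.Prime, ((p : ℝ) / (p - 1))) *
        (if (w + 1).Prime then ((w + 1 : ℕ) : ℝ) / (((w + 1 : ℕ) : ℝ) - 1) else 1) := by
  rw [prod_filter, prod_filter, prod_range_succ]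

private theorem kap_nonneg (w : ℕ) :
    0 ≤ ∏ p ∈ (range (w + 1)).filter Nat.Prime, ((p : ℝ) / (p - 1)) := by
  refine prod_nonneg fun p hp => ?_
  have h1 := (mem_filter.1 hp).2.one_lt
  have h2 : (1 : ℝ) < p := by exact_mod_cast h1
  exact div_nonneg (by linarith) (by linarith)

private theorem kap_aux (m : ℕ) :
    ∏ p ∈ (range (2 * m + 1 + 1)).filter Nat.Prime, ((p : ℝ) / (p - 1)) ≤ 2 * √(2 * m + 1) ∧
      ∏ p ∈ (range (2 * m + 2 + 1)).filter Nat.Prime, ((p : ℝ) / (p - 1)) ≤ 2 * √(2 * m + 1) := by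
  induction m with
  | zero =>
    constructor
    · rw [kap_succ]
      simp
      norm_num [Finset.prod_filter, Finset.prod_range_succ]
    · rw [kap_succ, kap_succ]
      norm_num [Finset.prod_filter, Finset.prod_range_succ, Nat.prime_two]
  | succ m ih =>
    have h1 : ∏ p ∈ (range (2 * (m + 1) + 1 + 1)).filter Nat.Prime, ((p : ℝ) / (p - 1)) ≤
        2 * √(2 * ((m + 1 : ℕ) : ℝ) + 1) := by
      have e1 : 2 * (m + 1) + 1 + 1 = (2 * m + 2) + 1 + 1 := by ring
      rw [e1, kap_succ]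
      set P := ∏ p ∈ (range (2 * m + 2 + 1)).filter Nat.Prime, ((p : ℝ) / (p - 1)) with hP
      have hP0 : 0 ≤ P := kap_nonneg _
      set c : ℝ := ((2 * m + 2 + 1 : ℕ) : ℝ) / (((2 * m + 2 + 1 : ℕ) : ℝ) - 1) with hc
      have hc' : c = (2 * m + 3) / (2 * m + 2) := by
        rw [hc]; push_cast; congr 1 <;> ring
      have hm : (0 : ℝ) ≤ m := Nat.cast_nonneg m
      have hc1 : 1 ≤ c := by
        rw [hc', one_le_div (by positivity)]; linarith
      have h2 : (if (2 * m + 2 + 1).Prime then c else 1) ≤ c := by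
        split_ifs
        · exact le_refl c
        · exact hc1
      have h3 : √(2 * m + 1) * c ≤ √(2 * ((m + 1 : ℕ) : ℝ) + 1) := by
        apply Real.le_sqrt_of_sq_le
        rw [mul_pow, Real.sq_sqrt (by positivity), hc', div_pow, mul_div_assoc',
          div_le_iff₀ (by positivity)]
        push_cast
        nlinarith [mul_nonneg hm hm, mul_nonneg hm (mul_nonneg hm hm)]
      calc P * (if (2 * m + 2 + 1).Prime then c else 1) ≤ (2 * √(2 * m + 1)) * c :=
            mul_le_mul ih.2 h2 (by split_ifs <;> linarith) (by positivity)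
        _ = 2 * (√(2 * m + 1) * c) := by ring
        _ ≤ _ := by linarith
    refine ⟨h1, ?_⟩
    have e2 : 2 * (m + 1) + 2 + 1 = (2 * (m + 1) + 1) + 1 + 1 := by ring
    rw [e2, kap_succ, if_neg, mul_one]
    · exact h1
    · intro hp
      have h2 : 2 ∣ 2 * (m + 1) + 1 + 1 := by omega
      have := (Nat.prime_dvd_prime_iff_eq Nat.prime_two hp).1 h2
      omega

/-- KAP.  PROOF: `∏_{p ≤ w} p/(p-1) ≤ 2 ∏_{3 ≤ k ≤ w, k odd} k/(k-1)` and `(k/(k-1))² ≤ k/(k-2)`; telescoping. -/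
theorem kap_le (w : ℕ) (hw : 1 ≤ w) : ∏ p ∈ (range (w + 1)).filter Nat.Prime, ((p : ℝ) / (p - 1)) ≤ 2 * √w := by
  rcases Nat.even_or_odd' w with ⟨m, rfl | rfl⟩
  · obtain ⟨k, rfl⟩ : ∃ k, m = k + 1 := ⟨m - 1, by omega⟩
    have h1 := (kap_aux k).2
    have e1 : 2 * (k + 1) + 1 = 2 * k + 2 + 1 := by ring
    rw [e1]
    refine le_trans h1 ?_
    apply mul_le_mul_of_nonneg_left _ (by norm_num)
    apply Real.sqrt_le_sqrt
    push_cast
    linarith
  · have h1 := (kap_aux m).1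
    refine le_trans h1 (le_of_eq ?_)
    push_cast
    rfl

end Pool.Agent.AA
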