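import Pool.Agent.AA.Fol
import Pool.Agent.AA.LMb

/-! AA (one of D, 2D, .., ND), module LVL: the sequence of levels. -/

set_option autoImplicit false

namespace Pool.Agent.AA

open Finset Filter Topology Pool.Agent.StrA

/-- there are bases with large mean of the bad sets of the first `N` multiples -/
def Hyp (B : ℕ → Set ℤ) (ε : ℝ) : Prop :=
  ∀ N L : ℕ, 0 < L → ∃ D : ℕ, 0 < D ∧ L ∣ D ∧ ∃ M : LM, M.Inv 1 ∧
    ∀ t : ℕ, 0 < t → t ≤ N → ε * ((D * t).totient / (D * t : ℕ) : ℝ) ≤ M.m (ind (B (D * t)))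

/-- LVL1: the next level.  PROOF: `E` from `exists_fol` for the set of all `e a` (`e ∈ x.E`, `x ∈ s`, `a ∈ A`) and all `a ∈ A`;
`L` = product of all `x.D * x.L * (e * a)`; `N` = sum of all `L * (e * a)`, `e ∈ E`, `a ∈ A`; `D`, `M` from `Hyp B ε` for `N` and
`(max N R)!`. -/
theorem next_level {B : ℕ → Set ℤ} {ε : ℝ} (hB : Hyp B ε) (R : ℕ) (A : Finset ℕ) (hA : DivSet A) (κ : ℝ) (hκ : 0 < κ)
    (s : Finset Lv) (hs : ∀ x ∈ s, x.Ok B ε R A) : ∃ y : Lv, y.Ok B ε R A ∧ ∀ x ∈ s, x.Lt κ A y := by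
  classical
  obtain ⟨E, hEne, hEpos, hEf⟩ := exists_fol
    ((s.biUnion fun x => x.E.biUnion fun e => A.image fun a => e * a) ∪ A) (by
      intro t ht
      rw [mem_union] at ht
      rcases ht with ht | ht
      · rw [mem_biUnion] at ht
        obtain ⟨x, hx, ht⟩ := ht
        rw [mem_biUnion] at ht
        obtain ⟨e, he, ht⟩ := ht
        rw [mem_image] at ht
        obtain ⟨a, ha, rfl⟩ := ht
        exact Nat.mul_pos ((hs x hx).posE e he) (hA.1 a ha)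
      · exact hA.1 t ht) κ hκ
  obtain ⟨L, hL⟩ : ∃ L : ℕ, L = ∏ x ∈ s, ∏ e ∈ x.E, ∏ a ∈ A, (x.D * x.L * (e * a)) := ⟨_, rfl⟩
  have hLpos : 0 < L := by
    rw [hL]
    refine prod_pos fun x hx => prod_pos fun e he => prod_pos fun a ha => ?_
    exact Nat.mul_pos (Nat.mul_pos (hs x hx).posD (hs x hx).posL)
      (Nat.mul_pos ((hs x hx).posE e he) (hA.1 a ha))
  obtain ⟨N, hN⟩ : ∃ N : ℕ, N = ∑ e ∈ E, ∑ a ∈ A, L * (e * a) := ⟨_, rfl⟩
  obtain ⟨D, hD, hDf, M, hM, hbig⟩ := hB N (max N R).factorial (Nat.factorial_pos _)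
  refine ⟨⟨E, L, N, D, M⟩, ⟨hEne, hEpos, hLpos, ?_, hD, hDf, hM, hbig⟩, ?_⟩
  · intro e he a ha
    show L * (e * a) ≤ N
    rw [hN]
    calc L * (e * a) ≤ ∑ a ∈ A, L * (e * a) :=
          single_le_sum (f := fun a => L * (e * a)) (fun _ _ => Nat.zero_le _) ha
      _ ≤ ∑ e ∈ E, ∑ a ∈ A, L * (e * a) :=
          single_le_sum (f := fun e => ∑ a ∈ A, L * (e * a)) (fun _ _ => Nat.zero_le _) he
  · intro x hx
    refine ⟨?_, ?_, ?_⟩
    · intro e he a ha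
      show x.D * x.L * (e * a) ∣ L
      rw [hL]
      exact ((dvd_prod_of_mem (fun a => x.D * x.L * (e * a)) ha).trans
        (dvd_prod_of_mem (fun e => ∏ a ∈ A, (x.D * x.L * (e * a))) he)).trans
        (dvd_prod_of_mem (fun x : Lv => ∏ e ∈ x.E, ∏ a ∈ A, (x.D * x.L * (e * a))) hx)
    · intro e he a ha
      refine hEf (e * a) ?_
      rw [mem_union]
      refine Or.inl ?_
      rw [mem_biUnion]
      refine ⟨x, hx, ?_⟩
      rw [mem_biUnion]
      exact ⟨e, he, mem_image.mpr ⟨a, ha, rfl⟩⟩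
    · intro a ha
      exact hEf a (mem_union_right _ ha)

/-- LVL2: the sequence of levels.  PROOF: `exists_seq_of_forall_finset_exists`. -/
theorem exists_levels {B : ℕ → Set ℤ} {ε : ℝ} (hB : Hyp B ε) (R : ℕ) (A : Finset ℕ) (hA : DivSet A) (κ : ℝ) (hκ : 0 < κ) :
    ∃ y : ℕ → Lv, (∀ n, (y n).Ok B ε R A) ∧ ∀ m n, m < n → (y m).Lt κ A (y n) := by
  obtain ⟨y, hy1, hy2⟩ := exists_seq_of_forall_finset_exists (fun x : Lv => x.Ok B ε R A)
    (fun x y : Lv => x.Lt κ A y) (fun s hs => next_level hB R A hA κ hκ s hs)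
  exact ⟨y, hy1, fun m n h => hy2 m n h⟩

end Pool.Agent.AA
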