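import Pool.Agent.AA.LMb

/-! AA (one of D, 2D, .., ND), module NST: nested means. -/

set_option autoImplicit false

namespace Pool.Agent.AA

open Finset Filter Topology Pool.Agent.StrA

variable {ι : Type} [DecidableEq ι] (Ms : ι → LM)

/-- NST1 -/
theorem Nst_sum {κ : Type*} (s : Finset κ) (L : List ι) (c : κ → ℝ) (W : κ → (ι → ℤ) → ℝ) (F : ι → ℤ) :
    Nst Ms L (fun F' => ∑ k ∈ s, c k * W k F') F = ∑ k ∈ s, c k * Nst Ms L (W k) F := by
  induction L generalizing W with
  | nil => rfl
  | cons j L ih =>
    change Nst Ms L (fun F' => (Ms j).m fun x => ∑ k ∈ s, c k * W k (Function.update F' j x)) F =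
      ∑ k ∈ s, c k * Nst Ms L (fun F' => (Ms j).m fun x => W k (Function.update F' j x)) F
    rw [← ih]
    congr 1
    funext F'
    rw [LM.sum (Ms j) s (fun k x => c k * W k (Function.update F' j x))]
    exact Finset.sum_congr rfl fun k _ => LM.smul _ _ _

/-- NST2 -/
theorem Nst_sub (L : List ι) (W W' : (ι → ℤ) → ℝ) (F : ι → ℤ) :
    Nst Ms L (fun F' => W F' - W' F') F = Nst Ms L W F - Nst Ms L W' F := by
  induction L generalizing W W' with
  | nil => rfl
  | cons j L ih =>
    change Nst Ms L (fun F' => (Ms j).m fun x => W (Function.update F' j x) -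
      W' (Function.update F' j x)) F =
      Nst Ms L (fun F' => (Ms j).m fun x => W (Function.update F' j x)) F -
      Nst Ms L (fun F' => (Ms j).m fun x => W' (Function.update F' j x)) F
    rw [← ih]
    congr 1
    funext F'
    exact LM.sub _ _ _

/-- NST3 -/
theorem Nst_smul (L : List ι) (c : ℝ) (W : (ι → ℤ) → ℝ) (F : ι → ℤ) :
    Nst Ms L (fun F' => c * W F') F = c * Nst Ms L W F := by
  induction L generalizing W with
  | nil => rfl
  | cons j L ih =>
    change Nst Ms L (fun F' => (Ms j).m fun x => c * W (Function.update F' j x)) F =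
      c * Nst Ms L (fun F' => (Ms j).m fun x => W (Function.update F' j x)) F
    rw [← ih]
    congr 1
    funext F'
    exact LM.smul _ _ _

/-- NST4 -/
theorem Nst_abs_le (L : List ι) {W : (ι → ℤ) → ℝ} {C : ℝ} (hW : ∀ F, |W F| ≤ C) (F : ι → ℤ) : |Nst Ms L W F| ≤ C := by
  induction L generalizing W with
  | nil => exact hW F
  | cons j L ih => exact ih fun F' => LM.abs_le _ fun x => hW _

/-- NST5 -/
theorem Nst_mono (L : List ι) {W W' : (ι → ℤ) → ℝ} {C : ℝ} (hW : ∀ F, |W F| ≤ C) (hW' : ∀ F, |W' F| ≤ C)
    (h : ∀ F, W F ≤ W' F) (F : ι → ℤ) : Nst Ms L W F ≤ Nst Ms L W' F := by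
  induction L generalizing W W' with
  | nil => exact h F
  | cons j L ih =>
    refine ih (fun F' => LM.abs_le _ fun x => hW _) (fun F' => LM.abs_le _ fun x => hW' _)
      fun F' => ?_
    exact LM.mono _ ⟨C, fun x => hW _⟩ ⟨C, fun x => hW' _⟩ fun x => h _

/-- NST6 -/
theorem Nst_nonneg (L : List ι) {W : (ι → ℤ) → ℝ} {C : ℝ} (hW : ∀ F, |W F| ≤ C) (h : ∀ F, 0 ≤ W F) (F : ι → ℤ) :
    0 ≤ Nst Ms L W F := by
  induction L generalizing W with
  | nil => exact h F
  | cons j L ih =>
    exact ih (fun F' => LM.abs_le _ fun x => hW _)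
      fun F' => (Ms j).nonneg' _ ⟨C, fun x => hW _⟩ fun x => h _

/-- NST7 -/
theorem Nst_append (L L' : List ι) (W : (ι → ℤ) → ℝ) (F : ι → ℤ) :
    Nst Ms (L ++ L') W F = Nst Ms L' (fun F' => Nst Ms L W F') F := by
  induction L generalizing W with
  | nil => rfl
  | cons j L ih => exact ih _

/-- NST8: a function that does not depend on the variables of the list -/
theorem Nst_indep (L : List ι) (W : (ι → ℤ) → ℝ) (h : ∀ F, ∀ k ∈ L, ∀ x, W (Function.update F k x) = W F) (F : ι → ℤ) :
    Nst Ms L W F = W F := by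
  induction L generalizing W with
  | nil => rfl
  | cons j L ih =>
    change Nst Ms L (fun F' => (Ms j).m fun x => W (Function.update F' j x)) F = W F
    have h1 : (fun F' : ι → ℤ => (Ms j).m fun x => W (Function.update F' j x)) = W := by
      funext F'
      have h2 : (fun x => W (Function.update F' j x)) = fun _ => W F' := by
        funext x
        exact h F' j List.mem_cons_self x
      rw [h2, LM.const]
    rw [h1]
    exact ih W fun F' k hk x => h F' k (List.mem_cons_of_mem _ hk) x

/-- NST9: a positive nested mean gives a point in the supports.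
PROOF: induction on the list.  For `j :: L`: the function `F' ↦ m_j (x ↦ W (update F' j x))` is bounded and has positive nested
mean, so there is `F'` with `F' k ∈ C k` for `k ∈ L` and `m_j (..) > 0`; by `hs j` not all `x ∈ C j` have `W (update F' j x) ≤ 0`;
`j ∉ L`, so updating `j` does not change the other variables. -/
theorem Nst_point (C : ι → Set ℤ) (L : List ι) (hL : L.Nodup)
    (hs : ∀ j ∈ L, ∀ f, Bdd f → (∀ x ∈ C j, f x ≤ 0) → (Ms j).m f ≤ 0)
    {W : (ι → ℤ) → ℝ} {K : ℝ} (hW : ∀ F, |W F| ≤ K) (F : ι → ℤ) (h : 0 < Nst Ms L W F) :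
    ∃ F' : ι → ℤ, 0 < W F' ∧ ∀ j ∈ L, F' j ∈ C j := by
  induction L generalizing W with
  | nil => exact ⟨F, h, fun j hj => absurd hj List.not_mem_nil⟩
  | cons j L ih =>
    have hL' := List.nodup_cons.1 hL
    obtain ⟨F', hF1, hF2⟩ := ih hL'.2 (fun k hk => hs k (List.mem_cons_of_mem _ hk))
      (W := fun F' => (Ms j).m fun x => W (Function.update F' j x))
      (fun F' => LM.abs_le _ fun x => hW _) h
    by_contra hcon
    push Not at hcon
    have h1 := hs j List.mem_cons_self (fun x => W (Function.update F' j x))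
      ⟨K, fun x => hW _⟩ (fun x hx => by
        by_contra hpos
        push Not at hpos
        obtain ⟨k, hk, hk'⟩ := hcon (Function.update F' j x) hpos
        apply hk'
        by_cases hkj : k = j
        · rw [hkj, Function.update_self]
          exact hx
        · rw [Function.update_of_ne hkj]
          rcases List.mem_cons.1 hk with h2 | h2
          · exact absurd h2 hkj
          · exact hF2 k h2)
    exact absurd hF1 (not_lt.2 h1)

end Pool.Agent.AA
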