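import Pool.Agent.AA.NumD

/-! AA (one of D, 2D, .., ND), module NUMA. -/

set_option autoImplicit false

namespace Pool.Agent.AA

open Finset Filter Topology Pool.Agent.StrA

/-- the group of an index -/
private def numa_grp (k : ℕ) (i : Fin (4 * k)) : Fin 4 :=
  ⟨i.1 / k, by
    have h1 : i.1 < 4 * k := i.2
    exact Nat.div_lt_of_lt_mul (by omega)⟩

private theorem numa_card (k : ℕ) (hk : 1 ≤ k) (g : Fin 4) :
    4 * (univ.filter fun i => numa_grp k i = g).card ≤ 4 * k := by
  refine Nat.mul_le_mul_left 4 ?_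
  have h1 : (univ.filter fun i => numa_grp k i = g).card ≤ (range k).card := by
    refine Finset.card_le_card_of_injOn (fun i => i.1 % k) ?_ ?_
    · intro i _
      exact Finset.mem_coe.2 (mem_range.2 (Nat.mod_lt _ hk))
    · intro i hi j hj hij
      rw [Finset.mem_coe, mem_filter] at hi hj
      have e1 : i.1 / k = g.1 := congrArg Fin.val hi.2
      have e2 : j.1 / k = g.1 := congrArg Fin.val hj.2
      have e3 : i.1 % k = j.1 % k := hij
      apply Fin.ext
      rw [← Nat.div_add_mod i.1 k, ← Nat.div_add_mod j.1 k, e1, e2, e3]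
  rwa [card_range] at h1

/-- NUM.  PROOF: forms `lam a * n + F a`; shift `n` by a large `n0` to make the constant terms natural numbers; groups
`grp i = i / k`, each with `k` forms.  Not proportional: with `t = lam b / lam a` (even) the number `F b - t F a` is coprime to `t`, so
not zero.  Admissible: a prime `p ≤ 4 k` divides all `lam a`, and no `F a`; for `p > 4 k` every form kills at most one class modulo `p`
(none if `p ∣ lam a`, since then `p ∤ F a`).  `DH4` and the pigeonhole principle give `a < b` such that both forms are prime for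
infinitely many `n`; `q = lam a n + F a`, `lam b n + F b = (F b - t F a) + q t`.  So `GI (F b - t F a) t`, contradiction to `Bd`. -/
theorem no_clique {k : ℕ} (hk : 1 ≤ k) (hD : DH4 k) (lam : Fin (4 * k) → ℕ) (F : Fin (4 * k) → ℤ)
    (h0 : ∀ a, 0 < lam a) (hdvd : ∀ a b, a < b → lam a ∣ lam b) (h2 : ∀ a b, a < b → 2 ∣ lam b / lam a)
    (hp : ∀ p : ℕ, p.Prime → p ≤ 4 * k → ∀ a, p ∣ lam a)
    (hF : ∀ a, F a ∈ cop (lam a))
    (hB : ∀ a b, a < b → F b - ((lam b / lam a : ℕ) : ℤ) * F a ∈ Bd (lam b / lam a)) : False := by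
  classical
  -- the shift
  obtain ⟨n0, hn0⟩ : ∃ n0 : ℕ, ∀ i, -F i ≤ n0 := by
    refine ⟨∑ i, (F i).natAbs, fun i => ?_⟩
    have h1 : (F i).natAbs ≤ ∑ i, (F i).natAbs :=
      Finset.single_le_sum (f := fun i => (F i).natAbs) (fun _ _ => Nat.zero_le _) (mem_univ i)
    have h3 : ((F i).natAbs : ℤ) ≤ ((∑ i, (F i).natAbs : ℕ) : ℤ) := by exact_mod_cast h1
    have h4 : -F i ≤ ((F i).natAbs : ℤ) := by
      rw [Int.natCast_natAbs]
      exact neg_le_abs _
    exact h4.trans h3
  obtain ⟨h, hh⟩ : ∃ h : Fin (4 * k) → ℕ, ∀ i, (h i : ℤ) = lam i * n0 + F i := by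
    refine ⟨fun i => (lam i * n0 + F i : ℤ).toNat, fun i => ?_⟩
    apply Int.toNat_of_nonneg
    have h1 : (1 : ℤ) ≤ lam i := by exact_mod_cast h0 i
    have h3 : (0 : ℤ) ≤ n0 := Int.natCast_nonneg n0
    nlinarith [hn0 i]
  -- a prime dividing `lam i` does not divide the form
  have hFp : ∀ (p : ℕ), p.Prime → ∀ i, p ∣ lam i → ¬ (p : ℤ) ∣ F i := by
    intro p hpp i hpi hpF
    have h1 : Int.gcd (F i) (lam i) = 1 := hF i
    have h3 : (p : ℤ) ∣ Int.gcd (F i) (lam i) := Int.dvd_coe_gcd hpF (by exact_mod_cast hpi)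
    rw [h1] at h3
    have h4 : p ∣ 1 := by exact_mod_cast h3
    exact hpp.one_lt.ne' (Nat.dvd_one.1 h4)
  have hform : ∀ (p : ℕ), p.Prime → ∀ i, p ∣ lam i → ∀ n : ℕ, ¬ p ∣ lam i * n + h i := by
    intro p hpp i hpi n hd
    apply hFp p hpp i hpi
    have h1 : (p : ℤ) ∣ ((lam i * n + h i : ℕ) : ℤ) := by exact_mod_cast hd
    push_cast at h1
    rw [hh] at h1
    have h3 : (p : ℤ) ∣ (lam i : ℤ) := by exact_mod_cast hpi
    have h4 : F i = (lam i * n + (lam i * n0 + F i)) - (lam i : ℤ) * (n + n0) := by ring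
    rw [h4]
    exact dvd_sub h1 (dvd_mul_of_dvd_left h3 _)
  -- identity for `a < b`
  have hlam : ∀ a b, a < b → (lam b : ℤ) = ((lam b / lam a : ℕ) : ℤ) * lam a := by
    intro a b hab
    have := Nat.div_mul_cancel (hdvd a b hab)
    exact_mod_cast this.symm
  -- not proportional
  have hnp' : ∀ i j, i < j → lam i * h j ≠ lam j * h i := by
    intro i j hij he
    have h1 : (lam i : ℤ) * h j = lam j * h i := by exact_mod_cast he
    rw [hh, hh, hlam i j hij] at h1
    have h3 : (lam i : ℤ) ≠ 0 := by exact_mod_cast (h0 i).ne'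
    have h4 : F j - ((lam j / lam i : ℕ) : ℤ) * F i = 0 := by
      have : (lam i : ℤ) * (F j - ((lam j / lam i : ℕ) : ℤ) * F i) = 0 := by linear_combination h1
      rcases mul_eq_zero.1 this with h5 | h5
      · exact absurd h5 h3
      · exact h5
    have h5 := (hB i j hij).1
    rw [h4, Int.gcd_zero_left] at h5
    have h6 : lam j / lam i = 1 := by rwa [Int.natAbs_natCast] at h5
    have h7 := h2 i j hij
    rw [h6] at h7
    omega
  have hnp : ∀ i j, i ≠ j → lam i * h j ≠ lam j * h i := by
    intro i j hij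
    rcases lt_or_gt_of_ne hij with h1 | h1
    · exact hnp' i j h1
    · exact fun h3 => hnp' j i h1 h3.symm
  -- admissible
  have hadm : ∀ p : ℕ, p.Prime → ∃ n : ℕ, ∀ i, ¬ p ∣ lam i * n + h i := by
    intro p hpp
    by_cases hpk : p ≤ 4 * k
    · exact ⟨0, fun i => hform p hpp i (hp p hpp hpk i) 0⟩
    · rw [not_le] at hpk
      by_contra hcon
      push Not at hcon
      choose f hf using hcon
      -- injective map from `range p` to the indices
      have h1 : (range p).card ≤ (univ : Finset (Fin (4 * k))).card := by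
        refine Finset.card_le_card_of_injOn f (fun _ _ => Finset.mem_coe.2 (mem_univ _)) ?_
        intro n hn m hm hnm
        rw [Finset.mem_coe, mem_range] at hn hm
        have e1 := hf n
        have e2 := hf m
        rw [← hnm] at e2
        have hpi : ¬ p ∣ lam (f n) := fun h3 => hform p hpp _ h3 n e1
        have e3 : (p : ℤ) ∣ (lam (f n) : ℤ) * ((n : ℤ) - m) := by
          have e4 : (p : ℤ) ∣ ((lam (f n) * n + h (f n) : ℕ) : ℤ) := by exact_mod_cast e1
          have e5 : (p : ℤ) ∣ ((lam (f n) * m + h (f n) : ℕ) : ℤ) := by exact_mod_cast e2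
          have e6 := dvd_sub e4 e5
          push_cast at e6
          have e7 : (lam (f n) : ℤ) * ((n : ℤ) - m) =
            lam (f n) * n + h (f n) - (lam (f n) * m + h (f n)) := by ring
          rw [e7]
          exact e6
        have hpz : Prime (p : ℤ) := Nat.prime_iff_prime_int.1 hpp
        rcases hpz.dvd_or_dvd e3 with h5 | h5
        · exact absurd (by exact_mod_cast h5) hpi
        · have h6 : (n : ℤ) - m = 0 := by
            apply Int.eq_zero_of_abs_lt_dvd h5
            rw [abs_lt]
            have e8 : (n : ℤ) < p := by exact_mod_cast hn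
            have e9 : (m : ℤ) < p := by exact_mod_cast hm
            have e10 : (0 : ℤ) ≤ n := Int.natCast_nonneg n
            have e11 : (0 : ℤ) ≤ m := Int.natCast_nonneg m
            constructor <;> linarith
          have : (n : ℤ) = m := by linarith
          exact_mod_cast this
      rw [card_range, card_univ, Fintype.card_fin] at h1
      omega
  have hres := hD lam h (numa_grp k) (numa_card k hk) h0 hnp hadm
  -- pigeonhole
  obtain ⟨i, j, hij, hinf⟩ : ∃ i j, i < j ∧
      {n : ℕ | (lam i * n + h i).Prime ∧ (lam j * n + h j).Prime}.Infinite := by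
    by_contra hcon
    push Not at hcon
    have hfin : (⋃ ij ∈ {ij : Fin (4 * k) × Fin (4 * k) | ij.1 < ij.2},
        {n : ℕ | (lam ij.1 * n + h ij.1).Prime ∧ (lam ij.2 * n + h ij.2).Prime}).Finite := by
      refine Set.Finite.biUnion (Set.toFinite _) fun ij hlt => ?_
      exact hcon ij.1 ij.2 hlt
    obtain ⟨x, hx⟩ := hfin.bddAbove
    obtain ⟨n, hn, i, j, hg, hpi, hpj⟩ := hres (x + 1)
    have hne : i ≠ j := fun h3 => hg (by rw [h3])
    have hmem : n ∈ (⋃ ij ∈ {ij : Fin (4 * k) × Fin (4 * k) | ij.1 < ij.2},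
        {n : ℕ | (lam ij.1 * n + h ij.1).Prime ∧ (lam ij.2 * n + h ij.2).Prime}) := by
      rcases lt_or_gt_of_ne hne with h1 | h1
      · exact Set.mem_biUnion (x := (i, j)) h1 ⟨hpi, hpj⟩
      · exact Set.mem_biUnion (x := (j, i)) h1 ⟨hpj, hpi⟩
    have := hx hmem
    omega
  apply (hB i j hij).2
  have hinj : Function.Injective fun n : ℕ => lam i * n + h i := by
    intro n m hnm
    have h1 : lam i * n + h i = lam i * m + h i := hnm
    have h3 : lam i * n = lam i * m := by omega
    exact Nat.eq_of_mul_eq_mul_left (h0 i) h3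
  refine (hinf.image (hinj.injOn)).mono ?_
  rintro q ⟨n, ⟨hq, hr⟩, rfl⟩
  refine ⟨hq, lam j * n + h j, hr, ?_⟩
  have e := hlam i j hij
  generalize lam j / lam i = t at e ⊢
  push_cast
  rw [hh, hh, e]
  ring

end Pool.Agent.AA
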