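import Pool.Agent.AA.NumD
import Pool.Agent.AA.Rel
import Pool.Agent.AA.Lvl

/-! AA (one of D, 2D, .., ND), module NUMB. -/

set_option autoImplicit false

namespace Pool.Agent.AA

open Finset Filter Topology Pool.Agent.StrA

open Classical in
private theorem numb_sum (E : Set ℤ) (s : Finset ℤ) :
    ∑ a ∈ s, ind E a = ((s.filter fun a => a ∈ E).card : ℝ) := by
  unfold ind
  rw [← Finset.sum_boole]
  refine Finset.sum_congr rfl fun a _ => ?_
  rw [Set.indicator_apply]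

private theorem numb_count (g : ℕ) (hg : 2 ∣ g) (x : ℤ) (X : ℕ) (ε : ℝ)
    (h : ({a : ℤ | x < a ∧ a ≤ x + X ∧ Int.gcd a (g : ℕ) = 1 ∧ 2 ∣ a * (g : ℕ) ∧ GI a (g : ℕ)}.ncard : ℝ) <
      (1 - ε) * ({a : ℤ | x < a ∧ a ≤ x + X ∧ Int.gcd a (g : ℕ) = 1 ∧ 2 ∣ a * (g : ℕ)}.ncard : ℝ)) :
    0 ≤ ∑ a ∈ Ioc x (x + X), (ind (Bd g) a - ε * ind (cop g) a) := by
  classical
  have h2 : ∀ a : ℤ, (2 : ℤ) ∣ a * (g : ℕ) := by
    intro a
    have : (2 : ℤ) ∣ (g : ℤ) := by exact_mod_cast hg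
    exact dvd_mul_of_dvd_right this a
  have e1 : {a : ℤ | x < a ∧ a ≤ x + X ∧ Int.gcd a (g : ℕ) = 1 ∧ 2 ∣ a * (g : ℕ)} =
      (((Ioc x (x + X)).filter fun a => a ∈ cop g : Finset ℤ) : Set ℤ) := by
    ext a
    rw [Set.mem_ofPred_eq, Finset.mem_coe, mem_filter, mem_Ioc]
    constructor
    · rintro ⟨p1, p2, p3, -⟩
      exact ⟨⟨p1, p2⟩, p3⟩
    · rintro ⟨⟨p1, p2⟩, p3⟩
      exact ⟨p1, p2, p3, h2 a⟩
  have e2 : {a : ℤ | x < a ∧ a ≤ x + X ∧ Int.gcd a (g : ℕ) = 1 ∧ 2 ∣ a * (g : ℕ) ∧ GI a (g : ℕ)} =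
      (((Ioc x (x + X)).filter fun a => a ∈ cop g ∧ GI a g : Finset ℤ) : Set ℤ) := by
    ext a
    rw [Set.mem_ofPred_eq, Finset.mem_coe, mem_filter, mem_Ioc]
    constructor
    · rintro ⟨p1, p2, p3, -, p4⟩
      exact ⟨⟨p1, p2⟩, p3, p4⟩
    · rintro ⟨⟨p1, p2⟩, p3, p4⟩
      exact ⟨p1, p2, p3, h2 a, p4⟩
  rw [e1, e2, Set.ncard_coe_finset, Set.ncard_coe_finset] at h
  rw [Finset.sum_sub_distrib, ← Finset.mul_sum, numb_sum, numb_sum]
  have e3 : ((Ioc x (x + X)).filter fun a => a ∈ cop g).card =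
      ((Ioc x (x + X)).filter fun a => a ∈ cop g ∧ GI a g).card +
        ((Ioc x (x + X)).filter fun a => a ∈ Bd g).card := by
    rw [← Finset.card_filter_add_card_filter_not (s := (Ioc x (x + X)).filter fun a => a ∈ cop g)
      (fun a => GI a g), Finset.filter_filter, Finset.filter_filter]
    have e0 : ((Ioc x (x + X)).filter fun a => a ∈ cop g ∧ ¬ GI a g) =
        (Ioc x (x + X)).filter fun a => a ∈ Bd g := by
      ext a
      rw [mem_filter, mem_filter]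
      exact Iff.rfl
    rw [e0]
  have e4 : (((Ioc x (x + X)).filter fun a => a ∈ cop g).card : ℝ) =
      ((Ioc x (x + X)).filter fun a => a ∈ cop g ∧ GI a g).card +
        ((Ioc x (x + X)).filter fun a => a ∈ Bd g).card := by exact_mod_cast e3
  rw [e4] at h ⊢
  linarith

/-- HYP.  The negation of the theorem gives `Hyp`.
PROOF: given `N`, `L` apply `h` to `2 L N` (at least 1) and get `D0`; `D = 2 L D0`; for every `n` an interval `(x n, x n + X n]`,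
`X n ≥ n`, on which for every `t ≤ N` (`D t = D0 (2 L t)` is even, so the parity condition is void) more than `ε` times the number of
`a` coprime to `D t` are bad.  `exists_mean` for these intervals, `exists_lm`; for `t ≤ N` the function
`ind (Bd (D t)) - ε ind (cop (D t))` has nonnegative sums, so nonnegative mean; `cop_mean` (module REL; import it). -/
theorem hyp_of_not (ε : ℝ) (hε : 0 < ε)
    (h : ∀ N : ℕ, ∃ D : ℕ, 0 < D ∧ ∀ H : ℕ, ∃ (x : ℤ) (X : ℕ), H ≤ X ∧ ∀ t : ℕ, 0 < t → t ≤ N →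
      ({a : ℤ | x < a ∧ a ≤ x + X ∧ Int.gcd a (D * t : ℕ) = 1 ∧ 2 ∣ a * (D * t : ℕ) ∧ GI a (D * t : ℕ)}.ncard : ℝ) <
        (1 - ε) * ({a : ℤ | x < a ∧ a ≤ x + X ∧ Int.gcd a (D * t : ℕ) = 1 ∧ 2 ∣ a * (D * t : ℕ)}.ncard : ℝ)) :
    Hyp Bd ε := by
  intro N L hL
  obtain ⟨D0, hD0, hint⟩ := h (2 * L * N)
  choose x X hX hcnt using hint
  have hlim : Tendsto X atTop atTop := tendsto_atTop_mono hX tendsto_id
  obtain ⟨M, hM, hmean⟩ := exists_mean x X hlim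
  obtain ⟨M', hM'⟩ := exists_lm M
  have hinv : M'.Inv 1 := by
    intro f hf
    rw [hM' _ (hf.shift 1), hM' _ hf]
    exact hM f hf
  refine ⟨2 * L * D0, by positivity, ⟨2 * D0, by ring⟩, M', hinv, fun t ht htN => ?_⟩
  have hg0 : 0 < 2 * L * D0 * t := by positivity
  have hge : D0 * (2 * L * t) = 2 * L * D0 * t := by ring
  have hg2 : 2 ∣ 2 * L * D0 * t := ⟨L * D0 * t, by ring⟩
  have hbd : Bdd fun a => ind (Bd (2 * L * D0 * t)) a - ε * ind (cop (2 * L * D0 * t)) a := by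
    obtain ⟨C, hC⟩ := (bdd_ind (Bd (2 * L * D0 * t))).add
      ((bdd_ind (cop (2 * L * D0 * t))).smul (-ε))
    refine ⟨C, fun y => ?_⟩
    have h5 : |ind (Bd (2 * L * D0 * t)) y + -ε * ind (cop (2 * L * D0 * t)) y| ≤ C := hC y
    rwa [neg_mul, ← sub_eq_add_neg] at h5
  have h1 : 0 ≤ M'.m (fun a => ind (Bd (2 * L * D0 * t)) a - ε * ind (cop (2 * L * D0 * t)) a) := by
    rw [hM' _ hbd]
    refine hmean _ hbd _ ?_
    · intro n
      rw [zero_mul]
      have h3 := hcnt n (2 * L * t) (by positivity) (Nat.mul_le_mul_left _ htN)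
      rw [hge] at h3
      exact numb_count _ hg2 _ _ ε h3
  rw [LM.sub, LM.smul, cop_mean M' hinv _ hg0] at h1
  linarith

end Pool.Agent.AA
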