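import Pool.Agent.AA.Defs

/-! AA (one of D, 2D, .., ND), definitions of the number theory part. -/

set_option autoImplicit false

namespace Pool.Agent.AA

open Finset Filter Topology Pool.Agent.StrA

/-- `a + q d` is prime for infinitely many primes `q` -/
def GI (a d : ℤ) : Prop := {q : ℕ | q.Prime ∧ ∃ p : ℕ, p.Prime ∧ (p : ℤ) = a + q * d}.Infinite

/-- bad constant terms for `d` -/
def Bd (d : ℕ) : Set ℤ := {a | Int.gcd a d = 1 ∧ ¬ GI a d}

/-- four groups of `k` linear forms: two forms of different groups are prime together infinitely often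
(this is `Pool.Agent.SL.DHLG 4 (4 * k)`, proved in `Pool.Agent.PolD.dhlg4`) -/
def DH4 (k : ℕ) : Prop :=
  ∀ (s h : Fin (4 * k) → ℕ) (grp : Fin (4 * k) → Fin 4), (∀ g, 4 * (univ.filter fun i => grp i = g).card ≤ 4 * k) →
    (∀ i, 0 < s i) → (∀ i j, i ≠ j → s i * h j ≠ s j * h i) →
    (∀ p : ℕ, p.Prime → ∃ n : ℕ, ∀ i, ¬ p ∣ s i * n + h i) →
    ∀ x : ℕ, ∃ n ≥ x, ∃ i j, grp i ≠ grp j ∧ (s i * n + h i).Prime ∧ (s j * n + h j).Prime

theorem Bd_sub (g : ℕ) : Bd g ⊆ cop g := fun _ h => h.1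


end Pool.Agent.AA
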