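import Pool.Agent.AA.Abs
import Pool.Agent.AA.NumA
import Pool.Agent.AA.NumB

/-! AA, module OUT: the theorem. -/

set_option autoImplicit false

namespace Pool.Agent.AA

open Finset Filter Topology Pool.Agent.StrA

theorem main {k : ℕ} (hk : 1 ≤ k) (hD : DH4 k) (ε : ℝ) (hε : 0 < ε) :
    ∃ N : ℕ, ∀ D : ℕ, 0 < D → ∃ H : ℕ, ∀ (x : ℤ) (X : ℕ), H ≤ X → ∃ t : ℕ, 0 < t ∧ t ≤ N ∧
      (1 - ε) * ({a : ℤ | x < a ∧ a ≤ x + X ∧ Int.gcd a (D * t : ℕ) = 1 ∧ 2 ∣ a * (D * t : ℕ)}.ncard : ℝ) ≤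
      ({a : ℤ | x < a ∧ a ≤ x + X ∧ Int.gcd a (D * t : ℕ) = 1 ∧ 2 ∣ a * (D * t : ℕ) ∧ GI a (D * t : ℕ)}.ncard : ℝ) := by
  by_contra hcon
  -- decrease `ε` below 1
  have hneg : ∀ N : ℕ, ∃ D : ℕ, 0 < D ∧ ∀ H : ℕ, ∃ (x : ℤ) (X : ℕ), H ≤ X ∧ ∀ t : ℕ, 0 < t → t ≤ N →
      ({a : ℤ | x < a ∧ a ≤ x + X ∧ Int.gcd a (D * t : ℕ) = 1 ∧ 2 ∣ a * (D * t : ℕ) ∧ GI a (D * t : ℕ)}.ncard : ℝ) <
        (1 - min ε 1) * ({a : ℤ | x < a ∧ a ≤ x + X ∧ Int.gcd a (D * t : ℕ) = 1 ∧ 2 ∣ a * (D * t : ℕ)}.ncard : ℝ) := by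
    intro N
    by_contra h1
    apply hcon
    refine ⟨N, fun D hD' => ?_⟩
    by_contra h2
    apply h1
    refine ⟨D, hD', fun H => ?_⟩
    by_contra h3
    apply h2
    refine ⟨H, fun x X hX => ?_⟩
    by_contra h4
    apply h3
    refine ⟨x, X, hX, fun t ht htN => ?_⟩
    by_contra h5
    apply h4
    refine ⟨t, ht, htN, le_trans ?_ (not_lt.mp h5)⟩
    exact mul_le_mul_of_nonneg_right (by linarith [min_le_left ε 1]) (Nat.cast_nonneg _)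
  have hH := hyp_of_not (min ε 1) (lt_min hε one_pos) hneg
  obtain ⟨lam, F, h0, hdvd, h2, hp, hF, hB⟩ := abs_main (lt_min hε one_pos) (min_le_right _ _) hH Bd_sub (4 * k) (by omega)
  exact no_clique hk hD lam F h0 hdvd h2 hp hF hB

end Pool.Agent.AA
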