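import Pool.Agent.AA.Defs

/-! AA (one of D, 2D, .., ND), module PRJ: projections on eigenspaces. -/

set_option autoImplicit false

namespace Pool.Agent.AA

open Finset Filter Topology Pool.Agent.StrA

variable {H : Type*} [NormedAddCommGroup H] [InnerProductSpace ℂ H]

/-- PRJ1 -/
theorem PV_mem [CompleteSpace H] (V : H ≃ₗᵢ[ℂ] H) (z : ℂ) (x : H) : V (PV V z x) = z • PV V z x := by
  exact (mem_eig V z _).1 (Submodule.starProjection_apply_mem _ _)

/-- PRJ2 -/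
theorem PV_inner [CompleteSpace H] (V : H ≃ₗᵢ[ℂ] H) (z : ℂ) (x v : H) (hv : V v = z • v) :
    (inner ℂ v (PV V z x) : ℂ) = inner ℂ v x := by
  have h1 : (eig V z).starProjection v = v := Submodule.starProjection_eq_self_iff.2 hv
  change (inner ℂ v ((eig V z).starProjection x) : ℂ) = inner ℂ v x
  rw [← Submodule.inner_starProjection_left_eq_right, h1]

/-- PRJ3 -/
theorem PV_norm_le [CompleteSpace H] (V : H ≃ₗᵢ[ℂ] H) (z : ℂ) (x : H) : ‖PV V z x‖ ≤ ‖x‖ := by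
  exact Submodule.norm_starProjection_apply_le _ _

/-- PRJ4 -/
theorem PV_sub_norm_le [CompleteSpace H] (V : H ≃ₗᵢ[ℂ] H) (z : ℂ) (x : H) : ‖x - PV V z x‖ ≤ ‖x‖ := by
  have h1 : (inner ℂ (PV V z x) (x - PV V z x) : ℂ) = 0 := by
    rw [inner_sub_right, PV_inner V z x _ (PV_mem V z x), sub_self]
  have h2 : ‖x‖ ^ 2 = ‖PV V z x‖ ^ 2 + ‖x - PV V z x‖ ^ 2 := by
    have h3 := norm_add_sq (𝕜 := ℂ) (PV V z x) (x - PV V z x)
    rw [h1, add_sub_cancel] at h3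
    rw [h3]
    simp
  have h3 : ‖x - PV V z x‖ ^ 2 ≤ ‖x‖ ^ 2 := by
    rw [h2]
    exact le_add_of_nonneg_left (sq_nonneg _)
  exact le_of_sq_le_sq h3 (norm_nonneg _)

/-- PRJ5.  PROOF: `⟪V v, V v'⟫ = ⟪v, v'⟫` and `conj z * z' ≠ 1`. -/
theorem eig_orth (V : H ≃ₗᵢ[ℂ] H) {z z' : ℂ} (hz : ‖z‖ = 1) (hne : z ≠ z') {v v' : H} (hv : V v = z • v)
    (hv' : V v' = z' • v') : (inner ℂ v v' : ℂ) = 0 := by
  have h1 : (inner ℂ (V v) (V v') : ℂ) = inner ℂ v v' := V.inner_map_map v v'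
  rw [hv, hv', inner_smul_left, inner_smul_right, ← mul_assoc] at h1
  have h2 : ((starRingEnd ℂ) z * z' - 1) * inner ℂ v v' = 0 := by
    rw [sub_mul, h1, one_mul, sub_self]
  rcases mul_eq_zero.1 h2 with h3 | h3
  · exfalso
    apply hne
    have h4 : (starRingEnd ℂ) z * z = 1 := by
      rw [mul_comm, Complex.mul_conj, Complex.normSq_eq_norm_sq, hz]
      simp
    have h5 : (starRingEnd ℂ) z ≠ 0 := by
      intro h0
      rw [h0, zero_mul] at h4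
      exact zero_ne_one h4
    apply mul_left_cancel₀ h5
    rw [h4, sub_eq_zero.1 h3]
  · exact h3

/-- PRJ6 -/
theorem eig_norm (V : H ≃ₗᵢ[ℂ] H) {z : ℂ} {v : H} (hv : V v = z • v) (h0 : v ≠ 0) : ‖z‖ = 1 := by
  have h1 : ‖V v‖ = ‖v‖ := V.norm_map v
  rw [hv, norm_smul] at h1
  have h2 : ‖v‖ ≠ 0 := norm_ne_zero_iff.2 h0
  exact mul_right_cancel₀ h2 (by rw [h1, one_mul])

/-- PRJ7 -/
theorem eig_zpow (V : H ≃ₗᵢ[ℂ] H) {z : ℂ} (hz : ‖z‖ = 1) {v : H} (hv : V v = z • v) (n : ℤ) :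
    (V ^ n) v = (z ^ n) • v := by
  have hz0 : z ≠ 0 := by
    intro h0
    rw [h0, norm_zero] at hz
    exact zero_ne_one hz
  have hnat : ∀ (U : H ≃ₗᵢ[ℂ] H) (y : ℂ), U v = y • v → ∀ m : ℕ, (U ^ m) v = (y ^ m) • v := by
    intro U y hU m
    induction m with
    | zero =>
      rw [pow_zero, pow_zero, one_smul]
      rfl
    | succ m ih =>
      rw [pow_succ', pow_succ']
      change U ((U ^ m) v) = _
      rw [ih, map_smul, hU, smul_smul, mul_comm]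
  have hinv : V⁻¹ v = z⁻¹ • v := by
    have h1 : V (z⁻¹ • v) = v := by
      rw [map_smul, hv, smul_smul, inv_mul_cancel₀ hz0, one_smul]
    change V.symm v = _
    rw [LinearIsometryEquiv.symm_apply_eq, h1]
  obtain ⟨m, rfl | rfl⟩ := n.eq_nat_or_neg
  · rw [zpow_natCast, zpow_natCast]
    exact hnat V z hv m
  · rw [zpow_neg, zpow_neg, zpow_natCast, zpow_natCast, ← inv_pow, ← inv_pow]
    exact hnat V⁻¹ z⁻¹ hinv m

end Pool.Agent.AA
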