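import Pool.Agent.AA.Defs

/-! AA (one of D, 2D, .., ND), module RAA. -/

set_option autoImplicit false

namespace Pool.Agent.AA

open Finset Filter Topology Pool.Agent.StrA

/-- RA1.  Expansion of the big primes.  `e(x) = exp(2 π i x)`.  For a prime `p`: `1_(p ∤ n) p/(p-1) = 1 - (1/(p-1)) ∑_{0<a<p} e(a n/p)`.
PROOF: geometric sum. -/
theorem prime_expand (p : ℕ) (hp : p.Prime) (n : ℤ) :
    ((if (p : ℤ) ∣ n then 0 else (p : ℝ) / (p - 1) : ℝ) : ℂ) =
      1 - (1 / ((p : ℂ) - 1)) * ∑ a ∈ Ico 1 p, (Complex.exp (2 * Real.pi * Complex.I * (a / p))) ^ n := by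
  have hp0 : p ≠ 0 := hp.ne_zero
  have hpC : (p : ℂ) ≠ 0 := by exact_mod_cast hp0
  have hp1 : (p : ℂ) - 1 ≠ 0 := by
    rw [sub_ne_zero]
    exact_mod_cast hp.one_lt.ne'
  have hprim := Complex.isPrimitiveRoot_exp p hp0
  set ζ : ℂ := Complex.exp (2 * Real.pi * Complex.I / p) with hζ
  have h1 : ∀ a : ℕ, (Complex.exp (2 * Real.pi * Complex.I * (a / p))) ^ n = (ζ ^ n) ^ a := by
    intro a
    have h2 : Complex.exp (2 * Real.pi * Complex.I * (a / p)) = ζ ^ a := by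
      rw [hζ, ← Complex.exp_nat_mul]
      congr 1
      ring
    rw [h2, ← zpow_natCast, ← zpow_natCast, ← zpow_mul, ← zpow_mul, mul_comm]
  have h3 : ∑ a ∈ Ico 1 p, (Complex.exp (2 * Real.pi * Complex.I * (a / p))) ^ n =
      ∑ a ∈ range p, (ζ ^ n) ^ a - 1 := by
    rw [sum_congr rfl (fun a _ => h1 a), range_eq_Ico, sum_eq_sum_Ico_succ_bot hp.pos]
    simp
  rw [h3]
  by_cases hd : (p : ℤ) ∣ n
  · rw [if_pos hd]
    have h4 : ζ ^ n = 1 := (hprim.zpow_eq_one_iff_dvd n).2 hd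
    rw [h4]
    simp only [one_pow, sum_const, card_range, nsmul_eq_mul, mul_one]
    rw [one_div, inv_mul_cancel₀ hp1]
    simp
  · rw [if_neg hd]
    have h4 : ζ ^ n ≠ 1 := fun h => hd ((hprim.zpow_eq_one_iff_dvd n).1 h)
    have h5 : (ζ ^ n) ^ p = 1 := by
      rw [← zpow_natCast, ← zpow_mul, mul_comm, zpow_mul, zpow_natCast, hprim.pow_eq_one, one_zpow]
    have h6 : ∑ a ∈ range p, (ζ ^ n) ^ a = 0 := by
      rw [geom_sum_eq h4, h5, sub_self, zero_div]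
    rw [h6]
    push_cast
    field_simp
    ring

end Pool.Agent.AA
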