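import Pool.Agent.AA.Prj
import Pool.Agent.AA.LMb

/-! AA (one of D, 2D, .., ND), module SGA. -/
set_option autoImplicit false
namespace Pool.Agent.AA
open Finset Filter Topology Pool.Agent.StrA

variable {H : Type*} [NormedAddCommGroup H] [InnerProductSpace ℂ H]

private theorem SGA_cadd (M : LM) (f g : ℤ → ℂ) :
    M.mean.c (fun x => f x + g x) = M.mean.c f + M.mean.c g := by
  unfold Mean.c
  have h1 : (fun x => (f x + g x).re) = fun x => (f x).re + (g x).re := rfl
  have h2 : (fun x => (f x + g x).im) = fun x => (f x).im + (g x).im := rfl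
  rw [h1, h2]
  show ((M.m (fun x => (f x).re + (g x).re) : ℝ) : ℂ) + ((M.m fun x => (f x).im + (g x).im : ℝ) : ℂ) * Complex.I =
    (((M.m fun x => (f x).re : ℝ) : ℂ) + ((M.m fun x => (f x).im : ℝ) : ℂ) * Complex.I) +
      (((M.m fun x => (g x).re : ℝ) : ℂ) + ((M.m fun x => (g x).im : ℝ) : ℂ) * Complex.I)
  rw [LM.add, LM.add]
  push_cast
  ring

private theorem SGA_czero (M : LM) : M.mean.c (fun _ => 0) = 0 := by
  unfold Mean.c
  show ((M.m (fun _ => 0) : ℝ) : ℂ) + ((M.m fun _ => 0 : ℝ) : ℂ) * Complex.I = 0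
  rw [LM.const]
  simp

private theorem SGA_csum (M : LM) {ι : Type*} (s : Finset ι) (f : ι → ℤ → ℂ) :
    M.mean.c (fun x => ∑ i ∈ s, f i x) = ∑ i ∈ s, M.mean.c (f i) := by
  classical
  induction s using Finset.induction_on with
  | empty => simpa using SGA_czero M
  | insert a s ha ih =>
    simp only [Finset.sum_insert ha]
    rw [SGA_cadd, ih]

private theorem SGA_csmul (M : LM) (c : ℂ) (f : ℤ → ℂ) :
    M.mean.c (fun x => c * f x) = c * M.mean.c f := by
  unfold Mean.c
  have h1 : (fun x => (c * f x).re) = fun x => c.re * (f x).re + (-c.im) * (f x).im := by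
    funext x; rw [Complex.mul_re]; ring
  have h2 : (fun x => (c * f x).im) = fun x => c.re * (f x).im + c.im * (f x).re := by
    funext x; rw [Complex.mul_im]
  rw [h1, h2]
  show ((M.m (fun x => c.re * (f x).re + (-c.im) * (f x).im) : ℝ) : ℂ) +
    ((M.m fun x => c.re * (f x).im + c.im * (f x).re : ℝ) : ℂ) * Complex.I =
    c * (((M.m fun x => (f x).re : ℝ) : ℂ) + ((M.m fun x => (f x).im : ℝ) : ℂ) * Complex.I)
  rw [LM.add, LM.add, LM.smul, LM.smul, LM.smul, LM.smul]
  apply Complex.ext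
  · simp
    ring
  · simp

private theorem SGA_close (M : LM) (f : ℤ → ℂ) (c : ℂ) (δ : ℝ) (hf : ∀ x, ‖f x - c‖ ≤ δ) :
    ‖M.mean.c f - c‖ ≤ 2 * δ := by
  have h1 : |M.m (fun x => (f x).re) - c.re| ≤ δ := by
    rw [← LM.const M c.re, ← LM.sub]
    apply LM.abs_le
    intro x
    have := Complex.abs_re_le_norm (f x - c)
    rw [Complex.sub_re] at this
    exact this.trans (hf x)
  have h2 : |M.m (fun x => (f x).im) - c.im| ≤ δ := by
    rw [← LM.const M c.im, ← LM.sub]
    apply LM.abs_le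
    intro x
    have := Complex.abs_im_le_norm (f x - c)
    rw [Complex.sub_im] at this
    exact this.trans (hf x)
  have h3 := Complex.norm_le_abs_re_add_abs_im (M.mean.c f - c)
  have h4 : (M.mean.c f - c).re = M.m (fun x => (f x).re) - c.re := by
    unfold Mean.c
    show (((M.m fun x => (f x).re : ℝ) : ℂ) + ((M.m fun x => (f x).im : ℝ) : ℂ) * Complex.I - c).re = _
    simp
  have h5 : (M.mean.c f - c).im = M.m (fun x => (f x).im) - c.im := by
    unfold Mean.c
    show (((M.m fun x => (f x).re : ℝ) : ℂ) + ((M.m fun x => (f x).im : ℝ) : ℂ) * Complex.I - c).im = _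
    simp
  rw [h4, h5] at h3
  linarith

private theorem SGA_shift (M : LM) (hM : M.Inv 1) (f : ℤ → ℂ) (hf : BddC f) (l : ℤ) :
    M.mean.c (fun n => f (n + l)) = M.mean.c f := by
  have h := LM.Inv.mul hM (-l)
  obtain ⟨C, hC⟩ := hf
  have h1 := h (fun x => (f x).re) ⟨C, fun x => (Complex.abs_re_le_norm _).trans (hC x)⟩
  have h2 := h (fun x => (f x).im) ⟨C, fun x => (Complex.abs_im_le_norm _).trans (hC x)⟩
  have e : ∀ x : ℤ, x - -l * 1 = x + l := fun x => by ring
  simp only [e] at h1 h2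
  unfold Mean.c
  show ((M.m (fun x => (f (x + l)).re) : ℝ) : ℂ) + ((M.m fun x => (f (x + l)).im : ℝ) : ℂ) * Complex.I =
    ((M.m (fun x => (f x).re) : ℝ) : ℂ) + ((M.m fun x => (f x).im : ℝ) : ℂ) * Complex.I
  rw [h1, h2]

/-- SG1.  PROOF: `c n = ⟪b, W^n u⟫`, `|z| = 1`.  `M (z^n c n) = ⟪b, PV W z⁻¹ u⟫`: by invariance the left side is
`M_n ((1/N) ∑_{l<N} z^(n+l) ⟪b, W^(n+l) u⟫) = M_n (⟪b, z^n W^n a_N⟫)`, `a_N = (1/N) ∑_{l<N} z^l W^l u → PV W z⁻¹ u` (mean ergodic
theorem for the unitary `z W`, whose fixed vectors are the eigenvectors of `W` for `z⁻¹`), uniformly in `n`, and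
`z^n W^n (PV W z⁻¹ u) = PV W z⁻¹ u`. -/
theorem coeff_eq [CompleteSpace H] (M : LM) (hM : M.Inv 1) (W : H ≃ₗᵢ[ℂ] H) (b u : H) {z : ℂ} (hz : ‖z‖ = 1) :
    M.mean.c (fun n => z ^ n * inner ℂ b ((W ^ n) u)) = inner ℂ b (PV W z⁻¹ u) := by
  have hz0 : z ≠ 0 := by
    intro h
    rw [h, norm_zero] at hz
    exact zero_ne_one hz
  have hzn : ∀ n : ℤ, ‖z ^ n‖ = 1 := fun n => by rw [norm_zpow, hz, one_zpow]
  have hWn : ∀ (n : ℤ) (v : H), ‖(W ^ n) v‖ = ‖v‖ := fun n v => (W ^ n).norm_map v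
  set P := PV W z⁻¹ u with hP
  have hPW : W P = z⁻¹ • P := PV_mem W z⁻¹ u
  have hzi : ‖z⁻¹‖ = 1 := by rw [norm_inv, hz, inv_one]
  have hPn : ∀ n : ℤ, z ^ n • (W ^ n) P = P := by
    intro n
    rw [eig_zpow W hzi hPW n, smul_smul, inv_zpow, mul_inv_cancel₀ (zpow_ne_zero n hz0), one_smul]
  -- the ergodic theorem
  let f : H →L[ℂ] H := z • (W.toContinuousLinearEquiv : H →L[ℂ] H)
  have hf : ∀ x, f x = z • W x := fun x => rfl
  have hf1 : ‖f‖ ≤ 1 := by
    refine ContinuousLinearMap.opNorm_le_bound _ zero_le_one fun x => ?_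
    rw [hf, norm_smul, hz, W.norm_map]
  have hit : ∀ (l : ℕ) (x : H), f^[l] x = z ^ l • (W ^ l) x := by
    intro l x
    induction l with
    | zero => simp
    | succ l ih =>
      rw [Function.iterate_succ_apply', ih, hf, map_smul, smul_smul, pow_succ', pow_succ' W]
      rfl
  have herg := ContinuousLinearMap.tendsto_birkhoffAverage_orthogonalProjection f hf1 u
  set Q : H := ((f.eqLocus (1 : H →L[ℂ] H)).orthogonalProjectionOnto u : H) with hQ
  have hQP : Q = P := by
    symm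
    apply Submodule.eq_starProjection_of_mem_of_inner_eq_zero
    · show W Q = z⁻¹ • Q
      have h1 : f Q = Q := ((f.eqLocus (1 : H →L[ℂ] H)).orthogonalProjectionOnto u).2
      rw [hf] at h1
      rw [← h1, map_smul, smul_smul, inv_mul_cancel₀ hz0, one_smul]
      rw [← map_smul, h1]
    · intro w hw
      have hw' : W w = z⁻¹ • w := hw
      have h2 : w ∈ f.eqLocus (1 : H →L[ℂ] H) := by
        show f w = w
        rw [hf, hw', smul_smul, mul_inv_cancel₀ hz0, one_smul]
      exact Submodule.starProjection_inner_eq_zero (K := f.eqLocus (1 : H →L[ℂ] H)) u w h2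
  rw [hQP] at herg
  -- bounded
  set g : ℤ → ℂ := fun n => z ^ n * inner ℂ b ((W ^ n) u) with hg
  have hgb : BddC g := ⟨‖b‖ * ‖u‖, fun n => by
    rw [hg]
    simp only
    rw [norm_mul, hzn, one_mul]
    refine (norm_inner_le_norm _ _).trans ?_
    rw [hWn]⟩
  -- for every N ≥ 1
  have key : ∀ N : ℕ, 0 < N → ‖M.mean.c g - inner ℂ b P‖ ≤ 2 * (‖b‖ * ‖birkhoffAverage ℂ f _root_.id N u - P‖) := by
    intro N hN
    have hN' : (N : ℂ) ≠ 0 := by exact_mod_cast hN.ne'
    have e1 : M.mean.c g = M.mean.c (fun n => (N : ℂ)⁻¹ * ∑ l ∈ range N, g (n + l)) := by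
      rw [SGA_csmul, SGA_csum]
      have : ∀ l ∈ range N, M.mean.c (fun n => g (n + (l : ℤ))) = M.mean.c g := fun l _ => SGA_shift M hM g hgb l
      rw [Finset.sum_congr rfl this, Finset.sum_const, card_range, nsmul_eq_mul]
      field_simp
    have e2 : ∀ n : ℤ, (N : ℂ)⁻¹ * ∑ l ∈ range N, g (n + l) =
        inner ℂ b (z ^ n • (W ^ n) (birkhoffAverage ℂ f _root_.id N u)) := by
      intro n
      rw [birkhoffAverage, birkhoffSum, map_smul, smul_smul, mul_comm (z ^ n), ← smul_smul, inner_smul_right]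
      congr 1
      rw [map_sum, Finset.smul_sum, inner_sum]
      refine Finset.sum_congr rfl fun l _ => ?_
      rw [hg]
      simp only [_root_.id]
      rw [hit, map_smul, smul_smul, inner_smul_right, zpow_add₀ hz0, zpow_natCast]
      congr 2
      rw [zpow_add, zpow_natCast]
      rfl
    rw [e1]
    apply SGA_close
    intro n
    rw [e2 n]
    have e3 : inner ℂ b P = (inner ℂ b (z ^ n • (W ^ n) P) : ℂ) := by rw [hPn]
    rw [e3, ← inner_sub_right, ← smul_sub, ← map_sub]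
    refine (norm_inner_le_norm _ _).trans ?_
    rw [norm_smul, hzn, one_mul, hWn]
  -- limit
  have hlim : Tendsto (fun N : ℕ => 2 * (‖b‖ * ‖birkhoffAverage ℂ f _root_.id N u - P‖)) atTop (𝓝 0) := by
    have h1 : Tendsto (fun N : ℕ => birkhoffAverage ℂ f _root_.id N u - P) atTop (𝓝 0) := by
      have := herg.sub_const P
      rwa [sub_self] at this
    have h2 := (h1.norm.const_mul ‖b‖).const_mul 2
    simpa using h2
  have h0 : ‖M.mean.c g - inner ℂ b P‖ ≤ 0 := by
    refine ge_of_tendsto hlim ?_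
    filter_upwards [eventually_gt_atTop 0] with N hN
    exact key N hN
  exact sub_eq_zero.1 (norm_le_zero_iff.1 h0)

end Pool.Agent.AA
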