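import Pool.Agent.AA.SgA

/-! AA (one of D, 2D, .., ND), module SGB. -/
set_option autoImplicit false
namespace Pool.Agent.AA
open Finset Filter Topology Pool.Agent.StrA

variable {H : Type*} [NormedAddCommGroup H] [InnerProductSpace ℂ H]

/-- Bessel for the eigenspaces -/
private theorem SGB_bessel [CompleteSpace H] (W : H ≃ₗᵢ[ℂ] H) (u : H) (Z : Finset ℂ) (hZ : ∀ z ∈ Z, ‖z‖ = 1) :
    ∑ z ∈ Z, ‖PV W z⁻¹ u‖ ^ 2 ≤ ‖u‖ ^ 2 := by
  set P : ℂ → H := fun z => PV W z⁻¹ u with hP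
  have horth : ∀ z ∈ Z, ∀ z' ∈ Z, z ≠ z' → (inner ℂ (P z) (P z') : ℂ) = 0 := by
    intro z hz z' hz' hne
    have h1 : ‖z⁻¹‖ = 1 := by rw [norm_inv, hZ z hz, inv_one]
    exact eig_orth W h1 (fun h => hne (inv_injective h)) (PV_mem W z⁻¹ u) (PV_mem W z'⁻¹ u)
  set s : H := ∑ z ∈ Z, P z with hs
  set S : ℝ := ∑ z ∈ Z, ‖P z‖ ^ 2 with hS
  have hS0 : 0 ≤ S := Finset.sum_nonneg fun z _ => sq_nonneg _
  have h1 : (inner ℂ s s : ℂ) = (S : ℂ) := by
    rw [hs, sum_inner, hS]
    push_cast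
    refine Finset.sum_congr rfl fun z hz => ?_
    rw [inner_sum, Finset.sum_eq_single z]
    · rw [inner_self_eq_norm_sq_to_K]; rfl
    · intro z' hz' hne
      exact horth z hz z' hz' hne.symm
    · intro h; exact absurd hz h
  have h2 : (inner ℂ s u : ℂ) = (S : ℂ) := by
    rw [hs, sum_inner, hS]
    push_cast
    refine Finset.sum_congr rfl fun z hz => ?_
    have := PV_inner W z⁻¹ u (P z) (PV_mem W z⁻¹ u)
    rw [← this, inner_self_eq_norm_sq_to_K]
    rfl
  have h3 : ‖s‖ ^ 2 = S := by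
    have : ((‖s‖ ^ 2 : ℝ) : ℂ) = (S : ℂ) := by
      rw [← h1, inner_self_eq_norm_sq_to_K]
      push_cast
      rfl
    exact_mod_cast this
  have h4 : S ≤ ‖s‖ * ‖u‖ := by
    have h5 := norm_inner_le_norm (𝕜 := ℂ) s u
    rw [h2, Complex.norm_real, Real.norm_eq_abs, abs_of_nonneg hS0] at h5
    exact h5
  rcases eq_or_lt_of_le (norm_nonneg s) with h | h
  · have : S = 0 := by rw [← h3, ← h]; ring
    show S ≤ _
    rw [this]
    positivity
  · show S ≤ _
    have h5 : ‖s‖ ≤ ‖u‖ := by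
      rw [← h3, pow_two] at h4
      exact le_of_mul_le_mul_left h4 h
    rw [← h3]
    exact pow_le_pow_left₀ (norm_nonneg _) h5 2

private theorem SGB_complete [CompleteSpace H] (M : LM) (hM : M.Inv 1) (W : H ≃ₗᵢ[ℂ] H) (b u : H) (Z : Finset ℂ)
    (hZ : ∀ z ∈ Z, ‖z‖ = 1) :
    ∑ z ∈ Z, ‖M.mean.c (fun n => z ^ n * inner ℂ b ((W ^ n) u))‖ ≤ ‖b‖ * ‖u‖ := by
  have h1 : ∀ z ∈ Z, ‖M.mean.c (fun n => z ^ n * inner ℂ b ((W ^ n) u))‖ ≤ ‖PV W z⁻¹ b‖ * ‖PV W z⁻¹ u‖ := by
    intro z hz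
    rw [coeff_eq M hM W b u (hZ z hz)]
    have h2 : (inner ℂ b (PV W z⁻¹ u) : ℂ) = inner ℂ (PV W z⁻¹ b) (PV W z⁻¹ u) := by
      have := PV_inner W z⁻¹ b (PV W z⁻¹ u) (PV_mem W z⁻¹ u)
      rw [← inner_conj_symm, ← this, inner_conj_symm]
    rw [h2]
    exact norm_inner_le_norm _ _
  refine (Finset.sum_le_sum h1).trans ?_
  have h2 := Finset.sum_mul_sq_le_sq_mul_sq Z (fun z => ‖PV W z⁻¹ b‖) (fun z => ‖PV W z⁻¹ u‖)
  have h3 := SGB_bessel W b Z hZ
  have h4 := SGB_bessel W u Z hZ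
  have h5 : (∑ z ∈ Z, ‖PV W z⁻¹ b‖ * ‖PV W z⁻¹ u‖) ^ 2 ≤ (‖b‖ * ‖u‖) ^ 2 := by
    rw [mul_pow]
    refine h2.trans (mul_le_mul h3 h4 (Finset.sum_nonneg fun z _ => sq_nonneg _) (sq_nonneg _))
  exact (sq_le_sq₀ (Finset.sum_nonneg fun z _ => by positivity) (by positivity)).1 h5

/-- extension of an isometry to the completion -/
private noncomputable def SGB_hat (W : H ≃ₗᵢ[ℂ] H) : UniformSpace.Completion H ≃ₗᵢ[ℂ] UniformSpace.Completion H where
  toLinearEquiv := LinearEquiv.ofLinearMap ((W.toContinuousLinearEquiv : H →L[ℂ] H).completion : _ →ₗ[ℂ] _)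
    ((W.symm.toContinuousLinearEquiv : H →L[ℂ] H).completion : _ →ₗ[ℂ] _)
    (LinearMap.ext fun v => by
      show (W.toContinuousLinearEquiv : H →L[ℂ] H).completion
        ((W.symm.toContinuousLinearEquiv : H →L[ℂ] H).completion v) = v
      induction v using UniformSpace.Completion.induction_on with
      | hp => exact isClosed_eq (by fun_prop) (by fun_prop)
      | ih a =>
        rw [ContinuousLinearMap.completion_apply_coe, ContinuousLinearMap.completion_apply_coe]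
        congr 1
        exact W.apply_symm_apply a)
    (LinearMap.ext fun v => by
      show (W.symm.toContinuousLinearEquiv : H →L[ℂ] H).completion
        ((W.toContinuousLinearEquiv : H →L[ℂ] H).completion v) = v
      induction v using UniformSpace.Completion.induction_on with
      | hp => exact isClosed_eq (by fun_prop) (by fun_prop)
      | ih a =>
        rw [ContinuousLinearMap.completion_apply_coe, ContinuousLinearMap.completion_apply_coe]
        congr 1
        exact W.symm_apply_apply a)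
  norm_map' v := by
    show ‖(W.toContinuousLinearEquiv : H →L[ℂ] H).completion v‖ = ‖v‖
    induction v using UniformSpace.Completion.induction_on with
    | hp => exact isClosed_eq (by fun_prop) (by fun_prop)
    | ih a =>
      rw [ContinuousLinearMap.completion_apply_coe, UniformSpace.Completion.norm_coe, UniformSpace.Completion.norm_coe]
      exact W.norm_map a

private theorem SGB_hat_coe (W : H ≃ₗᵢ[ℂ] H) (v : H) :
    SGB_hat W (v : UniformSpace.Completion H) = ((W v : H) : UniformSpace.Completion H) :=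
  ContinuousLinearMap.completion_apply_coe (W.toContinuousLinearEquiv : H →L[ℂ] H) v

private theorem SGB_hat_pow (W : H ≃ₗᵢ[ℂ] H) (n : ℕ) (v : H) :
    (SGB_hat W ^ n) (v : UniformSpace.Completion H) = (((W ^ n) v : H) : UniformSpace.Completion H) := by
  induction n generalizing v with
  | zero => rfl
  | succ n ih =>
    rw [pow_succ, pow_succ]
    show (SGB_hat W ^ n) (SGB_hat W v) = _
    rw [SGB_hat_coe, ih]
    rfl

private theorem SGB_hat_zpow (W : H ≃ₗᵢ[ℂ] H) (n : ℤ) (v : H) :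
    (SGB_hat W ^ n) (v : UniformSpace.Completion H) = (((W ^ n) v : H) : UniformSpace.Completion H) := by
  obtain ⟨k, rfl | rfl⟩ := n.eq_nat_or_neg
  · rw [zpow_natCast, zpow_natCast]
    exact SGB_hat_pow W k v
  · have h1 : (SGB_hat W ^ k) ((((W ^ (-(k : ℤ))) v : H)) : UniformSpace.Completion H) = v := by
      rw [SGB_hat_pow]
      congr 1
      show ((W ^ k) * (W ^ (-(k : ℤ)))) v = v
      rw [zpow_neg, zpow_natCast, mul_inv_cancel]
      rfl
    have h2 : (SGB_hat W ^ (-(k : ℤ))) ((SGB_hat W ^ k) ((((W ^ (-(k : ℤ))) v : H)) : UniformSpace.Completion H)) =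
        (((W ^ (-(k : ℤ))) v : H) : UniformSpace.Completion H) := by
      show ((SGB_hat W ^ (-(k : ℤ))) * (SGB_hat W ^ k)) ((((W ^ (-(k : ℤ))) v : H)) : UniformSpace.Completion H) = _
      rw [zpow_neg, zpow_natCast, inv_mul_cancel]
      rfl
    rw [h1] at h2
    exact h2

/-- SG2.  PROOF: SG1 in the completion: `∑ |⟪b, P_z u⟫| = ∑ |⟪P_z b, P_z u⟫| ≤ (∑ ‖P_z b‖²)^(1/2) (∑ ‖P_z u‖²)^(1/2) ≤ ‖b‖ ‖u‖`
(`P_z` orthogonal projections on pairwise orthogonal subspaces).  `H` need not be complete: pass to `UniformSpace.Completion H`. -/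
theorem coeff_sum_le (M : LM) (hM : M.Inv 1) (W : H ≃ₗᵢ[ℂ] H) (b u : H) (Z : Finset ℂ) (hZ : ∀ z ∈ Z, ‖z‖ = 1) :
    ∑ z ∈ Z, ‖M.mean.c (fun n => z ^ n * inner ℂ b ((W ^ n) u))‖ ≤ ‖b‖ * ‖u‖ := by
  have h := SGB_complete M hM (SGB_hat W) (b : UniformSpace.Completion H) (u : UniformSpace.Completion H) Z hZ
  rw [UniformSpace.Completion.norm_coe, UniformSpace.Completion.norm_coe] at h
  refine le_trans (le_of_eq ?_) h
  refine Finset.sum_congr rfl fun z _ => ?_
  congr 2
  funext n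
  rw [SGB_hat_zpow, UniformSpace.Completion.inner_coe]

end Pool.Agent.AA
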