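import Pool.Agent.AA.TelA

/-! AA (one of D, 2D, .., ND), module TELB: telescoping at the innermost vertex. -/

set_option autoImplicit false

namespace Pool.Agent.AA

open Finset Filter Topology Pool.Agent.StrA

variable {ι : Type} [LinearOrder ι] (B : ℕ → Set ℤ) (lam : ι → ℕ) (Ms : ι → LM) (fb : ι → ℕ → ℤ → ℝ)

/-- TEL6 -/
theorem WW_insert (S : Finset ι) (j : ι) (hj : ∀ a ∈ S, a < j) (F : ι → ℤ) (x : ℤ) :
    WW B lam (insert j S) (Function.update F j x) =
      WW B lam S F * ∏ a ∈ S, ind (B (lam j / lam a)) (x - ((lam j / lam a : ℕ) : ℤ) * F a) := by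
  have hjS : j ∉ S := fun h => lt_irrefl _ (hj j h)
  have e1 : (insert j S).filter (· < j) = S := by
    ext a
    rw [Finset.mem_filter, Finset.mem_insert]
    constructor
    · rintro ⟨rfl | h, h2⟩
      · exact absurd h2 (lt_irrefl _)
      · exact h
    · intro h
      exact ⟨Or.inr h, hj a h⟩
  have e3 : ∀ i ∈ S, (insert j S).filter (· < i) = S.filter (· < i) := by
    intro i hi
    rw [Finset.filter_insert, if_neg (not_lt_of_gt (hj i hi))]
  have hu : ∀ a ∈ S, Function.update F j x a = F a := fun a ha =>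
    Function.update_of_ne (ne_of_lt (hj a ha)) _ _
  unfold WW
  rw [Finset.prod_insert hjS, e1, Function.update_self, mul_comm]
  congr 1
  · refine Finset.prod_congr rfl fun b hb => ?_
    rw [e3 b hb, hu b hb]
    refine Finset.prod_congr rfl fun a ha => ?_
    rw [hu a (Finset.mem_filter.1 ha).1]
  · refine Finset.prod_congr rfl fun a ha => ?_
    rw [hu a ha]

/-- TEL7.  PROOF: `(insert j S).sort (· ≥ ·) = j :: S.sort (· ≥ ·)` (`Finset.sort_insert`), so
`II (insert j S) = Nst L (F ↦ WW S F * m_j (x ↦ ∏_a ind ..))` (TEL6, linearity of `m_j`); subtract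
`cc j S * II S = Nst L (F ↦ WW S F * m_j (x ↦ ∏_a fb ..))`; TEL5 under `m_j`, linearity (`Nst_sum`, `Nst_sub`), triangle inequality. -/
theorem telescope (hfb : ∀ j g x, 0 ≤ fb j g x ∧ fb j g x ≤ 1) (S : Finset ι) (j : ι) (hj : ∀ a ∈ S, a < j) :
    |II B lam Ms (insert j S) - cc lam Ms fb j S * II B lam Ms S| ≤ ∑ i ∈ S, err B lam Ms fb j S i := by
  have hjS : j ∉ S := fun h => lt_irrefl _ (hj j h)
  have hsort : (insert j S).sort (· ≥ ·) = j :: S.sort (· ≥ ·) :=
    Finset.sort_insert (r := (· ≥ ·)) (fun b hb => (hj b hb).le) hjS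
  have h1 : II B lam Ms (insert j S) = Nst Ms (S.sort (· ≥ ·)) (fun F => WW B lam S F *
      (Ms j).m fun x => ∏ a ∈ S, ind (B (lam j / lam a)) (x - ((lam j / lam a : ℕ) : ℤ) * F a))
      fun _ => 0 := by
    unfold II
    rw [hsort]
    change Nst Ms (S.sort (· ≥ ·)) (fun F' => (Ms j).m fun x =>
      WW B lam (insert j S) (Function.update F' j x)) _ = _
    congr 1
    funext F
    rw [← LM.smul]
    congr 1
    funext x
    rw [WW_insert B lam S j hj]
  have h2 : cc lam Ms fb j S * II B lam Ms S = Nst Ms (S.sort (· ≥ ·)) (fun F => cc lam Ms fb j S *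
      WW B lam S F) fun _ => 0 := by
    rw [Nst_smul]
    rfl
  have h3 : II B lam Ms (insert j S) - cc lam Ms fb j S * II B lam Ms S =
      ∑ i ∈ S, (1 : ℝ) * Nst Ms (S.sort (· ≥ ·)) (fun F => WW B lam S F *
        (Ms j).m fun x => bb B lam fb j S i F x * dd B lam fb j i F x) fun _ => 0 := by
    rw [h1, h2, ← Nst_sub, ← Nst_sum]
    congr 1
    funext F
    have e1 : (Ms j).m (fun x => ∏ a ∈ S, ind (B (lam j / lam a))
        (x - ((lam j / lam a : ℕ) : ℤ) * F a)) - cc lam Ms fb j S =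
        ∑ i ∈ S, (Ms j).m fun x => bb B lam fb j S i F x * dd B lam fb j i F x := by
      unfold cc
      rw [← LM.sub, ← LM.sum]
      congr 1
      funext x
      exact prod_tel S (fun a => ind (B (lam j / lam a)) (x - ((lam j / lam a : ℕ) : ℤ) * F a))
        (fun a => fb j (lam j / lam a) x)
    have e2 : WW B lam S F * (Ms j).m (fun x => ∏ a ∈ S, ind (B (lam j / lam a))
        (x - ((lam j / lam a : ℕ) : ℤ) * F a)) - cc lam Ms fb j S * WW B lam S F =
        WW B lam S F * ((Ms j).m (fun x => ∏ a ∈ S, ind (B (lam j / lam a))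
        (x - ((lam j / lam a : ℕ) : ℤ) * F a)) - cc lam Ms fb j S) := by ring
    rw [e2, e1, Finset.mul_sum]
    refine Finset.sum_congr rfl fun i _ => ?_
    rw [one_mul]
  rw [h3]
  refine (Finset.abs_sum_le_sum_abs _ _).trans (le_of_eq ?_)
  refine Finset.sum_congr rfl fun i _ => ?_
  rw [one_mul]
  rfl

end Pool.Agent.AA
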