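import Pool.Agent.AA.En2
import Pool.Agent.AA.Avg

/-! AA (one of D, 2D, .., ND), module UNI: one choice of the slopes. -/

set_option autoImplicit false

namespace Pool.Agent.AA

open Finset Filter Topology Pool.Agent.StrA

/-- UNI.  All errors of all edges are small for one choice of the slopes.
PROOF: the sum over `p` in the product set of all errors is at most `K r² 2^r |P|` (`avg_two`, EN2), so one `p` has total at most the
mean. -/
theorem exists_slopes {r : ℕ} (B : ℕ → Set ℤ) (ε : ℝ) (R : ℕ) (A : Finset ℕ) (hA : DivSet A) (η : ℝ) (hη : 0 < η) (hη1 : η ≤ 1)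
    (hcard : (1 / η) ^ 4 ≤ (A.card : ℝ)) (w : ℕ) (hw : 1 ≤ w) (δ : ℝ) (hδ : 0 ≤ δ)
    (y : Fin r → Lv) (Ms : Fin r → LM) (fb : Fin r → ℕ → ℤ → ℝ) (hfb : ∀ j g x, 0 ≤ fb j g x ∧ fb j g x ≤ 1)
    (hy : ∀ i, (y i).Ok B ε R A) (hlt : ∀ i j, i < j → (y i).Lt (η ^ 4) A (y j))
    (hrel : ∀ i, IsRel (y i).M (Ms i) (y i).D) (Q : ∀ j, RB (Ms j).mean (y j).D) (hQ : ∀ j, Near (Q j) B δ (fb j)) :
    ∃ p : Fin r → ℕ × ℕ, (∀ i, p i ∈ (y i).E ×ˢ A) ∧
      ∑ j, ∑ S ∈ (univ.filter fun a : Fin r => a < j).powerset, ∑ i ∈ S,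
        err B (fun k => (y k).sl (p k)) Ms fb j S i ≤
      (√(2 * √w * (8 * √(√η) + 1 / w)) + δ + η ^ 4) * (r ^ 2 * 2 ^ r) := by
  classical
  set K : ℝ := √(2 * √w * (8 * √(√η) + 1 / w)) + δ + η ^ 4 with hK
  have hK0 : 0 ≤ K := by
    have h1 : 0 ≤ √(2 * √w * (8 * √(√η) + 1 / w)) := Real.sqrt_nonneg _
    positivity
  have hAne : A.Nonempty := by
    rw [← Finset.card_pos]
    by_contra h0
    have h1 : A.card = 0 := by omega
    rw [h1, Nat.cast_zero] at hcard
    have h2 : 0 < (1 / η) ^ 4 := by positivity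
    linarith
  set Sf : Fin r → Finset (ℕ × ℕ) := fun i => (y i).E ×ˢ A with hSf
  have hne : ∀ i, (Sf i).Nonempty := fun i => Finset.Nonempty.product (hy i).ne hAne
  set P := Fintype.piFinset Sf with hP
  have hPne : P.Nonempty := by
    rw [hP]
    exact Fintype.piFinset_nonempty.mpr hne
  have hPpos : (0 : ℝ) < P.card := by exact_mod_cast Finset.card_pos.mpr hPne
  -- every edge
  have hedge : ∀ (j : Fin r) (S : Finset (Fin r)), S ∈ (univ.filter fun a : Fin r => a < j).powerset → ∀ i ∈ S,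
      ∑ p ∈ P, err B (fun k => (y k).sl (p k)) Ms fb j S i ≤ K * P.card := by
    intro j S hS i hi
    have hSj : ∀ a ∈ S, a < j := fun a ha => (Finset.mem_filter.mp (Finset.mem_powerset.mp hS ha)).2
    refine avg_two Sf hne (fun p => err B (fun k => (y k).sl (p k)) Ms fb j S i) i j (hSj i hi).ne K fun p _ => ?_
    exact err_pair B ε R A hA η hη hη1 hcard w hw δ y Ms fb hfb i j (hSj i hi) (hy i) (hy j) (hlt i j (hSj i hi))
      (hrel i) (Q j) (hQ j) S hSj hi p
  set tot : (Fin r → ℕ × ℕ) → ℝ := fun p => ∑ j, ∑ S ∈ (univ.filter fun a : Fin r => a < j).powerset, ∑ i ∈ S,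
        err B (fun k => (y k).sl (p k)) Ms fb j S i with htot
  have hsum : ∑ p ∈ P, tot p ≤ P.card • (K * (r ^ 2 * 2 ^ r)) := by
    simp only [htot]
    rw [Finset.sum_comm]
    have h1 : ∀ j : Fin r, ∑ p ∈ P, ∑ S ∈ (univ.filter fun a : Fin r => a < j).powerset, ∑ i ∈ S,
        err B (fun k => (y k).sl (p k)) Ms fb j S i ≤ 2 ^ r * (r * (K * P.card)) := by
      intro j
      rw [Finset.sum_comm]
      have h2 : ∀ S ∈ (univ.filter fun a : Fin r => a < j).powerset, ∑ p ∈ P, ∑ i ∈ S,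
          err B (fun k => (y k).sl (p k)) Ms fb j S i ≤ r * (K * P.card) := by
        intro S hS
        rw [Finset.sum_comm]
        refine (Finset.sum_le_sum fun i hi => hedge j S hS i hi).trans ?_
        rw [Finset.sum_const, nsmul_eq_mul]
        refine mul_le_mul_of_nonneg_right ?_ (by positivity)
        have h3 := Finset.card_le_univ S
        rw [Fintype.card_fin] at h3
        exact_mod_cast h3
      refine (Finset.sum_le_sum h2).trans ?_
      rw [Finset.sum_const, nsmul_eq_mul, Finset.card_powerset]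
      refine mul_le_mul_of_nonneg_right ?_ (by positivity)
      push_cast
      refine pow_le_pow_right₀ (by norm_num) ?_
      have h3 := Finset.card_le_univ (univ.filter fun a : Fin r => a < j)
      rw [Fintype.card_fin] at h3
      exact h3
    refine (Finset.sum_le_sum fun j _ => h1 j).trans (le_of_eq ?_)
    rw [Finset.sum_const, Finset.card_univ, Fintype.card_fin, nsmul_eq_mul, nsmul_eq_mul]
    ring
  obtain ⟨p, hpP, hp⟩ := Finset.exists_le_of_sum_le hPne (f := tot) (g := fun _ => K * (r ^ 2 * 2 ^ r)) (by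
    rw [Finset.sum_const]
    exact hsum)
  exact ⟨p, fun i => Fintype.mem_piFinset.mp hpP i, hp⟩

end Pool.Agent.AA
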